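import Pool.Agent.Lib.MP_733696_ag.Global

/-!
# The global Bochner argument on a compact Kähler manifold
-/

open scoped Manifold ContDiff Topology ComplexConjugate ComplexOrder
open Module Set MeasureTheory

namespace Pool.Agent.Lib.MP_733696_ag

variable {E : Type*} [NormedAddCommGroup E] [NormedSpace ℂ E]
variable {X : Type*} [TopologicalSpace X] [ChartedSpace E X]

theorem isManifold_real [IsManifold 𝓘(ℂ, E) ω X] : IsManifold 𝓘(ℝ, E) ∞ X := by
  apply isManifold_of_contDiffOn
  intro e e' he he'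
  have h := (contDiffGroupoid ω 𝓘(ℂ, E)).compatible he he'
  have h1 := (contDiffGroupoid ω 𝓘(ℂ, E)).mem_of_eqOnSource h (Setoid.refl _)
  have h2 : ContDiffOn ℂ ω (e.symm ≫ₕ e') (e.symm ≫ₕ e').source := by
    have := (mem_groupoid_of_pregroupoid.1 h).1
    simpa [contDiffPregroupoid] using this
  have h3 : ContDiffOn ℝ ∞ (e.symm ≫ₕ e') (e.symm ≫ₕ e').source :=
    (h2.of_le le_top).restrict_scalars ℝ
  simpa using h3

section integral

variable [IsManifold 𝓘(ℂ, E) ω X] [FiniteDimensional ℂ E]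
variable {h : ∀ x : X, TangentSpace 𝓘(ℂ, E) x → TangentSpace 𝓘(ℂ, E) x → ℂ}
  (hh : IsKahlerMetric h)
variable {η : ∀ x : X, TangentSpace 𝓘(ℂ, E) x →L[ℂ] ℂ} (hη : IsClosedHolForm η)

omit [IsManifold 𝓘(ℂ, E) ω X] [FiniteDimensional ℂ E] in
theorem tsupport_Dxi (ψ : X → ℂ) : tsupport (Dxi h η ψ) ⊆ tsupport ψ := by
  apply closure_minimal _ (isClosed_tsupport ψ)
  intro x hx
  by_contra hne
  apply hx
  have h1 : ∀ᶠ x' in 𝓝 x, ψ x' = 0 := by
    filter_upwards [(isClosed_tsupport ψ).isOpen_compl.mem_nhds hne] with z hz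
    exact image_eq_zero_of_notMem_tsupport hz
  have h2 : ContinuousAt (chartAt E x).symm (chartAt E x x) :=
    (chartAt E x).continuousAt_symm (mem_chart_target E x)
  have h3 : (fun y => ψ ((chartAt E x).symm y)) =ᶠ[𝓝 (chartAt E x x)] fun _ => 0 := by
    have h4 : ∀ᶠ x' in 𝓝 ((chartAt E x).symm (chartAt E x x)), ψ x' = 0 := by
      rw [(chartAt E x).left_inv (mem_chart_source E x)]
      exact h1
    exact h2.eventually h4
  unfold Dxi
  rw [dz_congr h3, dz_of_hasFDerivAt (hasFDerivAt_const (0:ℂ) _)]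
  simp

variable [MeasurableSpace E] [BorelSpace E] (μ : Measure E) [μ.IsAddHaarMeasure]

omit [IsManifold 𝓘(ℂ, E) ω X] [BorelSpace E] [μ.IsAddHaarMeasure] in
theorem chartInt_sum {ι : Type*} (s : Finset ι) {e : OpenPartialHomeomorph X E}
    {ψ : ι → X → ℂ}
    (hi : ∀ i ∈ s, IntegrableOn (fun y => rhoE hh e y * ψ i (e.symm y)) e.target μ) :
    chartInt hh μ e (fun x => ∑ i ∈ s, ψ i x) = ∑ i ∈ s, chartInt hh μ e (ψ i) := by
  unfold chartInt
  simp only [Finset.mul_sum]
  exact integral_finsetSum s hi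

omit [IsManifold 𝓘(ℂ, E) ω X] [BorelSpace E] [μ.IsAddHaarMeasure] in
theorem chartInt_add {e : OpenPartialHomeomorph X E} {ψ₁ ψ₂ : X → ℂ}
    (h1 : IntegrableOn (fun y => rhoE hh e y * ψ₁ (e.symm y)) e.target μ)
    (h2 : IntegrableOn (fun y => rhoE hh e y * ψ₂ (e.symm y)) e.target μ) :
    chartInt hh μ e (fun x => ψ₁ x + ψ₂ x) = chartInt hh μ e ψ₁ + chartInt hh μ e ψ₂ := by
  unfold chartInt
  simp only [mul_add]
  exact integral_add h1 h2

variable [T2Space X] [CompactSpace X]

omit [MeasurableSpace E] [BorelSpace E] in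
include hh hη in
/-- **Divergence theorem argument**: if `ξ f` has nonnegative real part on the compact Kähler
manifold `X`, where `ξ` is dual to a closed holomorphic one-form, then this real part vanishes. -/
theorem Dxi_re_eq_zero {f : X → ℂ} (hf : SmoothX E f)
    (hnn : ∀ x, 0 ≤ (Dxi h η f x).re) (x : X) : (Dxi h η f x).re = 0 := by
  classical
  let : MeasurableSpace E := borel E
  have : BorelSpace E := ⟨rfl⟩
  have : FiniteDimensional ℝ E := inferInstance
  let μ : Measure E := Measure.addHaar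
  have : IsManifold 𝓘(ℝ, E) ∞ X := isManifold_real
  -- finite cover by charts
  obtain ⟨t, -, ht⟩ := (isCompact_univ (X := X)).elim_nhds_subcover
    (fun x => (chartAt E x).source) (fun x _ => (chartAt E x).open_source.mem_nhds
      (mem_chart_source E x))
  let ι := {x : X // x ∈ t}
  let e : ι → OpenPartialHomeomorph X E := fun i => chartAt E i.1
  have he : ∀ i, e i ∈ atlas E X := fun i => chart_mem_atlas E i.1
  obtain ⟨ρ, hρ⟩ := SmoothPartitionOfUnity.exists_isSubordinate 𝓘(ℝ, E)
    (isClosed_univ (X := X)) (fun i : ι => (e i).source) (fun i => (e i).open_source) (by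
      intro x hx
      obtain ⟨i, hi, hxi⟩ := mem_iUnion₂.1 (ht hx)
      exact mem_iUnion.2 ⟨⟨i, hi⟩, hxi⟩)
  let χ : ι → X → ℂ := fun i x => ((ρ i x : ℝ) : ℂ)
  have hχs : ∀ i, tsupport (χ i) ⊆ (e i).source := by
    intro i
    have h1 : Function.support (χ i) = Function.support (ρ i) := by
      ext x
      simp [χ]
    have h2 : tsupport (χ i) = tsupport (ρ i) := by
      unfold tsupport
      rw [h1]
    rw [h2]
    exact hρ i
  have hχ : ∀ i, SmoothX E (χ i) := by
    intro i c hc
    have h1 : ContMDiffOn 𝓘(ℝ, E) 𝓘(ℝ, E) ∞ c.symm c.target :=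
      contMDiffOn_symm_of_mem_maximalAtlas (IsManifold.subset_maximalAtlas hc)
    have h2 : ContMDiff 𝓘(ℝ, E) 𝓘(ℝ, ℝ) ∞ (ρ i) := (ρ i).contMDiff
    have h3 : ContMDiffOn 𝓘(ℝ, E) 𝓘(ℝ, ℝ) ∞ (ρ i ∘ c.symm) c.target := h2.comp_contMDiffOn h1
    rw [contMDiffOn_iff_contDiffOn] at h3
    exact Complex.ofRealCLM.contDiff.comp_contDiffOn h3
  have hχ1 : ∀ x, ∑ i, χ i x = 1 := by
    intro x
    have h1 := ρ.sum_eq_one (mem_univ x)
    rw [finsum_eq_sum_of_fintype] at h1
    have h2 : ((∑ i, ρ i x : ℝ) : ℂ) = 1 := by rw [h1]; simp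
    simpa [χ] using h2
  have hχnn : ∀ i x, 0 ≤ (χ i x).re := fun i x => by simpa [χ] using ρ.nonneg i x
  have hχim : ∀ i x, (χ i x).im = 0 := fun i x => by simp [χ]
  have hDf := smoothX_Dxi hh hη hf
  have hDχ : ∀ i, SmoothX E (Dxi h η (χ i)) := fun i => smoothX_Dxi hh hη (hχ i)
  -- supports
  have hs1 : ∀ i, tsupport (fun x => χ i x * Dxi h η f x) ⊆ (e i).source := fun i =>
    (tsupport_mul_subset_left).trans (hχs i)
  have hs2 : ∀ i, tsupport (fun x => f x * Dxi h η (χ i) x) ⊆ (e i).source := fun i =>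
    (tsupport_mul_subset_right).trans ((tsupport_Dxi (χ i)).trans (hχs i))
  have hs3 : ∀ i, tsupport (fun x => χ i x * f x) ⊆ (e i).source := fun i =>
    (tsupport_mul_subset_left).trans (hχs i)
  -- integration by parts in one chart
  have hI1 : ∀ i, chartInt hh μ (e i) (fun x => χ i x * Dxi h η f x)
      = - chartInt hh μ (e i) (fun x => f x * Dxi h η (χ i) x) := by
    intro i
    have h0 := chartInt_Dxi hh hη μ (he i) ((hχ i).mul hf) (hs3 i)
    have h1 : (Dxi h η fun x => χ i x * f x)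
        = fun x => χ i x * Dxi h η f x + f x * Dxi h η (χ i) x := by
      funext x
      rw [Dxi_mul (hχ i) hf]
      ring
    rw [h1, chartInt_add hh μ
      (chartInt_integrable hh μ (he i) ((hχ i).mul hDf) (hs1 i))
      (chartInt_integrable hh μ (he i) (hf.mul (hDχ i)) (hs2 i))] at h0
    exact eq_neg_of_add_eq_zero_left h0
  -- the double sum
  have hI2 : ∑ i, chartInt hh μ (e i) (fun x => f x * Dxi h η (χ i) x) = 0 := by
    have hsm : ∀ i j, SmoothX E (fun x => χ j x * (f x * Dxi h η (χ i) x)) := fun i j =>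
      (hχ j).mul (hf.mul (hDχ i))
    have hsi : ∀ i j, tsupport (fun x => χ j x * (f x * Dxi h η (χ i) x)) ⊆ (e i).source :=
      fun i j => (tsupport_mul_subset_right).trans (hs2 i)
    have hsj : ∀ i j, tsupport (fun x => χ j x * (f x * Dxi h η (χ i) x)) ⊆ (e j).source :=
      fun i j => (tsupport_mul_subset_left).trans (hχs j)
    have h1 : ∀ i, chartInt hh μ (e i) (fun x => f x * Dxi h η (χ i) x)
        = ∑ j, chartInt hh μ (e j) (fun x => χ j x * (f x * Dxi h η (χ i) x)) := by
      intro i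
      have h2 : (fun x => f x * Dxi h η (χ i) x)
          = fun x => ∑ j, χ j x * (f x * Dxi h η (χ i) x) := by
        funext x
        rw [← Finset.sum_mul, hχ1, one_mul]
      conv_lhs => rw [h2]
      rw [chartInt_sum hh μ Finset.univ (fun j _ =>
        chartInt_integrable hh μ (he i) (hsm i j) (hsi i j))]
      refine Finset.sum_congr rfl fun j _ => ?_
      apply chartInt_change hh μ (he i) (he j)
      intro x hx
      by_contra hne
      apply hx
      have hxs : x ∈ tsupport (fun x => χ j x * (f x * Dxi h η (χ i) x)) :=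
        subset_tsupport _ hne
      exact ⟨hsi i j hxs, hsj i j hxs⟩
    simp only [h1]
    rw [Finset.sum_comm]
    apply Finset.sum_eq_zero
    intro j _
    rw [← chartInt_sum hh μ Finset.univ (fun i _ =>
        chartInt_integrable hh μ (he j) (hsm i j) (hsj i j))]
    have h3 : (fun x => ∑ i, χ j x * (f x * Dxi h η (χ i) x)) = fun _ => 0 := by
      funext x
      have h4 : ∑ i, Dxi h η (χ i) x = 0 := by
        rw [← Dxi_sum hχ x]
        have : (fun x => ∑ i, χ i x) = fun _ : X => (1:ℂ) := by funext x; exact hχ1 x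
        rw [this, Dxi_const]
      rw [← Finset.mul_sum, ← Finset.mul_sum, h4, mul_zero, mul_zero]
    rw [h3]
    unfold chartInt
    simp
  have hI3 : ∑ i, (chartInt hh μ (e i) (fun x => χ i x * Dxi h η f x)).re = 0 := by
    rw [← Complex.re_sum]
    simp only [hI1]
    rw [Finset.sum_neg_distrib, hI2]
    simp
  have hre : ∀ i x, (χ i x * Dxi h η f x).re = (χ i x).re * (Dxi h η f x).re := by
    intro i x
    rw [Complex.mul_re, hχim i x]
    ring
  have hpos : ∀ i, 0 ≤ (chartInt hh μ (e i) (fun x => χ i x * Dxi h η f x)).re ∧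
      ((chartInt hh μ (e i) (fun x => χ i x * Dxi h η f x)).re = 0 →
        ∀ x ∈ (e i).source, (χ i x * Dxi h η f x).re = 0) := fun i =>
    chartInt_eq_zero hh μ (he i) ((hχ i).mul hDf) (hs1 i) (fun x => by
      rw [hre]; exact mul_nonneg (hχnn i x) (hnn x))
  have hzero : ∀ i, (chartInt hh μ (e i) (fun x => χ i x * Dxi h η f x)).re = 0 := by
    intro i
    exact (Finset.sum_eq_zero_iff_of_nonneg (fun i _ => (hpos i).1)).1 hI3 i (Finset.mem_univ i)
  -- conclusion
  obtain ⟨i, hi⟩ : ∃ i, χ i x ≠ 0 := by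
    by_contra hcon
    push Not at hcon
    have := hχ1 x
    simp [hcon] at this
  have hxs : x ∈ (e i).source := hχs i (subset_tsupport _ hi)
  have h1 := (hpos i).2 (hzero i) x hxs
  rw [hre] at h1
  rcases mul_eq_zero.1 h1 with h2 | h2
  · exfalso
    apply hi
    apply Complex.ext
    · simpa using h2
    · simpa using hχim i x
  · exact h2

end integral

end Pool.Agent.Lib.MP_733696_ag
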