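import Pool.Agent.Lib.MP_733696_ag.Density

/-!
# Integration by parts and change of variables in charts
-/

open scoped ContDiff Topology ComplexConjugate ComplexOrder
open Module MeasureTheory Set

namespace Pool.Agent.Lib.MP_733696_ag

variable {E : Type*} [NormedAddCommGroup E] [NormedSpace ℂ E] [FiniteDimensional ℂ E]
variable [MeasurableSpace E] [BorelSpace E] (μ : Measure E) [μ.IsAddHaarMeasure]

theorem integrable_fderiv_apply (g : E → ℂ) (hg : ContDiff ℝ 1 g) (hs : HasCompactSupport g)
    (v : E) : Integrable (fun x => fderiv ℝ g x v) μ := by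
  have hc : Continuous (fun x => fderiv ℝ g x v) :=
    (hg.continuous_fderiv (by norm_num)).clm_apply continuous_const
  exact hc.integrable_of_hasCompactSupport (hs.fderiv_apply (𝕜 := ℝ) v)

theorem integral_fderiv_zero (g : E → ℂ) (hg : ContDiff ℝ 1 g) (hs : HasCompactSupport g)
    (v : E) : ∫ x, fderiv ℝ g x v ∂μ = 0 := by
  have hc : Continuous (fun x => fderiv ℝ g x v) :=
    (hg.continuous_fderiv (by norm_num)).clm_apply continuous_const
  have hs' : HasCompactSupport (fun x => fderiv ℝ g x v) := hs.fderiv_apply (𝕜 := ℝ) v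
  have h := integral_mul_fderiv_eq_neg_fderiv_mul_of_integrable (𝕜 := ℂ) (μ := μ)
    (f := fun _ : E => (1:ℂ)) (g := g) (v := v)
    (by simp) (by simpa using hc.integrable_of_hasCompactSupport hs')
    (by simpa using hg.continuous.integrable_of_hasCompactSupport hs)
    (fun x _ => differentiableAt_const _)
    (fun x _ => hg.differentiable (by norm_num) x)
  simpa using h

theorem integral_dz_zero (g : E → ℂ) (hg : ContDiff ℝ 1 g) (hs : HasCompactSupport g)
    (v : E) : ∫ x, dz g x v ∂μ = 0 := by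
  simp only [dz, smul_eq_mul]
  rw [integral_const_mul, integral_sub (integrable_fderiv_apply μ g hg hs v)
    ((integrable_fderiv_apply μ g hg hs (Complex.I • v)).const_mul _), integral_const_mul,
    integral_fderiv_zero μ g hg hs, integral_fderiv_zero μ g hg hs]
  simp

theorem integrable_dz (g : E → ℂ) (hg : ContDiff ℝ 1 g) (hs : HasCompactSupport g)
    (v : E) : Integrable (fun x => dz g x v) μ := by
  simp only [dz, smul_eq_mul]
  exact ((integrable_fderiv_apply μ g hg hs v).sub
    ((integrable_fderiv_apply μ g hg hs (Complex.I • v)).const_mul _)).const_mul _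

omit [MeasurableSpace E] [BorelSpace E] [FiniteDimensional ℂ E] in
/-- a function smooth on `U` and vanishing outside a compact `K ⊆ U` is smooth -/
theorem contDiff_of_support {W : Type*} [NormedAddCommGroup W] [NormedSpace ℝ W] {U K : Set E}
    (hU : IsOpen U) (hK : IsCompact K)
    (hKU : K ⊆ U) {f : E → W} (hf : ContDiffOn ℝ ∞ f U) (h0 : ∀ y, y ∉ K → f y = 0) :
    ContDiff ℝ ∞ f := by
  rw [contDiff_iff_contDiffAt]
  intro y
  by_cases hy : y ∈ U
  · exact hf.contDiffAt (hU.mem_nhds hy)
  · have hy' : y ∈ Kᶜ := fun h => hy (hKU h)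
    have : f =ᶠ[𝓝 y] fun _ => 0 := by
      filter_upwards [hK.isClosed.isOpen_compl.mem_nhds hy'] with z hz
      exact h0 z hz
    exact contDiffAt_const.congr_of_eventuallyEq this

section ibp

variable {U : Set E} {G : E → E →L[ℝ] E →L[ℝ] ℂ} (hG : LocalKahler U G)
variable {ι : Type*} [Fintype ι] [DecidableEq ι] (b : Basis ι ℂ E)
variable {η : E → E →L[ℝ] ℂ} (hη : LocalForm U η)
variable {ξ : E → E} (hξ : ContDiffOn ℝ ∞ ξ U) (hd : ∀ y ∈ U, ∀ v, G y v (ξ y) = η y v)

include hG hη hξ hd

theorem integral_rho_dz {K : Set E} (hK : IsCompact K) (hKU : K ⊆ U) {f : E → ℂ}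
    (hf : ContDiffOn ℝ ∞ f U) (h0 : ∀ y, y ∉ K → f y = 0) :
    ∫ y, (gram b G y).det * dz f y (ξ y) ∂μ = 0 := by
  let π : ι → E →L[ℂ] ℂ := fun j => LinearMap.toContinuousLinearMap (b.coord j)
  have hπ : ∀ j v, π j v = b.repr v j := fun j v => rfl
  let H : ι → E → ℂ := fun j y => (gram b G y).det * b.repr (ξ y) j * f y
  have hρξ : ∀ j, ContDiffOn ℝ ∞ (fun y => (gram b G y).det * b.repr (ξ y) j) U := fun j =>
    (contDiffOn_gram_det hG b).mul (((π j).restrictScalars ℝ).contDiff.comp_contDiffOn hξ)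
  have hH : ∀ j, ContDiff ℝ ∞ (H j) := by
    intro j
    apply contDiff_of_support hG.isOpen hK hKU ((hρξ j).mul hf)
    intro y hy
    simp [h0 y hy]
  have hHs : ∀ j, HasCompactSupport (H j) := fun j =>
    HasCompactSupport.intro hK fun y hy => by simp [H, h0 y hy]
  have hpt : ∀ y, (gram b G y).det * dz f y (ξ y) = ∑ j, dz (H j) y (b j) := by
    intro y
    by_cases hy : y ∈ U
    · have hnU := hG.isOpen.mem_nhds hy
      have hdf : DifferentiableAt ℝ f y := (hf.contDiffAt hnU).differentiableAt (by simp)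
      have hdρ : ∀ j, DifferentiableAt ℝ (fun y => (gram b G y).det * b.repr (ξ y) j) y :=
        fun j => ((hρξ j).contDiffAt hnU).differentiableAt (by simp)
      have h1 : ∀ j, dz (H j) y (b j)
          = dz (fun y => (gram b G y).det * b.repr (ξ y) j) y (b j) * f y
            + (gram b G y).det * (b.repr (ξ y) j * dz f y (b j)) := by
        intro j
        rw [show H j = fun y => ((gram b G y).det * b.repr (ξ y) j) * f y from rfl,
          dz_mul (hdρ j) hdf]
        ring
      simp only [h1]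
      rw [Finset.sum_add_distrib, ← Finset.sum_mul, dual_div_free hG b hη hξ hd hy, zero_mul,
        zero_add, ← Finset.mul_sum]
      congr 1
      conv_lhs => rw [← b.sum_repr (ξ y)]
      have : ∀ s : Finset ι, dz f y (∑ j ∈ s, b.repr (ξ y) j • b j)
          = ∑ j ∈ s, b.repr (ξ y) j * dz f y (b j) := by
        intro s
        induction s using Finset.induction_on with
        | empty => simp [dz]
        | insert a s ha ih => rw [Finset.sum_insert ha, Finset.sum_insert ha, dz_add_dir,
            dz_smul_dir, ih, smul_eq_mul]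
      exact this _
    · have hy' : y ∈ Kᶜ := fun h => hy (hKU h)
      have hn := hK.isClosed.isOpen_compl.mem_nhds hy'
      have h1 : ∀ v, dz f y v = 0 := by
        intro v
        have : f =ᶠ[𝓝 y] fun _ => 0 := by
          filter_upwards [hn] with z hz using h0 z hz
        rw [dz_congr this, dz_of_hasFDerivAt (hasFDerivAt_const (0:ℂ) y)]
        simp
      have h2 : ∀ j v, dz (H j) y v = 0 := by
        intro j v
        have : H j =ᶠ[𝓝 y] fun _ => 0 := by
          filter_upwards [hn] with z hz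
          simp [H, h0 z hz]
        rw [dz_congr this, dz_of_hasFDerivAt (hasFDerivAt_const (0:ℂ) y)]
        simp
      simp [h1, h2]
  simp only [hpt]
  rw [integral_finsetSum]
  · apply Finset.sum_eq_zero
    intro j _
    exact integral_dz_zero μ (H j) ((hH j).of_le (by simp)) (hHs j) (b j)
  · intro j _
    exact integrable_dz μ (H j) ((hH j).of_le (by simp)) (hHs j) (b j)

end ibp

section change

variable {ι : Type*} [Fintype ι] [DecidableEq ι] (b : Basis ι ℂ E)

omit [MeasurableSpace E] [BorelSpace E] [FiniteDimensional ℂ E] in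
theorem gram_det_change {g₁ g₂ : E →L[ℝ] E →L[ℝ] ℂ} {T : E →L[ℂ] E}
    (h2l : ∀ (c : ℂ) (v w : E), g₂ (c • v) w = c * g₂ v w)
    (h2r : ∀ (c : ℂ) (v w : E), g₂ v (c • w) = conj c * g₂ v w)
    (h : ∀ v w, g₁ v w = g₂ (T v) (T w)) :
    (Matrix.of fun i j => g₁ (b i) (b j)).det
      = (Matrix.of fun i j => g₂ (b i) (b j)).det
        * ((Complex.normSq (LinearMap.det (T : E →ₗ[ℂ] E)) : ℝ) : ℂ) := by
  let J : Matrix ι ι ℂ := LinearMap.toMatrix b b (T : E →ₗ[ℂ] E)
  have hJ : ∀ i, T (b i) = ∑ k, J k i • b k := by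
    intro i
    have := b.sum_repr (T (b i))
    rw [← this]
    refine Finset.sum_congr rfl fun k _ => ?_
    simp [J, LinearMap.toMatrix_apply]
  have hmat : (Matrix.of fun i j => g₁ (b i) (b j))
      = J.transpose * (Matrix.of fun i j => g₂ (b i) (b j)) * (J.map conj) := by
    ext i j
    rw [Matrix.of_apply, h, hJ i, hJ j, map_sum g₂, sum_apply, Matrix.mul_apply]
    simp only [Matrix.mul_apply, Matrix.transpose_apply, Matrix.of_apply, Matrix.map_apply,
      Finset.sum_mul]
    rw [Finset.sum_comm]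
    refine Finset.sum_congr rfl fun k _ => ?_
    rw [map_sum]
    refine Finset.sum_congr rfl fun l _ => ?_
    rw [h2l, h2r]
    ring
  rw [hmat, Matrix.det_mul, Matrix.det_mul, Matrix.det_transpose]
  have hconj : (J.map conj).det = conj J.det := by
    have := (RingHom.map_det (starRingEnd ℂ) J).symm
    simpa using this
  rw [hconj]
  have hdet : J.det = LinearMap.det (T : E →ₗ[ℂ] E) := LinearMap.det_toMatrix b _
  rw [hdet, ← Complex.mul_conj]
  ring

omit [MeasurableSpace E] [BorelSpace E] [FiniteDimensional ℂ E] in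
theorem det_restrictScalars_eq (T : E →L[ℂ] E) :
    (T.restrictScalars ℝ : E →L[ℝ] E).det
      = Complex.normSq (LinearMap.det (T : E →ₗ[ℂ] E)) := by
  have : (T.restrictScalars ℝ : E →L[ℝ] E).det
      = LinearMap.det ((T : E →ₗ[ℂ] E).restrictScalars ℝ) := rfl
  rw [this, LinearMap.det_restrictScalars, Algebra.norm_complex_apply]

/-- change of variables for the Kähler volume -/
theorem integral_change {S : Set E} (hS : IsOpen S) {T : E → E} {T' : E → E →L[ℂ] E}
    (hT : ∀ y ∈ S, HasFDerivAt T (T' y) y) (hinj : InjOn T S)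
    {G₁ G₂ : E → E →L[ℝ] E →L[ℝ] ℂ}
    (h2l : ∀ y ∈ S, ∀ (c : ℂ) (v w : E), G₂ (T y) (c • v) w = c * G₂ (T y) v w)
    (h2r : ∀ y ∈ S, ∀ (c : ℂ) (v w : E), G₂ (T y) v (c • w) = conj c * G₂ (T y) v w)
    (h : ∀ y ∈ S, ∀ v w, G₁ y v w = G₂ (T y) (T' y v) (T' y w)) (ψ : E → ℂ) :
    ∫ z in T '' S, (gram b G₂ z).det * ψ z ∂μ = ∫ y in S, (gram b G₁ y).det * ψ (T y) ∂μ := by
  rw [integral_image_eq_integral_abs_det_fderiv_smul μ hS.measurableSet
    (fun y hy => ((hT y hy).restrictScalars ℝ).hasFDerivWithinAt) hinj]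
  apply setIntegral_congr_fun hS.measurableSet
  intro y hy
  simp only
  rw [det_restrictScalars_eq, abs_of_nonneg (Complex.normSq_nonneg _)]
  have := gram_det_change b (h2l y hy) (h2r y hy) (h y hy)
  change (gram b G₁ y).det = (gram b G₂ (T y)).det * _ at this
  rw [this, Complex.real_smul]
  ring

end change

end Pool.Agent.Lib.MP_733696_ag
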