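import Mathlib

/-!
# Curves in fibres of maps of constant rank, and tangent vectors to immersed fibres
-/

open scoped ContDiff Topology
open Set Filter Asymptotics

namespace Pool.Agent.Lib.MP_733696_ag

variable {E : Type*} [NormedAddCommGroup E] [NormedSpace ℂ E] [FiniteDimensional ℂ E]
variable {F : Type*} [NormedAddCommGroup F] [NormedSpace ℂ F] [FiniteDimensional ℂ F]
variable {V : Type*} [NormedAddCommGroup V] [NormedSpace ℂ V] [FiniteDimensional ℂ V]

/-- If every linear functional killing the range of `dg` at `p₀` kills the range of `dg` at nearby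
points, then each vector of `ker dg(p₀)` is tangent to a curve in the fibre of `g`. -/
theorem exists_curve {g : E → V} {p₀ : E} (hg : ContDiffAt ℂ 1 g p₀)
    (H : ∀ ℓ : V →L[ℂ] ℂ, (∀ v, ℓ (fderiv ℂ g p₀ v) = 0) →
      ∀ᶠ p in 𝓝 p₀, ∀ v, ℓ (fderiv ℂ g p v) = 0) {w : E} (hw : fderiv ℂ g p₀ w = 0) :
    ∃ κ : ℂ → E, κ 0 = p₀ ∧ HasDerivAt κ w 0 ∧ ∀ᶠ t in 𝓝 (0:ℂ), g (κ t) = g p₀ := by
  classical
  have hcE : CompleteSpace E := FiniteDimensional.complete ℂ E
  set L := fderiv ℂ g p₀ with hL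
  let W : Submodule ℂ V := LinearMap.range (L : E →ₗ[ℂ] V)
  obtain ⟨P, hP⟩ := Submodule.ClosedComplemented.of_finiteDimensional (𝕜 := ℂ) W
  -- `Q = 1 - P`
  let Q : V →L[ℂ] V := ContinuousLinearMap.id ℂ V - W.subtypeL.comp P
  have hQW : ∀ v ∈ W, Q v = 0 := by
    intro v hv
    have := hP ⟨v, hv⟩
    simp only [Q, sub_apply, ContinuousLinearMap.id_apply,
      ContinuousLinearMap.comp_apply]
    rw [this]
    simp
  have hsplit : ∀ v, v = (P v : V) + Q v := by
    intro v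
    simp [Q]
  -- `Q g` is locally constant
  have hev : ∀ᶠ p in 𝓝 p₀, ∀ v, Q (fderiv ℂ g p v) = 0 := by
    let bV := Module.finBasis ℂ V
    have h1 : ∀ i, ∀ᶠ p in 𝓝 p₀, ∀ v,
        ((LinearMap.toContinuousLinearMap (bV.coord i)).comp Q) (fderiv ℂ g p v) = 0 := by
      intro i
      apply H
      intro v
      have : L v ∈ W := ⟨v, rfl⟩
      simp [hQW _ this]
    have h2 := (Filter.eventually_all).2 h1
    filter_upwards [h2] with p hp v
    apply bV.ext_elem
    intro i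
    have := hp i v
    simpa using this
  have hdg : ∀ᶠ p in 𝓝 p₀, DifferentiableAt ℂ g p := by
    have := hg.eventually (by simp)
    filter_upwards [this] with p hp using hp.differentiableAt (by simp)
  obtain ⟨r, hr, hball⟩ := Metric.eventually_nhds_iff_ball.1 (hev.and hdg)
  have hconst : ∀ p ∈ Metric.ball p₀ r, Q (g p) = Q (g p₀) := by
    intro p hp
    have hd : DifferentiableOn ℂ (fun p => Q (g p)) (Metric.ball p₀ r) := fun z hz =>
      (Q.differentiableAt.comp z (hball z hz).2).differentiableWithinAt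
    refine Metric.isOpen_ball.is_const_of_fderiv_eq_zero (𝕜 := ℂ) (f := fun p => Q (g p))
      (convex_ball p₀ r).isPreconnected hd ?_ hp (Metric.mem_ball_self hr)
    intro z hz
    have h1 : HasFDerivAt (fun p => Q (g p)) (Q.comp (fderiv ℂ g z)) z :=
      Q.hasFDerivAt.comp z (hball z hz).2.hasFDerivAt
    rw [h1.fderiv]
    ext v
    exact (hball z hz).1 v
  -- the submersion `P g`
  have hs : HasStrictFDerivAt (fun p => P (g p)) (P.comp L) p₀ :=
    P.hasStrictFDerivAt.comp p₀ (hg.hasStrictFDerivAt (by simp))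
  have hsurj : (P.comp L).range = ⊤ := by
    rw [Submodule.eq_top_iff']
    rintro ⟨v, u, hu⟩
    refine ⟨u, ?_⟩
    have h1 : L u = v := hu
    have h2 : (P.comp L) u = P (L u) := rfl
    have h3 : P (L u) = ⟨v, ⟨u, hu⟩⟩ := by
      have := hP ⟨v, ⟨u, hu⟩⟩
      rw [h1]
      exact this
    exact h2.trans h3
  have hwk : w ∈ (P.comp L).ker := by
    have : (P.comp L) w = P (L w) := rfl
    rw [LinearMap.mem_ker]
    change (P.comp L) w = 0
    rw [this, hw, map_zero]
  let κ : ℂ → E := fun t => hs.implicitFunction _ _ hsurj (P (g p₀)) (t • ⟨w, hwk⟩)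
  have hline : HasDerivAt (fun t : ℂ => t • (⟨w, hwk⟩ : (P.comp L).ker)) (⟨w, hwk⟩) 0 := by
    have h1 := (hasDerivAt_id (0:ℂ)).smul_const (⟨w, hwk⟩ : (P.comp L).ker)
    have h2 : (1:ℂ) • (⟨w, hwk⟩ : (P.comp L).ker) = ⟨w, hwk⟩ := one_smul ℂ _
    rw [h2] at h1
    exact h1
  have h0 : κ 0 = p₀ := by
    simp only [κ, zero_smul]
    exact hs.implicitFunction_apply_image hsurj
  refine ⟨κ, h0, ?_, ?_⟩
  · have h1 := (hs.to_implicitFunction hsurj).hasFDerivAt
    have h2 : HasFDerivAt (hs.implicitFunction _ _ hsurj (P (g p₀))) (P.comp L).ker.subtypeL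
        ((0:ℂ) • (⟨w, hwk⟩ : (P.comp L).ker)) := by
      rw [zero_smul]; exact h1
    have h3 := h2.comp_hasDerivAt (0:ℂ) hline
    exact h3
  · have h1 := hs.map_implicitFunction_eq hsurj
    have ht : Tendsto (fun t : ℂ => ((P (g p₀), t • (⟨w, hwk⟩ : (P.comp L).ker)) :
        W × (P.comp L).ker)) (𝓝 0) (𝓝 (P (g p₀), 0)) := by
      apply Tendsto.prodMk_nhds tendsto_const_nhds
      have h5 := hline.continuousAt.tendsto
      have h6 : (0:ℂ) • (⟨w, hwk⟩ : (P.comp L).ker) = 0 := zero_smul ℂ _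
      rw [h6] at h5
      exact h5
    have h2 := ht.eventually h1
    have h3 : ContinuousAt κ 0 := by
      have h1 := (hs.to_implicitFunction hsurj).hasFDerivAt
      have h2 : HasFDerivAt (hs.implicitFunction _ _ hsurj (P (g p₀))) (P.comp L).ker.subtypeL
          ((0:ℂ) • (⟨w, hwk⟩ : (P.comp L).ker)) := by
        rw [zero_smul]; exact h1
      exact (h2.comp_hasDerivAt (0:ℂ) hline).continuousAt
    have h4 : ∀ᶠ t in 𝓝 (0:ℂ), κ t ∈ Metric.ball p₀ r := by
      apply h3.eventually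
      rw [h0]
      exact Metric.ball_mem_nhds p₀ hr
    filter_upwards [h2, h4] with t ht1 ht2
    rw [hsplit (g (κ t)), hconst _ ht2]
    have h5 : P (g (κ t)) = P (g p₀) := ht1
    rw [h5]
    exact (hsplit (g p₀)).symm

/-- If a curve `κ` with velocity `w` lifts through an immersion `Φ` to a continuous curve, then `w`
is in the range of the differential of `Φ`. -/
theorem mem_range_of_lift {Φ : F → E} {A : F →L[ℂ] E} {y₀ : F} (hΦ : HasFDerivAt Φ A y₀)
    (hA : Function.Injective A) {κ : ℂ → E} {w : E} (hκ : HasDerivAt κ w 0) (h0 : κ 0 = Φ y₀)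
    {y : ℂ → F} (hy : Tendsto y (𝓝[≠] 0) (𝓝 y₀)) (hyκ : ∀ᶠ t in 𝓝[≠] 0, Φ (y t) = κ t) :
    ∃ t : F, A t = w := by
  -- error term
  have h1 : (fun t => Φ (y t) - Φ y₀ - A (y t - y₀)) =o[𝓝[≠] 0] fun t => y t - y₀ :=
    hΦ.isLittleO.comp_tendsto hy
  obtain ⟨K, hK⟩ : ∃ K, AntilipschitzWith K A := by
    obtain ⟨K, -, hK⟩ := (A : F →ₗ[ℂ] E).exists_antilipschitzWith (LinearMap.ker_eq_bot.2 hA)
    exact ⟨K, hK⟩
  have h2 : (fun t => y t - y₀) =O[𝓝[≠] 0] fun t => A (y t - y₀) := by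
    apply IsBigO.of_bound K
    filter_upwards with t
    have := hK.le_mul_dist (y t - y₀) 0
    simpa [dist_zero_right] using this
  have h3 : (fun t => Φ (y t) - Φ y₀ - A (y t - y₀)) =o[𝓝[≠] 0] fun t => A (y t - y₀) :=
    h1.trans_isBigO h2
  have h4 : (fun t => A (y t - y₀)) =O[𝓝[≠] 0] fun t => Φ (y t) - Φ y₀ := by
    have : IsEquivalent (𝓝[≠] 0) (fun t => Φ (y t) - Φ y₀) (fun t => A (y t - y₀)) := h3
    exact this.isBigO_symm
  have h5 : (fun t => κ t - κ 0 - (t - 0) • w) =o[𝓝 0] fun t => t - 0 :=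
    hasDerivAt_iff_isLittleO.1 hκ
  have h5' : (fun t => κ t - κ 0 - t • w) =o[𝓝[≠] 0] fun t => t := by
    have := h5.mono (nhdsWithin_le_nhds (s := {0}ᶜ))
    simpa using this
  have h6 : (fun t => Φ (y t) - Φ y₀) =O[𝓝[≠] 0] fun t => t := by
    have h7 : (fun t => κ t - κ 0) =O[𝓝[≠] 0] fun t => t := by
      have h8 : (fun t : ℂ => t • w) =O[𝓝[≠] 0] fun t => t := by
        apply IsBigO.of_bound ‖w‖
        filter_upwards with t
        rw [norm_smul, mul_comm]
      have := h5'.isBigO.add h8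
      simpa using this
    refine h7.congr' ?_ EventuallyEq.rfl
    filter_upwards [hyκ] with t ht
    rw [ht, h0]
  have h9 : (fun t => Φ (y t) - Φ y₀ - A (y t - y₀)) =o[𝓝[≠] 0] fun t => t :=
    (h3.trans_isBigO h4).trans_isBigO h6
  -- `A (y t - y₀) - t w = o(t)`
  have h10 : (fun t => A (y t - y₀) - t • w) =o[𝓝[≠] 0] fun t => t := by
    have h11 := h5'.sub h9
    refine h11.congr' ?_ EventuallyEq.rfl
    filter_upwards [hyκ] with t ht
    rw [ht, h0]
    abel
  have h12 : Tendsto (fun t : ℂ => t⁻¹ • (A (y t - y₀) - t • w)) (𝓝[≠] 0) (𝓝 0) := by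
    have h13 : Tendsto (fun t : ℂ => (A (y t - y₀) - t • w : E)) (𝓝[≠] 0) (𝓝 0) ∨ True :=
      Or.inr trivial
    rw [isLittleO_iff] at h10
    rw [Metric.tendsto_nhds]
    intro ε hε
    filter_upwards [h10 (half_pos hε), self_mem_nhdsWithin] with t ht ht0
    have ht0' : t ≠ 0 := ht0
    rw [dist_zero_right, norm_smul, norm_inv]
    have hpos : 0 < ‖t‖ := norm_pos_iff.2 ht0'
    calc ‖t‖⁻¹ * ‖A (y t - y₀) - t • w‖ ≤ ‖t‖⁻¹ * (ε / 2 * ‖t‖) := by gcongr
      _ = ε / 2 := by field_simp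
      _ < ε := half_lt_self hε
  have h14 : Tendsto (fun t : ℂ => A (t⁻¹ • (y t - y₀))) (𝓝[≠] 0) (𝓝 w) := by
    have h15 := h12.add_const w
    rw [zero_add] at h15
    refine h15.congr' ?_
    filter_upwards [self_mem_nhdsWithin] with t ht0
    have ht0' : t ≠ 0 := ht0
    rw [smul_sub, smul_smul, inv_mul_cancel₀ ht0', one_smul, map_smul]
    abel
  have hclosed : IsClosed ((LinearMap.range (A : F →ₗ[ℂ] E) : Submodule ℂ E) : Set E) :=
    Submodule.closed_of_finiteDimensional _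
  have hmem : w ∈ (LinearMap.range (A : F →ₗ[ℂ] E) : Submodule ℂ E) := by
    apply hclosed.mem_of_tendsto h14
    filter_upwards with t
    exact ⟨_, rfl⟩
  obtain ⟨t, ht⟩ := hmem
  exact ⟨t, ht⟩

end Pool.Agent.Lib.MP_733696_ag
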