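import Mathlib

/-!
# Kähler metrics on complex manifolds and holomorphic sectional curvature: definitions

A complex manifold is a charted space `X` over a finite dimensional complex normed space `E`
with `IsManifold 𝓘(ℂ, E) ω X`: the coordinate changes are complex analytic.
-/

open scoped Manifold ContDiff Topology ComplexConjugate

namespace Pool.Agent.Lib.MP_733696_ag

section wirtinger

variable {E : Type*} [NormedAddCommGroup E] [NormedSpace ℂ E]
variable {W : Type*} [NormedAddCommGroup W] [NormedSpace ℂ W]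

/-- The complex linear part of the real derivative:
`∂_u f (y) = (D f(y) u - i D f(y) (i u)) / 2`. -/
noncomputable def dz (f : E → W) (y u : E) : W :=
  (2 : ℂ)⁻¹ • (fderiv ℝ f y u - Complex.I • fderiv ℝ f y (Complex.I • u))

/-- The conjugate linear part of the real derivative:
`∂̄_u f (y) = (D f(y) u + i D f(y) (i u)) / 2`. -/
noncomputable def dzbar (f : E → W) (y u : E) : W :=
  (2 : ℂ)⁻¹ • (fderiv ℝ f y u + Complex.I • fderiv ℝ f y (Complex.I • u))

/-- The Christoffel vector `Γ_y(u,v)` of a family `G` of Hermitian forms: the vector (unique if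
`G y` is nondegenerate) such that `G_y(Γ_y(u,v), w) = ∂_u (G(v,w)) (y)` for all `w`. -/
noncomputable def christoffel (G : E → E → E → ℂ) (y u v : E) : E :=
  Classical.epsilon fun γ => ∀ w, G y γ w = dz (fun y' => G y' v w) y u

/-- The curvature tensor of a Kähler metric in local coordinates,
`R(a, b̄, c, d̄) = - ∂̄_b ∂_a (G(c,d)) + G(Γ(a,c), Γ(b,d))`,
that is `R_{i j̄ k l̄} = - ∂_i ∂_{j̄} g_{k l̄} + g^{p q̄} ∂_i g_{k q̄} ∂_{j̄} g_{p l̄}`. -/
noncomputable def curvatureTensor (G : E → E → E → ℂ) (y a b c d : E) : ℂ :=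
  - dzbar (fun y' => dz (fun y'' => G y'' c d) y' a) y b
    + G y (christoffel G y a c) (christoffel G y b d)

end wirtinger

section defs

variable {E : Type*} [NormedAddCommGroup E] [NormedSpace ℂ E]
variable {X : Type*} [TopologicalSpace X] [ChartedSpace E X]

/-- The expression in the chart `e` of a family `h` of (sesquilinear) forms on the tangent spaces:
`(y, v, w) ↦ h_{e⁻¹(y)}(D e⁻¹(y) v, D e⁻¹(y) w)`. -/
noncomputable def localForm
    (h : ∀ x : X, TangentSpace 𝓘(ℂ, E) x → TangentSpace 𝓘(ℂ, E) x → ℂ)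
    (e : OpenPartialHomeomorph X E) (y v w : E) : ℂ :=
  h (e.symm y) (mfderiv 𝓘(ℂ, E) 𝓘(ℂ, E) e.symm y v) (mfderiv 𝓘(ℂ, E) 𝓘(ℂ, E) e.symm y w)

/-- `h` is a Kähler metric on the complex manifold `X`: a family of positive definite Hermitian
forms on the tangent spaces (linear in the first variable), smooth in every chart, and such that
the associated `(1,1)`-form is closed, i.e. `∂_u (h(v,w)) = ∂_v (h(u,w))` in every chart
(`∂_k g_{i j̄} = ∂_i g_{k j̄}`). -/
structure IsKahlerMetric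
    (h : ∀ x : X, TangentSpace 𝓘(ℂ, E) x → TangentSpace 𝓘(ℂ, E) x → ℂ) : Prop where
  add_left : ∀ (x : X) (u v w : TangentSpace 𝓘(ℂ, E) x), h x (u + v) w = h x u w + h x v w
  smul_left : ∀ (x : X) (c : ℂ) (v w : TangentSpace 𝓘(ℂ, E) x), h x (c • v) w = c * h x v w
  conj_symm : ∀ (x : X) (v w : TangentSpace 𝓘(ℂ, E) x), h x w v = conj (h x v w)
  pos : ∀ (x : X) (v : TangentSpace 𝓘(ℂ, E) x), v ≠ 0 → 0 < (h x v v).re
  smooth : ∀ e ∈ atlas E X, ∀ v w : E, ContDiffOn ℝ ∞ (fun y => localForm h e y v w) e.target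
  closed : ∀ e ∈ atlas E X, ∀ y ∈ e.target, ∀ u v w : E,
    dz (fun y' => localForm h e y' v w) y u = dz (fun y' => localForm h e y' u w) y v

/-- The holomorphic sectional curvature `H(v) = R(v, v̄, v, v̄) / h(v, v̄)²` of the metric `h` at
the point `x` in the direction of the tangent vector `v`; the curvature tensor is computed in the
preferred chart at `x`, in which `v` has coordinate vector `D(chartAt x)(x) v`. -/
noncomputable def holSecCurv
    (h : ∀ x : X, TangentSpace 𝓘(ℂ, E) x → TangentSpace 𝓘(ℂ, E) x → ℂ)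
    (x : X) (v : TangentSpace 𝓘(ℂ, E) x) : ℝ :=
  (curvatureTensor (localForm h (chartAt E x)) (chartAt E x x)
    (mfderiv 𝓘(ℂ, E) 𝓘(ℂ, E) (chartAt E x) x v) (mfderiv 𝓘(ℂ, E) 𝓘(ℂ, E) (chartAt E x) x v)
    (mfderiv 𝓘(ℂ, E) 𝓘(ℂ, E) (chartAt E x) x v)
    (mfderiv 𝓘(ℂ, E) 𝓘(ℂ, E) (chartAt E x) x v)).re / (h x v v).re ^ 2

/-- The holomorphic sectional curvature of `h` is semi-positive. -/
def SemiPositiveHSC
    (h : ∀ x : X, TangentSpace 𝓘(ℂ, E) x → TangentSpace 𝓘(ℂ, E) x → ℂ) : Prop :=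
  ∀ (x : X) (v : TangentSpace 𝓘(ℂ, E) x), v ≠ 0 → 0 ≤ holSecCurv h x v

variable {F : Type*} [NormedAddCommGroup F] [NormedSpace ℂ F]
variable {Z : Type*} [TopologicalSpace Z] [ChartedSpace F Z]

/-- `f` is a holomorphic immersion: complex analytic with injective differentials. -/
structure IsHolImmersion (f : Z → X) : Prop where
  holo : ContMDiff 𝓘(ℂ, F) 𝓘(ℂ, E) ω f
  inj : ∀ z : Z, Function.Injective (mfderiv 𝓘(ℂ, F) 𝓘(ℂ, E) f z)

/-- The pulled back (induced) metric `(f^* h)_z(v, w) = h_{f(z)}(Df(z) v, Df(z) w)`. -/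
noncomputable def pullForm (f : Z → X)
    (h : ∀ x : X, TangentSpace 𝓘(ℂ, E) x → TangentSpace 𝓘(ℂ, E) x → ℂ) :
    ∀ z : Z, TangentSpace 𝓘(ℂ, F) z → TangentSpace 𝓘(ℂ, F) z → ℂ := fun z v w =>
  h (f z) (mfderiv 𝓘(ℂ, F) 𝓘(ℂ, E) f z v) (mfderiv 𝓘(ℂ, F) 𝓘(ℂ, E) f z w)

/-- `α` is a holomorphic map from `X` to the complex torus `V / Λ`: locally it is the composition
of a holomorphic map to `V` with the projection `V → V / Λ`. -/
def IsHolomorphicToTorus {V : Type*} [NormedAddCommGroup V] [NormedSpace ℂ V]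
    (Λ : AddSubgroup V) (α : X → V ⧸ Λ) : Prop :=
  ∀ x : X, ∃ f : X → V, ContMDiffAt 𝓘(ℂ, E) 𝓘(ℂ, V) ω f x ∧
    ∀ᶠ x' in 𝓝 x, α x' = (f x' : V ⧸ Λ)

end defs

end Pool.Agent.Lib.MP_733696_ag
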