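import Pool.Agent.Lib.MP_733696_ag.LocalParallel

/-!
# Dual vector field, volume density and integration in a chart
-/

open scoped ContDiff Topology ComplexConjugate ComplexOrder
open Module MeasureTheory

namespace Pool.Agent.Lib.MP_733696_ag

variable {E : Type*} [NormedAddCommGroup E] [NormedSpace ℂ E] [FiniteDimensional ℂ E]

/-- The metric dual of a `(1,0)`-form: the vector `ξ` with `G(v, ξ) = η(v)` for all `v`. -/
noncomputable def dualVec (G : E → E → E → ℂ) (η : E → E → ℂ) (y : E) : E :=
  Classical.epsilon fun ξ => ∀ v, G y v ξ = η y v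

section dual

variable {U : Set E} {G : E → E →L[ℝ] E →L[ℝ] ℂ} (hG : LocalKahler U G)
include hG

theorem exists_dual {y : E} (hy : y ∈ U) (ℓ : E →L[ℝ] ℂ) (hℓ : ∀ (c : ℂ) v, ℓ (c • v) = c * ℓ v) :
    ∃ ξ, ∀ v, G y v ξ = ℓ v := by
  obtain ⟨γ, hγ⟩ := exists_riesz (fun v w => G y v w)
    (fun u v w => by rw [map_add]; rfl)
    (fun c v w => hG.smul_left y hy c v w) (fun v w => hG.conj_symm y hy v w)
    (fun v hv => hG.pos y hy v hv) (fun v => conj (ℓ v))
    (fun v w => by rw [map_add, map_add]) (fun c v => by rw [hℓ, map_mul])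
  refine ⟨γ, fun v => ?_⟩
  have h : G y γ v = conj (ℓ v) := hγ v
  rw [hG.conj_symm y hy γ v, h, Complex.conj_conj]

theorem dualVec_spec {η : E → E →L[ℝ] ℂ} (hη : LocalForm U η) {y : E} (hy : y ∈ U) (v : E) :
    G y v (dualVec (fun y v w => G y v w) (fun y v => η y v) y) = η y v := by
  have hex := exists_dual hG hy (η y) (fun c v => hη.smul y hy c v)
  exact Classical.epsilon_spec hex v

theorem contDiffOn_dualVec {η : E → E →L[ℝ] ℂ} (hη : LocalForm U η) :
    ContDiffOn ℝ ∞ (dualVec (fun y v w => G y v w) (fun y v => η y v)) U := by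
  classical
  let b := Module.finBasis ℂ E
  -- the real linear map `v ↦ (G y v (b j))_j`
  let T : E → E →L[ℝ] (Fin (finrank ℂ E) → ℂ) := fun y =>
    ContinuousLinearMap.pi fun j => (G y).flip (b j)
  have hT : ContDiffOn ℝ ∞ T U := by
    rw [contDiffOn_clm_apply]
    intro v
    rw [contDiffOn_pi]
    intro j
    exact (hG.smooth.clm_apply contDiffOn_const).clm_apply contDiffOn_const
  intro y hy
  have hnU := hG.isOpen.mem_nhds hy
  apply ContDiffAt.contDiffWithinAt
  -- `T z` is injective hence invertible for `z ∈ U`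
  have hinj : ∀ z ∈ U, Function.Injective (T z) := by
    intro z hz
    rw [injective_iff_map_eq_zero]
    intro v hv
    by_contra hne
    have h1 := hG.pos z hz v hne
    have h2 : G z v v = 0 := by
      have h3 : ∀ j, G z v (b j) = 0 := fun j => congrFun hv j
      have h4 : G z v (∑ j, b.repr v j • b j) = 0 := by
        rw [map_sum]
        apply Finset.sum_eq_zero
        intro j _
        rw [hG.smul_right hz, h3, mul_zero]
      rwa [b.sum_repr] at h4
    rw [h2] at h1
    simp at h1
  have hfin : finrank ℝ E = finrank ℝ (Fin (finrank ℂ E) → ℂ) := by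
    rw [finrank_pi_fintype, finrank_real_of_complex]
    simp [mul_comm]
  have hequiv : ∀ z ∈ U, ∃ e : E ≃L[ℝ] (Fin (finrank ℂ E) → ℂ), (e : E →L[ℝ] _) = T z := by
    intro z hz
    let e₀ : E ≃ₗ[ℝ] (Fin (finrank ℂ E) → ℂ) :=
      LinearEquiv.ofInjectiveOfFinrankEq (T z : E →ₗ[ℝ] (Fin (finrank ℂ E) → ℂ)) (hinj z hz) hfin
    refine ⟨e₀.toContinuousLinearEquiv, ?_⟩
    ext v
    rfl
  have hcomplete : CompleteSpace E := FiniteDimensional.complete ℝ E
  obtain ⟨e, he⟩ := hequiv y hy
  have hinv : ContDiffAt ℝ ∞ (fun z => ContinuousLinearMap.inverse (T z)) y := by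
    have h1 : ContDiffAt ℝ ∞ ContinuousLinearMap.inverse (T y) := by
      rw [← he]
      exact contDiffAt_map_inverse e
    exact h1.comp y (hT.contDiffAt hnU)
  have hrhs : ContDiffAt ℝ ∞ (fun z => (fun j => conj (η z (b j)) :
      Fin (finrank ℂ E) → ℂ)) y := by
    rw [contDiffAt_pi]
    intro j
    have : ContDiffAt ℝ ∞ (fun z => η z (b j)) y :=
      (hη.smooth.clm_apply contDiffOn_const).contDiffAt hnU
    exact (Complex.conjCLE : ℂ →L[ℝ] ℂ).contDiff.contDiffAt.comp y this
  refine (hinv.clm_apply hrhs).congr_of_eventuallyEq ?_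
  filter_upwards [hnU] with z hz
  obtain ⟨e', he'⟩ := hequiv z hz
  rw [← he', ContinuousLinearMap.inverse_equiv]
  symm
  apply e'.symm_apply_eq.2
  have : (e' : E →L[ℝ] _) (dualVec (fun y v w => G y v w) (fun y v => η y v) z)
      = T z (dualVec (fun y v w => G y v w) (fun y v => η y v) z) := by rw [he']
  funext j
  have h5 := congrFun this j
  change _ = e' _ j
  have h6 : e' (dualVec (fun y v w => G y v w) (fun y v => η y v) z) j
    = T z (dualVec (fun y v w => G y v w) (fun y v => η y v) z) j := h5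
  rw [h6]
  change conj (η z (b j)) = G z (dualVec (fun y v w => G y v w) (fun y v => η y v) z) (b j)
  rw [hG.conj_symm z hz (b j), dualVec_spec hG hη hz]

end dual

section det

variable {ι : Type*} [Fintype ι] [DecidableEq ι]

/-- derivative of the determinant -/
theorem dz_det {A : E → Matrix ι ι ℂ} {y : E}
    (hA : ∀ i j, DifferentiableAt ℝ (fun y => A y i j) y) (u : E) :
    dz (fun y => (A y).det) y u
      = ∑ i, ((A y).updateRow i (fun j => dz (fun y => A y i j) y u)).det := by
  let D : ContinuousMultilinearMap ℂ (fun _ : ι => (ι → ℂ)) ℂ :=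
    ⟨(Matrix.detRowAlternating (n := ι) (R := ℂ)).toMultilinearMap, by
      change Continuous fun M : ι → ι → ℂ => Matrix.det (Matrix.of M)
      exact Continuous.matrix_det (by fun_prop)⟩
  have hD : ∀ M : Matrix ι ι ℂ, D M = M.det := fun M => rfl
  have h1 : HasFDerivAt (fun M : ι → ι → ℂ => D M) ((D.linearDeriv (A y)).restrictScalars ℝ)
      (A y) := (D.hasFDerivAt (A y)).restrictScalars ℝ
  let A' : E →L[ℝ] (ι → ι → ℂ) :=
    ContinuousLinearMap.pi fun i => ContinuousLinearMap.pi fun j => fderiv ℝ (fun y => A y i j) y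
  have h2 : HasFDerivAt (fun y => (fun i j => A y i j : ι → ι → ℂ)) A' y :=
    hasFDerivAt_pi.2 fun i => hasFDerivAt_pi.2 fun j => (hA i j).hasFDerivAt
  have h3 : HasFDerivAt (fun y => (A y).det) _ y := h1.comp y h2
  rw [dz_of_hasFDerivAt h3]
  have h4 : ∀ v, ((D.linearDeriv (A y)).restrictScalars ℝ).comp A' v = D.linearDeriv (A y) (A' v) :=
    fun v => rfl
  rw [h4, h4, smul_eq_mul, smul_eq_mul, ← smul_eq_mul Complex.I, ← map_smul, ← map_sub,
    ← smul_eq_mul, ← map_smul, ContinuousMultilinearMap.linearDeriv_apply]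
  refine Finset.sum_congr rfl fun i _ => ?_
  rw [hD]
  rfl

end det

section density

variable {U : Set E} {G : E → E →L[ℝ] E →L[ℝ] ℂ} (hG : LocalKahler U G)

/-- the Gram matrix of the Hermitian form `G y` in the basis `b` -/
noncomputable def gram {ι : Type*} (b : Basis ι ℂ E) (G : E → E →L[ℝ] E →L[ℝ] ℂ) (y : E) :
    Matrix ι ι ℂ := Matrix.of fun i j => G y (b i) (b j)

variable {ι : Type*} [Fintype ι] [DecidableEq ι] (b : Basis ι ℂ E)

include hG

omit [FiniteDimensional ℂ E] [DecidableEq ι] in
theorem form_expand {y : E} (hy : y ∈ U) (v w : E) :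
    G y v w = ∑ i, ∑ j, b.repr v i * (G y (b i) (b j) * conj (b.repr w j)) := by
  conv_lhs => rw [← b.sum_repr v, ← b.sum_repr w]
  rw [map_sum (G y), sum_apply]
  refine Finset.sum_congr rfl fun i _ => ?_
  rw [map_sum]
  refine Finset.sum_congr rfl fun j _ => ?_
  rw [hG.smul_left y hy, hG.smul_right hy]
  ring

omit [FiniteDimensional ℂ E] in
theorem gram_det_pos {y : E} (hy : y ∈ U) : 0 < (gram b G y).det := by
  apply Matrix.PosDef.det_pos
  apply Matrix.PosDef.of_dotProduct_mulVec_pos
  · ext i j
    simp only [gram, Matrix.conjTranspose_apply, Matrix.of_apply]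
    exact (hG.conj_symm y hy (b j) (b i)).symm
  · intro x hx
    set v : E := ∑ i, conj (x i) • b i with hv
    have hv0 : v ≠ 0 := by
      intro h0
      apply hx
      funext i
      have := congrArg (fun w => b.repr w i) h0
      simp only [hv, b.repr_sum_self, map_zero] at this
      simpa using this
    have h1 : star x ⬝ᵥ (gram b G y).mulVec x = G y v v := by
      rw [form_expand hG b hy v v, dotProduct]
      refine Finset.sum_congr rfl fun i _ => ?_
      rw [Matrix.mulVec, dotProduct, Finset.mul_sum]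
      refine Finset.sum_congr rfl fun j _ => ?_
      simp only [hv, b.repr_sum_self, gram, Matrix.of_apply, Complex.conj_conj, Pi.star_apply]
      rfl
    rw [h1, Complex.lt_def]
    exact ⟨by simpa using hG.pos y hy v hv0, by simpa using (hG.im_self hy v).symm⟩

omit [FiniteDimensional ℂ E] in
theorem gram_det_ofReal {y : E} (hy : y ∈ U) :
    ((gram b G y).det.re : ℂ) = (gram b G y).det := by
  have h := gram_det_pos hG b hy
  rw [Complex.lt_def] at h
  apply Complex.ext
  · simp
  · simpa using h.2

omit [FiniteDimensional ℂ E] in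
theorem contDiffOn_gram_det : ContDiffOn ℝ ∞ (fun y => (gram b G y).det) U := by
  simp only [Matrix.det_apply]
  apply ContDiffOn.sum
  intro σ _
  apply ContDiffOn.const_smul
  apply contDiffOn_prod
  intro i _
  exact (hG.smooth.clm_apply contDiffOn_const).clm_apply contDiffOn_const

/-- **Jacobi's formula** for the volume density:
`∂_u det(g) = det(g) ∑_j Γ(u, b_j)^j`. -/
theorem dz_gram_det {y : E} (hy : y ∈ U) (u : E) :
    dz (fun y => (gram b G y).det) y u
      = (∑ j, b.repr (christoffel (fun y v w => G y v w) y u (b j)) j) * (gram b G y).det := by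
  have hA : ∀ i j, DifferentiableAt ℝ (fun y => gram b G y i j) y := fun i j =>
    ((hG.diff hy).clm_apply (differentiableAt_const _)).clm_apply (differentiableAt_const _)
  rw [dz_det hA, Finset.sum_mul]
  refine Finset.sum_congr rfl fun i _ => ?_
  have hrow : (fun j => dz (fun y => gram b G y i j) y u)
      = ∑ k, (b.repr (christoffel (fun y v w => G y v w) y u (b i)) k) • (gram b G y) k := by
    funext j
    have h1 : dz (fun y => gram b G y i j) y u = dz G y u (b i) (b j) :=
      dz_eval₂ (hG.diff hy) u (b i) (b j)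
    rw [h1, ← hG.christoffel_spec hy]
    conv_lhs => rw [← b.sum_repr (christoffel (fun y v w => G y v w) y u (b i))]
    rw [map_sum (G y), sum_apply, Finset.sum_apply]
    refine Finset.sum_congr rfl fun k _ => ?_
    rw [hG.smul_left y hy]
    rfl
  rw [hrow, Matrix.det_updateRow_sum, smul_eq_mul]

variable {η : E → E →L[ℝ] ℂ} (hη : LocalForm U η)
variable {ξ : E → E} (hξ : ContDiffOn ℝ ∞ ξ U) (hd : ∀ y ∈ U, ∀ v, G y v (ξ y) = η y v)

include hη hξ hd

/-- the dual vector field is divergence free -/
theorem dual_div_free {y : E} (hy : y ∈ U) :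
    ∑ j, dz (fun y => (gram b G y).det * b.repr (ξ y) j) y (b j) = 0 := by
  have hnU := hG.isOpen.mem_nhds hy
  have hdξ : DifferentiableAt ℝ ξ y := (hξ.contDiffAt hnU).differentiableAt (by simp)
  have hdρ : DifferentiableAt ℝ (fun y => (gram b G y).det) y :=
    ((contDiffOn_gram_det hG b).contDiffAt hnU).differentiableAt (by simp)
  let π : ι → E →L[ℂ] ℂ := fun j => LinearMap.toContinuousLinearMap (b.coord j)
  have hπ : ∀ j v, π j v = b.repr v j := fun j v => rfl
  have hdj : ∀ j, DifferentiableAt ℝ (fun y => b.repr (ξ y) j) y := fun j =>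
    ((π j).restrictScalars ℝ).differentiableAt.comp y hdξ
  have hdzj : ∀ j v, dz (fun y => b.repr (ξ y) j) y v = b.repr (dz ξ y v) j := by
    intro j v
    have h : HasFDerivAt (fun y => b.repr (ξ y) j) (((π j).restrictScalars ℝ).comp
        (fderiv ℝ ξ y)) y :=
      ((π j).restrictScalars ℝ).hasFDerivAt.comp y hdξ.hasFDerivAt
    have hv : ∀ v, (((π j).restrictScalars ℝ).comp (fderiv ℝ ξ y)) v = π j (fderiv ℝ ξ y v) :=
      fun v => rfl
    rw [dz_of_hasFDerivAt h, hv, hv, dz, ← hπ, ← (π j).map_smul, ← (π j).map_sub,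
      ← (π j).map_smul]
  have h1 : ∀ j, dz (fun y => (gram b G y).det * b.repr (ξ y) j) y (b j)
      = b.repr (ξ y) j • dz (fun y => (gram b G y).det) y (b j)
        - (gram b G y).det * b.repr (christoffel (fun y v w => G y v w) y (ξ y) (b j)) j := by
    intro j
    rw [dz_mul hdρ (hdj j), hdzj, hG.christoffel_symm hy, christoffel_dual hG hη hξ hd hy]
    simp only [map_neg, Finsupp.coe_neg, Pi.neg_apply, smul_eq_mul]
    ring
  simp only [h1]
  rw [Finset.sum_sub_distrib, ← Finset.mul_sum]
  have h2 : ∑ j, b.repr (ξ y) j • dz (fun y => (gram b G y).det) y (b j)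
      = dz (fun y => (gram b G y).det) y (ξ y) := by
    conv_rhs => rw [← b.sum_repr (ξ y)]
    have : ∀ s : Finset ι, dz (fun y => (gram b G y).det) y (∑ j ∈ s, b.repr (ξ y) j • b j)
        = ∑ j ∈ s, b.repr (ξ y) j • dz (fun y => (gram b G y).det) y (b j) := by
      intro s
      induction s using Finset.induction_on with
      | empty => simp [dz]
      | insert a s ha ih => rw [Finset.sum_insert ha, Finset.sum_insert ha, dz_add_dir,
          dz_smul_dir, ih]
    rw [this]
  rw [h2, dz_gram_det hG b hy]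
  ring

end density

end Pool.Agent.Lib.MP_733696_ag
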