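import Pool.Agent.Lib.MP_733696_ag.Torus

/-!
# Fibres of holomorphic maps to complex tori
-/

open scoped Manifold ContDiff Topology ComplexConjugate
open Module Set Filter

namespace Pool.Agent.Lib.MP_733696_ag

variable {E : Type*} [NormedAddCommGroup E] [NormedSpace ℂ E] [FiniteDimensional ℂ E]
variable {X : Type*} [TopologicalSpace X] [ChartedSpace E X] [IsManifold 𝓘(ℂ, E) ω X]
variable {F : Type*} [NormedAddCommGroup F] [NormedSpace ℂ F] [FiniteDimensional ℂ F]
variable {Z : Type*} [TopologicalSpace Z] [ChartedSpace F Z] [IsManifold 𝓘(ℂ, F) ω Z]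

section cover

variable {h : ∀ x : X, TangentSpace 𝓘(ℂ, E) x → TangentSpace 𝓘(ℂ, E) x → ℂ}

/-- semi-positivity of the induced metric from a tangency condition in charts -/
theorem semiPositive_pull (hh : IsKahlerMetric h) (hs : SemiPositiveHSC h) {f : Z → X}
    (hf : IsHolImmersion (E := E) (F := F) f)
    (ht : ∀ (e : OpenPartialHomeomorph Z F) (c : OpenPartialHomeomorph X E), e ∈ atlas F Z →
      c ∈ atlas E X → ∀ y ∈ chartDom f e c, ∀ v : F, ∃ t : F,
        christoffel (localForm h c) (chartMap f e c y) (fderiv ℂ (chartMap f e c) y v)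
          (fderiv ℂ (chartMap f e c) y v) + fderiv ℂ (fderiv ℂ (chartMap f e c)) y v v
          = fderiv ℂ (chartMap f e c) y t) :
    SemiPositiveHSC (pullForm (F := F) f h) := by
  intro z v hv
  set e := chartAt F z with hedef
  set c := chartAt E (f z) with hcdef
  have he : e ∈ atlas F Z := chart_mem_atlas F z
  have hc : c ∈ atlas E X := chart_mem_atlas E (f z)
  have hz : e.symm (e z) = z := e.left_inv (mem_chart_source F z)
  have hyV : e z ∈ chartDom f e c := by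
    refine ⟨mem_chart_target F z, ?_⟩
    change f (e.symm (e z)) ∈ c.source
    rw [hz]
    exact mem_chart_source E (f z)
  have hP := localPull hh hf he hc
  have hK := hh.localKahler hc
  have hcurv := hP.curvature_pull hK hyV
    (mfderiv 𝓘(ℂ, F) 𝓘(ℂ, F) e z v : F) (ht e c he hc (e z) hyV _)
  have h1 : 0 ≤ (curvatureTensor (localForm (pullForm (F := F) f h) e) (e z)
      (mfderiv 𝓘(ℂ, F) 𝓘(ℂ, F) e z v : F) (mfderiv 𝓘(ℂ, F) 𝓘(ℂ, F) e z v : F)
      (mfderiv 𝓘(ℂ, F) 𝓘(ℂ, F) e z v : F) (mfderiv 𝓘(ℂ, F) 𝓘(ℂ, F) e z v : F)).re := by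
    have h2 : curvatureTensor (localForm (pullForm (F := F) f h) e) (e z)
      (mfderiv 𝓘(ℂ, F) 𝓘(ℂ, F) e z v : F) (mfderiv 𝓘(ℂ, F) 𝓘(ℂ, F) e z v : F)
      (mfderiv 𝓘(ℂ, F) 𝓘(ℂ, F) e z v : F) (mfderiv 𝓘(ℂ, F) 𝓘(ℂ, F) e z v : F) = _ := hcurv
    rw [h2]
    exact SemiPositiveHSC.in_chart hh hs hc (hP.maps _ hyV) _
  exact div_nonneg h1 (sq_nonneg _)

variable {X' : Type*} [TopologicalSpace X'] [ChartedSpace E X'] [IsManifold 𝓘(ℂ, E) ω X']

/-- the pull back of a semi-positively curved metric by a local biholomorphism is semi-positively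
curved -/
theorem semiPositive_etale (hh : IsKahlerMetric h) (hs : SemiPositiveHSC h) {π : X' → X}
    (hπ : IsHolImmersion (E := E) (F := E) π) : SemiPositiveHSC (pullForm (F := E) π h) := by
  apply semiPositive_pull hh hs hπ
  intro e c he hc y hy v
  have hP := localPull hh hπ he hc
  have hsurj : Function.Surjective (fderiv ℂ (chartMap π e c) y) :=
    LinearMap.injective_iff_surjective.1 (hP.inj y hy)
  obtain ⟨t, ht⟩ := hsurj (christoffel (localForm h c) (chartMap π e c y)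
    (fderiv ℂ (chartMap π e c) y v) (fderiv ℂ (chartMap π e c) y v)
      + fderiv ℂ (fderiv ℂ (chartMap π e c)) y v v)
  exact ⟨t, ht.symm⟩

end cover

section fibre

variable {V : Type*} [NormedAddCommGroup V] [NormedSpace ℂ V] [FiniteDimensional ℂ V]
variable {Λ : AddSubgroup V} [DiscreteTopology Λ]
variable {α : X → V ⧸ Λ} (hα : IsHolomorphicToTorus (E := E) Λ α)
variable {a : V ⧸ Λ} {f : Z → X} (hf : IsHolImmersion (E := E) (F := F) f)

omit [FiniteDimensional ℂ E] [FiniteDimensional ℂ F] [FiniteDimensional ℂ V]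
  [IsManifold 𝓘(ℂ, E) ω X] [IsManifold 𝓘(ℂ, F) ω Z] in
include hf in
/-- tangent vectors of a fibre are killed by the differential of `α` -/
theorem dTorus_tangent (ha : ∀ z, α (f z) = a) (z : Z) (v : F) :
    dTorus hα (f z) (mfderiv 𝓘(ℂ, F) 𝓘(ℂ, E) f z v : E) = 0 := by
  obtain ⟨hg, hgα⟩ := Classical.choose_spec (hα (f z))
  set g := Classical.choose (hα (f z)) with hgdef
  have hgd : MDifferentiableAt 𝓘(ℂ, E) 𝓘(ℂ, V) g (f z) := hg.mdifferentiableAt (by simp)
  have hfd : MDifferentiableAt 𝓘(ℂ, F) 𝓘(ℂ, E) f z :=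
    hf.holo.contMDiffAt.mdifferentiableAt (by simp)
  have hcf : ContinuousAt f z := hf.holo.continuous.continuousAt
  have h1 : ∀ᶠ s in 𝓝 z, ((g ∘ f) s : V ⧸ Λ) = ((fun _ : Z => g (f z)) s : V ⧸ Λ) := by
    filter_upwards [hcf.eventually hgα] with s hs
    simp only [Function.comp]
    rw [← hs, ha s, ← ha z]
    exact hgα.self_of_nhds
  have h2 := eventually_const_of_quot (ContinuousAt.comp (g := g) hg.continuousAt hcf)
    continuousAt_const h1
  have h3 : (g ∘ f) =ᶠ[𝓝 z] fun _ => g (f z) := by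
    filter_upwards [h2] with s hs
    have : (g ∘ f) s - g (f z) = 0 := by
      rw [hs]; simp
    exact sub_eq_zero.1 this
  have h4 := (hgd.hasMFDerivAt.comp z hfd.hasMFDerivAt).mfderiv
  have h5 : mfderiv 𝓘(ℂ, F) 𝓘(ℂ, V) (g ∘ f) z
      = (mfderiv 𝓘(ℂ, F) 𝓘(ℂ, V) (fun _ : Z => g (f z)) z : _) := h3.mfderiv_eq
  rw [h4, mfderiv_const] at h5
  exact congrArg (fun L => L v) h5

omit [FiniteDimensional ℂ E] [FiniteDimensional ℂ F] [FiniteDimensional ℂ V] in
include hf in
theorem dTorus_tangent_chart (ha : ∀ z, α (f z) = a) {e : OpenPartialHomeomorph Z F}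
    {c : OpenPartialHomeomorph X E} (he : e ∈ atlas F Z) (hc : c ∈ atlas E X) {y : F}
    (hy : y ∈ chartDom f e c) (v : F) (ℓ : V →L[ℂ] ℂ) :
    etaLoc (etaT hα ℓ) c (chartMap f e c y) (fderiv ℂ (chartMap f e c) y v) = 0 := by
  have h1 := mfderiv_chain hf.holo he hc hy v
  have h2 : c.symm (chartMap f e c y) = f (e.symm y) := c.left_inv hy.2
  have h3 := dTorus_tangent hα hf ha (e.symm y)
    (mfderiv 𝓘(ℂ, F) 𝓘(ℂ, F) e.symm y v : F)
  have key : ∀ (x x' : X), x = x' → ∀ u u' : E, u = u' →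
      ℓ (dTorus hα x u) = ℓ (dTorus hα x' u') := by
    rintro x _ rfl u _ rfl; rfl
  have h4 := key _ _ h2 _ _ h1.symm
  change ℓ (dTorus hα (c.symm (chartMap f e c y)) (mfderiv 𝓘(ℂ, E) 𝓘(ℂ, E) c.symm
    (chartMap f e c y) (fderiv ℂ (chartMap f e c) y v) : E)) = 0
  rw [h4]
  rw [h3, map_zero]

variable {h : ∀ x : X, TangentSpace 𝓘(ℂ, E) x → TangentSpace 𝓘(ℂ, E) x → ℂ}
  (hh : IsKahlerMetric h) (hs : SemiPositiveHSC h) [T2Space X] [CompactSpace X]

include hh hs hf in
/-- the tangent space of a fibre is the whole kernel of the differential of `α` -/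
theorem kernel_tangent (hemb : Topology.IsEmbedding f) (hrange : range f = α ⁻¹' {a})
    {e : OpenPartialHomeomorph Z F}
    {c : OpenPartialHomeomorph X E} (he : e ∈ atlas F Z) (hc : c ∈ atlas E X) {y : F}
    (hy : y ∈ chartDom f e c) {w : E}
    (hw : ∀ ℓ : V →L[ℂ] ℂ, etaLoc (etaT hα ℓ) c (chartMap f e c y) w = 0) :
    ∃ t : F, fderiv ℂ (chartMap f e c) y t = w := by
  classical
  have hP := localPull hh hf he hc
  set p₀ := chartMap f e c y with hp₀
  have hp₀t : p₀ ∈ c.target := hP.maps y hy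
  have hx₀ : c.symm p₀ = f (e.symm y) := c.left_inv hy.2
  obtain ⟨g, hg, hgα⟩ := hα (c.symm p₀)
  let gh : E → V := fun p => g (c.symm p)
  -- `gh` is holomorphic near `p₀`
  have hcs : ContMDiffAt 𝓘(ℂ, E) 𝓘(ℂ, E) ω c.symm p₀ :=
    (contMDiffOn_symm_of_mem_maximalAtlas (IsManifold.subset_maximalAtlas hc)).contMDiffAt
      (c.open_target.mem_nhds hp₀t)
  have hgh : ContDiffAt ℂ ω gh p₀ := by
    have : ContMDiffAt 𝓘(ℂ, E) 𝓘(ℂ, V) ω (g ∘ c.symm) p₀ := hg.comp p₀ hcs
    rwa [contMDiffAt_iff_contDiffAt] at this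
  have hcc : ContinuousAt c.symm p₀ := c.continuousAt_symm hp₀t
  have : IsManifold 𝓘(ℂ, E) 1 X := IsManifold.of_le (n := ω) le_top
  -- relation between `gh` and the local forms
  have hrel : ∀ᶠ p in 𝓝 p₀, ∀ (ℓ : V →L[ℂ] ℂ) (v : E),
      etaLoc (etaT hα ℓ) c p v = ℓ (fderiv ℂ gh p v) := by
    have h1 : ∀ᶠ x in 𝓝 (c.symm p₀), ContMDiffAt 𝓘(ℂ, E) 𝓘(ℂ, V) 1 g x :=
      (contMDiffAt_iff_contMDiffAt_nhds (by simp)).1
        (hg.of_le le_top : ContMDiffAt 𝓘(ℂ, E) 𝓘(ℂ, V) 1 g (c.symm p₀))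
    filter_upwards [hcc.eventually (dTorus_eq hα hg hgα), c.open_target.mem_nhds hp₀t,
      hcc.eventually h1] with p hp1 hp2 hp3 ℓ v
    have h5 : MDifferentiableAt 𝓘(ℂ, E) 𝓘(ℂ, E) c.symm p := mdifferentiableAt_atlas_symm hc hp2
    have h6 : MDifferentiableAt 𝓘(ℂ, E) 𝓘(ℂ, V) g (c.symm p) := hp3.mdifferentiableAt (by simp)
    have h7 := mfderiv_comp p h6 h5
    rw [mfderiv_eq_fderiv] at h7
    have h8 : (fderiv ℂ gh p v : V) = (mfderiv 𝓘(ℂ, E) 𝓘(ℂ, V) g (c.symm p)
        (mfderiv 𝓘(ℂ, E) 𝓘(ℂ, E) c.symm p v : E) : V) := congrArg (fun L => L v) h7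
    rw [h8, hp1]
    rfl
  have H : ∀ ℓ : V →L[ℂ] ℂ, (∀ v, ℓ (fderiv ℂ gh p₀ v) = 0) →
      ∀ᶠ p in 𝓝 p₀, ∀ v, ℓ (fderiv ℂ gh p v) = 0 := by
    intro ℓ hℓ
    have h1 : ∀ v, etaLoc (etaT hα ℓ) c p₀ v = 0 := fun v => by
      rw [hrel.self_of_nhds ℓ v]; exact hℓ v
    have h2 := etaLoc_zero_nhds hh (isClosedHolForm_etaT hα ℓ) hs hc hp₀t h1
    filter_upwards [h2, hrel] with p hp1 hp2 v
    rw [← hp2 ℓ v]; exact hp1 v
  have hw' : fderiv ℂ gh p₀ w = 0 := by
    by_contra hne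
    obtain ⟨ℓ, hℓ⟩ := SeparatingDual.exists_ne_zero (R := ℂ) hne
    exact hℓ (by rw [← hrel.self_of_nhds ℓ w]; exact hw ℓ)
  obtain ⟨κ, hκ0, hκd, hκg⟩ := exists_curve (hgh.of_le le_top) H hw'
  -- the curve lifts to the fibre
  have hκc : Tendsto κ (𝓝 0) (𝓝 p₀) := by
    have := hκd.continuousAt.tendsto
    rwa [hκ0] at this
  have hκx : Tendsto (fun t => c.symm (κ t)) (𝓝 0) (𝓝 (f (e.symm y))) := by
    rw [← hx₀]
    exact hcc.tendsto.comp hκc
  have hmemf : ∀ᶠ t in 𝓝 (0:ℂ), c.symm (κ t) ∈ range f := by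
    have h1 := (hcc.tendsto.comp hκc).eventually hgα
    filter_upwards [h1, hκg] with t ht1 ht2
    rw [hrange]
    change α (c.symm (κ t)) = a
    have ht1' : α (c.symm (κ t)) = (g (c.symm (κ t)) : V ⧸ Λ) := ht1
    have ht2' : g (c.symm (κ t)) = g (c.symm p₀) := ht2
    rw [ht1', ht2', ← hgα.self_of_nhds, hx₀]
    have : f (e.symm y) ∈ α ⁻¹' {a} := by rw [← hrange]; exact mem_range_self _
    exact this
  let ζ : ℂ → Z := fun t =>
    if ht : c.symm (κ t) ∈ range f then Classical.choose ht else e.symm y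
  have hζ : ∀ᶠ t in 𝓝 (0:ℂ), f (ζ t) = c.symm (κ t) := by
    filter_upwards [hmemf] with t ht
    simp only [ζ, dif_pos ht]
    exact Classical.choose_spec ht
  have hζt : Tendsto ζ (𝓝 0) (𝓝 (e.symm y)) := by
    rw [hemb.tendsto_nhds_iff]
    refine hκx.congr' ?_
    filter_upwards [hζ] with t ht
    exact ht.symm
  have hes : e.symm y ∈ e.source := e.map_target hy.1
  have hyt : Tendsto (fun t => e (ζ t)) (𝓝[≠] 0) (𝓝 y) := by
    have h1 : Tendsto e (𝓝 (e.symm y)) (𝓝 y) := by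
      have := (e.continuousAt hes).tendsto
      rwa [e.right_inv hy.1] at this
    exact (h1.comp hζt).mono_left nhdsWithin_le_nhds
  have hlift : ∀ᶠ t in 𝓝[≠] (0:ℂ), chartMap f e c (e (ζ t)) = κ t := by
    apply Filter.Eventually.filter_mono nhdsWithin_le_nhds
    filter_upwards [hζ, hζt.eventually (e.open_source.mem_nhds hes),
      hκc.eventually (c.open_target.mem_nhds hp₀t)] with t ht1 ht2 ht3
    simp only [chartMap]
    rw [e.left_inv ht2, ht1, c.right_inv ht3]
  exact mem_range_of_lift (hP.hasFDerivAt hy) (hP.inj y hy) hκd hκ0 hyt hlift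

include hα hh hs hf in
/-- **The fibres of `α` are totally geodesic**: the induced metric has semi-positive holomorphic
sectional curvature. -/
theorem semiPositive_fibre (hemb : Topology.IsEmbedding f) (hrange : range f = α ⁻¹' {a}) :
    SemiPositiveHSC (pullForm (F := F) f h) := by
  have ha : ∀ z, α (f z) = a := by
    intro z
    have : f z ∈ α ⁻¹' {a} := by rw [← hrange]; exact mem_range_self _
    exact this
  apply semiPositive_pull hh hs hf
  intro e c he hc y hy v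
  have hP := localPull hh hf he hc
  have hnV := hP.isOpen.mem_nhds hy
  have hU := hP.maps y hy
  obtain ⟨t, ht⟩ := kernel_tangent hα hf hh hs hemb hrange he hc hy
    (w := christoffel (localForm h c) (chartMap f e c y) (fderiv ℂ (chartMap f e c) y v)
          (fderiv ℂ (chartMap f e c) y v) + fderiv ℂ (fderiv ℂ (chartMap f e c)) y v v) (by
      intro ℓ
      have hη := isClosedHolForm_etaT hα ℓ
      have hL := hη.localForm (E := E) hc
      have hdη : DifferentiableAt ℝ (etaLoc (etaT hα ℓ) c) (chartMap f e c y) :=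
        (hL.smooth.contDiffAt (c.open_target.mem_nhds hU)).differentiableAt (by simp)
      have hdηc : DifferentiableAt ℝ (fun y => etaLoc (etaT hα ℓ) c (chartMap f e c y)) y :=
        hdη.comp y ((hP.hasFDerivAt hy).restrictScalars ℝ).differentiableAt
      have hda : DifferentiableAt ℝ (fun y => fderiv ℂ (chartMap f e c) y v) y :=
        ((hP.hasFDerivAt_second hy v).restrictScalars ℝ).differentiableAt
      have h0 : (fun y => etaLoc (etaT hα ℓ) c (chartMap f e c y)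
          (fderiv ℂ (chartMap f e c) y v)) =ᶠ[𝓝 y] fun _ => 0 := by
        filter_upwards [hnV] with z hz
        exact dTorus_tangent_chart hα hf ha he hc hz v ℓ
      have h1 := dz_form_apply hdηc hda (fun r u => hL.smul _ hU r u) v
      rw [dz_congr h0, dz_of_hasFDerivAt (hasFDerivAt_const (0:ℂ) y),
        dz_comp (hP.hasFDerivAt hy) hdη, dz_of_holo (hP.hasFDerivAt_second hy v),
        etaLoc_parallel hh hη hs hc hU] at h1
      rw [map_add]
      simp only [zero_apply, smul_zero, sub_zero] at h1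
      exact h1.symm)
  exact ⟨t, ht.symm⟩

end fibre

end Pool.Agent.Lib.MP_733696_ag
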