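import Pool.Agent.Lib.MP_733696_ag.ManifoldPull
import Pool.Agent.Lib.MP_733696_ag.ChartIntegral

/-!
# Closed holomorphic one-forms on a Kähler manifold and their dual vector field
-/

open scoped Manifold ContDiff Topology ComplexConjugate
open Module Set

namespace Pool.Agent.Lib.MP_733696_ag

variable {E : Type*} [NormedAddCommGroup E] [NormedSpace ℂ E]
variable {X : Type*} [TopologicalSpace X] [ChartedSpace E X]

/-- `η` is a closed holomorphic one-form: locally the differential of a holomorphic function. -/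
def IsClosedHolForm (η : ∀ x : X, TangentSpace 𝓘(ℂ, E) x →L[ℂ] ℂ) : Prop :=
  ∀ x : X, ∃ f : X → ℂ, ContMDiffAt 𝓘(ℂ, E) 𝓘(ℂ, ℂ) ω f x ∧
    ∀ᶠ x' in 𝓝 x, ∀ v : E, (η x' v : ℂ) = mfderiv 𝓘(ℂ, E) 𝓘(ℂ, ℂ) f x' v

/-- the expression of `η` in the chart `e` -/
noncomputable def etaLoc (η : ∀ x : X, TangentSpace 𝓘(ℂ, E) x →L[ℂ] ℂ)
    (e : OpenPartialHomeomorph X E) (y : E) : E →L[ℝ] ℂ :=
  ((η (e.symm y) : E →L[ℂ] ℂ).comp
    (mfderiv 𝓘(ℂ, E) 𝓘(ℂ, E) e.symm y : E →L[ℂ] E)).restrictScalars ℝ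

section

variable [IsManifold 𝓘(ℂ, E) ω X]

theorem etaLoc_eq {η : ∀ x : X, TangentSpace 𝓘(ℂ, E) x →L[ℂ] ℂ}
    {e : OpenPartialHomeomorph X E} (he : e ∈ atlas E X) {y₀ : E} (hy₀ : y₀ ∈ e.target)
    {f : X → ℂ} (hf : ContMDiffAt 𝓘(ℂ, E) 𝓘(ℂ, ℂ) ω f (e.symm y₀))
    (hfη : ∀ᶠ x' in 𝓝 (e.symm y₀), ∀ v : E, (η x' v : ℂ) = mfderiv 𝓘(ℂ, E) 𝓘(ℂ, ℂ) f x' v) :
    ContDiffAt ℂ ω (fun y => f (e.symm y)) y₀ ∧
    ∀ᶠ y in 𝓝 y₀, ∀ v, etaLoc η e y v = fderiv ℂ (fun y => f (e.symm y)) y v := by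
  have : IsManifold 𝓘(ℂ, E) 1 X := IsManifold.of_le (n := ω) le_top
  have h2 : ContMDiffAt 𝓘(ℂ, E) 𝓘(ℂ, E) ω e.symm y₀ :=
    (contMDiffOn_symm_of_mem_maximalAtlas (IsManifold.subset_maximalAtlas he)).contMDiffAt
      (e.open_target.mem_nhds hy₀)
  have h3 : ContMDiffAt 𝓘(ℂ, E) 𝓘(ℂ, ℂ) ω (f ∘ e.symm) y₀ := hf.comp y₀ h2
  have h4 : ContDiffAt ℂ ω (f ∘ e.symm) y₀ := by
    rwa [← contMDiffAt_iff_contDiffAt]
  refine ⟨h4, ?_⟩
  have hcont : ContinuousAt e.symm y₀ := e.continuousAt_symm hy₀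
  have hev : ∀ᶠ x' in 𝓝 (e.symm y₀), ContMDiffAt 𝓘(ℂ, E) 𝓘(ℂ, ℂ) 1 f x' :=
    (contMDiffAt_iff_contMDiffAt_nhds (by simp)).1
      (hf.of_le le_top : ContMDiffAt 𝓘(ℂ, E) 𝓘(ℂ, ℂ) 1 f (e.symm y₀))
  filter_upwards [hcont.eventually hfη, e.open_target.mem_nhds hy₀, hcont.eventually hev]
    with y hy1 hy2 hy3 v
  have h5 : MDifferentiableAt 𝓘(ℂ, E) 𝓘(ℂ, E) e.symm y := mdifferentiableAt_atlas_symm he hy2
  have h6 : MDifferentiableAt 𝓘(ℂ, E) 𝓘(ℂ, ℂ) f (e.symm y) := hy3.mdifferentiableAt (by simp)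
  have h7 := mfderiv_comp y h6 h5
  rw [mfderiv_eq_fderiv] at h7
  have h8 : etaLoc η e y v = (η (e.symm y) (mfderiv 𝓘(ℂ, E) 𝓘(ℂ, E) e.symm y v : E) : ℂ) := rfl
  rw [h8, hy1]
  exact (congrArg (fun L => L v) h7).symm

theorem IsClosedHolForm.localForm {η : ∀ x : X, TangentSpace 𝓘(ℂ, E) x →L[ℂ] ℂ}
    (hη : IsClosedHolForm η) [FiniteDimensional ℂ E]
    {e : OpenPartialHomeomorph X E} (he : e ∈ atlas E X) : LocalForm e.target (etaLoc η e) := by
  have hsm : ContDiffOn ℝ ∞ (etaLoc η e) e.target := by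
    rw [contDiffOn_clm_apply]
    intro v y₀ hy₀
    apply ContDiffAt.contDiffWithinAt
    obtain ⟨f, hf, hfη⟩ := hη (e.symm y₀)
    obtain ⟨h1, h2⟩ := etaLoc_eq he hy₀ hf hfη
    have h3 : ContDiffAt ℂ ∞ (fderiv ℂ (fun y => f (e.symm y))) y₀ :=
      (h1.of_le (le_top : (∞ : WithTop ℕ∞) ≤ ω)).fderiv_right (by simp)
    have h4 : ContDiffAt ℝ ∞ (fun y => fderiv ℂ (fun y => f (e.symm y)) y v) y₀ :=
      (h3.clm_apply contDiffAt_const).restrict_scalars ℝ
    refine h4.congr_of_eventuallyEq ?_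
    filter_upwards [h2] with y hy using hy v
  refine ⟨hsm, ?_, ?_, ?_⟩
  · intro y _ c v
    exact (((η (e.symm y) : E →L[ℂ] ℂ).comp
      (mfderiv 𝓘(ℂ, E) 𝓘(ℂ, E) e.symm y : E →L[ℂ] E))).map_smul c v
  · intro y hy u v
    obtain ⟨f, hf, hfη⟩ := hη (e.symm y)
    obtain ⟨h1, h2⟩ := etaLoc_eq he hy hf hfη
    have hd : DifferentiableAt ℝ (etaLoc η e) y :=
      (hsm.contDiffAt (e.open_target.mem_nhds hy)).differentiableAt (by simp)
    have h3 : ContDiffAt ℂ ∞ (fderiv ℂ (fun y => f (e.symm y))) y :=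
      (h1.of_le (le_top : (∞ : WithTop ℕ∞) ≤ ω)).fderiv_right (by simp)
    have h4 : HasFDerivAt (fun y => fderiv ℂ (fun y => f (e.symm y)) y v) _ y :=
      ((h3.clm_apply contDiffAt_const).differentiableAt (by simp)).hasFDerivAt
    rw [← dzbar_eval₁ hd]
    rw [← dzbar_of_holo h4 u]
    apply dzbar_congr
    filter_upwards [h2] with z hz using hz v
  · intro y hy u v
    obtain ⟨f, hf, hfη⟩ := hη (e.symm y)
    obtain ⟨h1, h2⟩ := etaLoc_eq he hy hf hfη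
    have hd : DifferentiableAt ℝ (etaLoc η e) y :=
      (hsm.contDiffAt (e.open_target.mem_nhds hy)).differentiableAt (by simp)
    have h3 : ContDiffAt ℂ ∞ (fderiv ℂ (fun y => f (e.symm y))) y :=
      (h1.of_le (le_top : (∞ : WithTop ℕ∞) ≤ ω)).fderiv_right (by simp)
    have h5 : HasFDerivAt (fderiv ℂ (fun y => f (e.symm y)))
        (fderiv ℂ (fderiv ℂ (fun y => f (e.symm y))) y) y :=
      (h3.differentiableAt (by simp)).hasFDerivAt
    have h4 : ∀ v, HasFDerivAt (fun y => fderiv ℂ (fun y => f (e.symm y)) y v)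
        ((fderiv ℂ (fderiv ℂ (fun y => f (e.symm y))) y).flip v) y := by
      intro v
      have := h5.clm_apply (hasFDerivAt_const v y)
      convert! this using 1
      ext w; simp
    have hs : IsSymmSndFDerivAt ℂ (fun y => f (e.symm y)) y :=
      (h1.of_le (le_top : (∞ : WithTop ℕ∞) ≤ ω)).isSymmSndFDerivAt (by
        simp only [minSmoothness_of_isRCLikeNormedField]
        exact ENat.LEInfty.out)
    have h6 : ∀ u v, dz (etaLoc η e) y u v
        = fderiv ℂ (fderiv ℂ (fun y => f (e.symm y))) y u v := by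
      intro u v
      rw [← dz_eval₁ hd]
      have h7 := dz_of_holo (h4 v) u
      rw [ContinuousLinearMap.flip_apply] at h7
      rw [← h7]
      apply dz_congr
      filter_upwards [h2] with z hz using hz v
    rw [h6, h6]
    exact hs.eq u v

end

section dual

variable [IsManifold 𝓘(ℂ, E) ω X] [FiniteDimensional ℂ E]
variable {h : ∀ x : X, TangentSpace 𝓘(ℂ, E) x → TangentSpace 𝓘(ℂ, E) x → ℂ}
  (hh : IsKahlerMetric h)
variable {η : ∀ x : X, TangentSpace 𝓘(ℂ, E) x →L[ℂ] ℂ} (hη : IsClosedHolForm η)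

/-- the dual vector field in the chart `e` -/
noncomputable def xiLoc (h : ∀ x : X, TangentSpace 𝓘(ℂ, E) x → TangentSpace 𝓘(ℂ, E) x → ℂ)
    (η : ∀ x : X, TangentSpace 𝓘(ℂ, E) x →L[ℂ] ℂ) (e : OpenPartialHomeomorph X E) : E → E :=
  dualVec (localForm h e) (fun y v => etaLoc η e y v)

include hh hη

theorem xiLoc_spec {e : OpenPartialHomeomorph X E} (he : e ∈ atlas E X) :
    ∀ y ∈ e.target, ∀ v, hh.isHermitian.clm e y v (xiLoc h η e y) = etaLoc η e y v :=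
  fun _ hy v => dualVec_spec (hh.localKahler he) (hη.localForm he) hy v

theorem contDiffOn_xiLoc {e : OpenPartialHomeomorph X E} (he : e ∈ atlas E X) :
    ContDiffOn ℝ ∞ (xiLoc h η e) e.target :=
  contDiffOn_dualVec (hh.localKahler he) (hη.localForm he)

theorem xiLoc_change {e c : OpenPartialHomeomorph X E} (he : e ∈ atlas E X)
    (hc : c ∈ atlas E X) {y : E} (hy : y ∈ chartDom (id : X → X) e c) :
    fderiv ℂ (chartMap (id : X → X) e c) y (xiLoc h η e y)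
      = xiLoc h η c (chartMap (id : X → X) e c y) := by
  have hP := localPull hh (isHolImmersion_id (E := E) (X := X)) he hc
  have hcy : chartMap (id : X → X) e c y ∈ c.target := hP.maps y hy
  have hsurj : Function.Surjective (fderiv ℂ (chartMap (id : X → X) e c) y) :=
    LinearMap.injective_iff_surjective.1 (hP.inj y hy)
  apply (hh.localKahler hc).eq_of_forall_right hcy
  intro z
  obtain ⟨w, rfl⟩ := hsurj z
  rw [xiLoc_spec hh hη hc _ hcy]
  have h1 := hP.rel y hy w (xiLoc h η e y)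
  rw [← h1]
  have h2 : (hh.isHermitian.pull (isHolImmersion_id (E := E) (X := X))).clm e y w
      (xiLoc h η e y) = hh.isHermitian.clm e y w (xiLoc h η e y) := by
    have : localForm (pullForm (F := E) (id : X → X) h) e = localForm h e := by rw [pullForm_id]
    exact congrFun (congrFun (congrFun this y) w) (xiLoc h η e y)
  rw [h2, xiLoc_spec hh hη he _ hy.1]
  -- now compare the two expressions of `η`
  have hchain := mfderiv_chain (f := (id : X → X)) contMDiff_id he hc hy w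
  rw [mfderiv_id] at hchain
  have h3 : (mfderiv 𝓘(ℂ, E) 𝓘(ℂ, E) e.symm y w : E) = (mfderiv 𝓘(ℂ, E) 𝓘(ℂ, E) c.symm
      (chartMap (id : X → X) e c y) (fderiv ℂ (chartMap (id : X → X) e c) y w) : E) := hchain
  have h4 : c.symm (chartMap (id : X → X) e c y) = e.symm y := c.left_inv hy.2
  have key : ∀ (x x' : X), x = x' → ∀ a b : E, a = b → (η x a : ℂ) = η x' b := by
    rintro x _ rfl a _ rfl; rfl
  exact key _ _ h4.symm _ _ h3

end dual

end Pool.Agent.Lib.MP_733696_ag
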