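import Pool.Agent.Lib.MP_733696_ag.Forms

/-!
# Integration over a compact Kähler manifold

The divergence theorem for the dual vector field of a closed holomorphic one-form, in the form
needed for the Bochner argument.
-/

open scoped Manifold ContDiff Topology ComplexConjugate ComplexOrder
open Module Set MeasureTheory

namespace Pool.Agent.Lib.MP_733696_ag

variable {E : Type*} [NormedAddCommGroup E] [NormedSpace ℂ E]
variable {X : Type*} [TopologicalSpace X] [ChartedSpace E X]

/-- smooth (in the real sense) complex valued functions on `X` -/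
def SmoothX (E : Type*) [NormedAddCommGroup E] [NormedSpace ℂ E] {X : Type*} [TopologicalSpace X]
    [ChartedSpace E X] (f : X → ℂ) : Prop :=
  ∀ e ∈ atlas E X, ContDiffOn ℝ ∞ (fun y => f (e.symm y)) e.target

/-- derivative of `f` along the `(1,0)` vector field dual to `η` -/
noncomputable def Dxi (h : ∀ x : X, TangentSpace 𝓘(ℂ, E) x → TangentSpace 𝓘(ℂ, E) x → ℂ)
    (η : ∀ x : X, TangentSpace 𝓘(ℂ, E) x →L[ℂ] ℂ) (f : X → ℂ) (x : X) : ℂ :=
  dz (fun y => f ((chartAt E x).symm y)) (chartAt E x x)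
    (xiLoc h η (chartAt E x) (chartAt E x x))

/-- derivative of `f` along the conjugate of the `(1,0)` vector field dual to `η` -/
noncomputable def Dxibar (h : ∀ x : X, TangentSpace 𝓘(ℂ, E) x → TangentSpace 𝓘(ℂ, E) x → ℂ)
    (η : ∀ x : X, TangentSpace 𝓘(ℂ, E) x →L[ℂ] ℂ) (f : X → ℂ) (x : X) : ℂ :=
  dzbar (fun y => f ((chartAt E x).symm y)) (chartAt E x x)
    (xiLoc h η (chartAt E x) (chartAt E x x))

section

variable [IsManifold 𝓘(ℂ, E) ω X] [FiniteDimensional ℂ E]
variable {h : ∀ x : X, TangentSpace 𝓘(ℂ, E) x → TangentSpace 𝓘(ℂ, E) x → ℂ}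
  (hh : IsKahlerMetric h)
variable {η : ∀ x : X, TangentSpace 𝓘(ℂ, E) x →L[ℂ] ℂ} (hη : IsClosedHolForm η)

include hh hη

theorem chart_aux {f : X → ℂ} (hf : SmoothX E f) {e : OpenPartialHomeomorph X E}
    (he : e ∈ atlas E X) {y : E} (hy : y ∈ e.target) :
    ∃ (F' : E →L[ℂ] E), HasFDerivAt (chartMap (id : X → X) e (chartAt E (e.symm y))) F' y ∧
      F' (xiLoc h η e y) = xiLoc h η (chartAt E (e.symm y)) (chartAt E (e.symm y) (e.symm y)) ∧
      DifferentiableAt ℝ (fun z => f ((chartAt E (e.symm y)).symm z))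
        (chartMap (id : X → X) e (chartAt E (e.symm y)) y) ∧
      (fun y' => f (e.symm y')) =ᶠ[𝓝 y] (fun y' => (fun z => f ((chartAt E (e.symm y)).symm z))
        (chartMap (id : X → X) e (chartAt E (e.symm y)) y')) := by
  set c := chartAt E (e.symm y) with hcdef
  have hc : c ∈ atlas E X := chart_mem_atlas E (e.symm y)
  have hyV : y ∈ chartDom (id : X → X) e c := ⟨hy, mem_chart_source E (e.symm y)⟩
  have hP := localPull hh (isHolImmersion_id (E := E) (X := X)) he hc
  refine ⟨fderiv ℂ (chartMap (id : X → X) e c) y, hP.hasFDerivAt hyV,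
    xiLoc_change hh hη he hc hyV, ?_, ?_⟩
  · exact ((hf c hc).contDiffAt (c.open_target.mem_nhds (hP.maps y hyV))).differentiableAt
      (by simp)
  · filter_upwards [hP.isOpen.mem_nhds hyV] with z hz
    have : c.symm (chartMap (id : X → X) e c z) = e.symm z := c.left_inv hz.2
    simp only [this]

theorem Dxi_chart {f : X → ℂ} (hf : SmoothX E f) {e : OpenPartialHomeomorph X E}
    (he : e ∈ atlas E X) {y : E} (hy : y ∈ e.target) :
    Dxi h η f (e.symm y) = dz (fun y => f (e.symm y)) y (xiLoc h η e y) := by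
  obtain ⟨F', h1, h2, h3, h4⟩ := chart_aux hh hη hf he hy
  rw [dz_congr h4, dz_comp h1 h3, h2]
  rfl

theorem Dxibar_chart {f : X → ℂ} (hf : SmoothX E f) {e : OpenPartialHomeomorph X E}
    (he : e ∈ atlas E X) {y : E} (hy : y ∈ e.target) :
    Dxibar h η f (e.symm y) = dzbar (fun y => f (e.symm y)) y (xiLoc h η e y) := by
  obtain ⟨F', h1, h2, h3, h4⟩ := chart_aux hh hη hf he hy
  rw [dzbar_congr h4, dzbar_comp h1 h3, h2]
  rfl

theorem smoothX_Dxi {f : X → ℂ} (hf : SmoothX E f) : SmoothX E (Dxi h η f) := by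
  intro e he
  have h1 := contDiffOn_dz_moving e.open_target (hf e he) (contDiffOn_xiLoc hh hη he)
  exact h1.congr fun y hy => Dxi_chart hh hη hf he hy

theorem smoothX_Dxibar {f : X → ℂ} (hf : SmoothX E f) : SmoothX E (Dxibar h η f) := by
  intro e he
  have h1 := contDiffOn_dzbar_moving e.open_target (hf e he) (contDiffOn_xiLoc hh hη he)
  exact h1.congr fun y hy => Dxibar_chart hh hη hf he hy

omit hh hη [IsManifold 𝓘(ℂ, E) ω X] [FiniteDimensional ℂ E] in
theorem SmoothX.mul {f g : X → ℂ} (hf : SmoothX E f) (hg : SmoothX E g) :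
    SmoothX E (fun x => f x * g x) := fun e he => (hf e he).mul (hg e he)

omit hh hη [IsManifold 𝓘(ℂ, E) ω X] [FiniteDimensional ℂ E] in
theorem SmoothX.diff_chartAt {f : X → ℂ} (hf : SmoothX E f) (x : X) :
    DifferentiableAt ℝ (fun y => f ((chartAt E x).symm y)) (chartAt E x x) :=
  ((hf _ (chart_mem_atlas E x)).contDiffAt ((chartAt E x).open_target.mem_nhds
    (mem_chart_target E x))).differentiableAt (by simp)

omit hh hη [IsManifold 𝓘(ℂ, E) ω X] [FiniteDimensional ℂ E] in
theorem Dxi_mul {f g : X → ℂ} (hf : SmoothX E f) (hg : SmoothX E g) (x : X) :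
    Dxi h η (fun x => f x * g x) x = Dxi h η f x * g x + f x * Dxi h η g x := by
  unfold Dxi
  rw [dz_mul (hf.diff_chartAt x) (hg.diff_chartAt x), (chartAt E x).left_inv (mem_chart_source E x)]

omit hh hη [IsManifold 𝓘(ℂ, E) ω X] [FiniteDimensional ℂ E] in
theorem Dxi_sum {ι : Type*} {s : Finset ι} {f : ι → X → ℂ} (hf : ∀ i, SmoothX E (f i)) (x : X) :
    Dxi h η (fun x => ∑ i ∈ s, f i x) x = ∑ i ∈ s, Dxi h η (f i) x := by
  unfold Dxi
  rw [dz_sum (fun i _ => (hf i).diff_chartAt x)]

omit hh hη [IsManifold 𝓘(ℂ, E) ω X] [FiniteDimensional ℂ E] in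
theorem Dxi_const (c : ℂ) (x : X) : Dxi h η (fun _ : X => c) x = 0 := by
  unfold Dxi
  rw [dz_of_hasFDerivAt (hasFDerivAt_const c _)]
  simp

end

section integral

variable [T2Space X] [CompactSpace X] [IsManifold 𝓘(ℂ, E) ω X] [FiniteDimensional ℂ E]
variable {h : ∀ x : X, TangentSpace 𝓘(ℂ, E) x → TangentSpace 𝓘(ℂ, E) x → ℂ}
  (hh : IsKahlerMetric h)
variable {η : ∀ x : X, TangentSpace 𝓘(ℂ, E) x →L[ℂ] ℂ} (hη : IsClosedHolForm η)
variable [MeasurableSpace E] [BorelSpace E] (μ : Measure E) [μ.IsAddHaarMeasure]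

/-- the Kähler volume density in the chart `e` -/
noncomputable def rhoE (hh : IsKahlerMetric h) (e : OpenPartialHomeomorph X E) (y : E) : ℂ :=
  (gram (Module.finBasis ℂ E) (hh.isHermitian.clm e) y).det

/-- integral of a function supported in the domain of the chart `e` -/
noncomputable def chartInt (hh : IsKahlerMetric h) (μ : Measure E)
    (e : OpenPartialHomeomorph X E) (ψ : X → ℂ) : ℂ :=
  ∫ y in e.target, rhoE hh e y * ψ (e.symm y) ∂μ

omit [T2Space X] [MeasurableSpace E] [BorelSpace E] [IsManifold 𝓘(ℂ, E) ω X]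
  [FiniteDimensional ℂ E] in
theorem isCompact_image_tsupport {e : OpenPartialHomeomorph X E} {ψ : X → ℂ}
    (hs : tsupport ψ ⊆ e.source) :
    IsCompact (e '' tsupport ψ) ∧ e '' tsupport ψ ⊆ e.target ∧
      ∀ y, y ∈ e.target → y ∉ e '' tsupport ψ → ψ (e.symm y) = 0 := by
  refine ⟨(isClosed_tsupport ψ).isCompact.image_of_continuousOn (e.continuousOn.mono hs), ?_, ?_⟩
  · rintro _ ⟨x, hx, rfl⟩
    exact e.map_source (hs hx)
  · intro y hy hyK
    by_contra hne
    apply hyK
    exact ⟨e.symm y, subset_tsupport _ hne, e.right_inv hy⟩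

include hη in
theorem chartInt_Dxi {e : OpenPartialHomeomorph X E} (he : e ∈ atlas E X) {ψ : X → ℂ}
    (hψ : SmoothX E ψ) (hs : tsupport ψ ⊆ e.source) :
    chartInt hh μ e (Dxi h η ψ) = 0 := by
  classical
  obtain ⟨hK, hKt, hK0⟩ := isCompact_image_tsupport hs
  set K := e '' tsupport ψ with hKdef
  let f : E → ℂ := e.target.indicator (fun y => ψ (e.symm y))
  have hfe : ∀ y ∈ e.target, f y = ψ (e.symm y) := fun y hy => indicator_of_mem hy _
  have hf : ContDiffOn ℝ ∞ f e.target := (hψ e he).congr hfe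
  have h0 : ∀ y, y ∉ K → f y = 0 := by
    intro y hy
    by_cases hyt : y ∈ e.target
    · rw [hfe y hyt]; exact hK0 y hyt hy
    · exact indicator_of_notMem hyt _
  have hint := integral_rho_dz μ (hh.localKahler he) (Module.finBasis ℂ E) (hη.localForm he)
    (contDiffOn_xiLoc hh hη he) (xiLoc_spec hh hη he) hK hKt hf h0
  rw [← hint]
  unfold chartInt
  have hz : ∀ y, y ∉ e.target → (gram (Module.finBasis ℂ E) (hh.isHermitian.clm e) y).det
      * dz f y (xiLoc h η e y) = 0 := by
    intro y hy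
    have hy' : y ∈ Kᶜ := fun hk => hy (hKt hk)
    have h1 : f =ᶠ[𝓝 y] fun _ => 0 := by
      filter_upwards [hK.isClosed.isOpen_compl.mem_nhds hy'] with z hz using h0 z hz
    rw [dz_congr h1, dz_of_hasFDerivAt (hasFDerivAt_const (0:ℂ) y)]
    simp
  rw [← setIntegral_eq_integral_of_forall_compl_eq_zero (s := e.target) hz]
  apply setIntegral_congr_fun e.open_target.measurableSet
  intro y hy
  simp only
  rw [Dxi_chart hh hη hψ he hy]
  have h1 : f =ᶠ[𝓝 y] fun y => ψ (e.symm y) := by
    filter_upwards [e.open_target.mem_nhds hy] with z hz using hfe z hz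
  rw [dz_congr h1]
  rfl

omit [T2Space X] [CompactSpace X] in
theorem chartInt_change {e c : OpenPartialHomeomorph X E} (he : e ∈ atlas E X)
    (hc : c ∈ atlas E X) {ψ : X → ℂ} (hs : ∀ x, ¬ (x ∈ e.source ∧ x ∈ c.source) → ψ x = 0) :
    chartInt hh μ e ψ = chartInt hh μ c ψ := by
  have hid := isHolImmersion_id (E := E) (X := X)
  have hP := localPull hh hid he hc
  have hK := hh.localKahler hc
  set S := chartDom (id : X → X) e c with hS
  set T := chartMap (id : X → X) e c with hT
  have himg : T '' S = chartDom (id : X → X) c e := by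
    ext z
    constructor
    · rintro ⟨y, hy, rfl⟩
      refine ⟨c.map_source hy.2, ?_⟩
      have : c.symm (T y) = e.symm y := c.left_inv hy.2
      change c.symm (T y) ∈ e.source
      rw [this]
      exact e.map_target hy.1
    · intro hz
      have hz2 : c.symm z ∈ e.source := hz.2
      refine ⟨e (c.symm z), ⟨e.map_source hz2, ?_⟩, ?_⟩
      · change e.symm (e (c.symm z)) ∈ c.source
        rw [e.left_inv hz2]
        exact c.map_target hz.1
      · change c (e.symm (e (c.symm z))) = z
        rw [e.left_inv hz2, c.right_inv hz.1]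
  have hinj : InjOn T S := by
    intro y hy y' hy' hyy'
    have h1 : c.symm (T y) = e.symm y := c.left_inv hy.2
    have h2 : c.symm (T y') = e.symm y' := c.left_inv hy'.2
    have h3 : e.symm y = e.symm y' := by rw [← h1, ← h2, hyy']
    rw [← e.right_inv hy.1, ← e.right_inv hy'.1, h3]
  have hrel : ∀ y ∈ S, ∀ v w, hh.isHermitian.clm e y v w
      = hh.isHermitian.clm c (T y) (fderiv ℂ T y v) (fderiv ℂ T y w) := by
    intro y hy v w
    have h1 := hP.rel y hy v w
    rw [← h1]
    have : localForm (pullForm (F := E) (id : X → X) h) e = localForm h e := by rw [pullForm_id]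
    exact (congrFun (congrFun (congrFun this y) v) w).symm
  have hmain := integral_change μ (Module.finBasis ℂ E) (S := S) hP.isOpen (T := T)
    (T' := fun y => fderiv ℂ T y) (fun y hy => hP.hasFDerivAt hy) hinj
    (G₁ := hh.isHermitian.clm e) (G₂ := hh.isHermitian.clm c)
    (fun y hy a v w => hK.smul_left _ (hP.maps y hy) a v w)
    (fun y hy a v w => hK.smul_right (hP.maps y hy) a v w) hrel (fun z => ψ (c.symm z))
  unfold chartInt
  have h1 : ∫ y in e.target, rhoE hh e y * ψ (e.symm y) ∂μ
      = ∫ y in S, rhoE hh e y * ψ (e.symm y) ∂μ := by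
    apply setIntegral_eq_of_subset_of_forall_sdiff_eq_zero e.open_target.measurableSet
      inter_subset_left
    intro y hy
    rw [hs, mul_zero]
    intro hcon
    exact hy.2 ⟨hy.1, hcon.2⟩
  have h2 : ∫ y in c.target, rhoE hh c y * ψ (c.symm y) ∂μ
      = ∫ y in T '' S, rhoE hh c y * ψ (c.symm y) ∂μ := by
    rw [himg]
    apply setIntegral_eq_of_subset_of_forall_sdiff_eq_zero c.open_target.measurableSet
      inter_subset_left
    intro y hy
    rw [hs, mul_zero]
    intro hcon
    exact hy.2 ⟨hy.1, hcon.1⟩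
  rw [h1, h2]
  refine Eq.trans ?_ hmain.symm
  apply setIntegral_congr_fun hP.isOpen.measurableSet
  intro y hy
  have : c.symm (T y) = e.symm y := c.left_inv hy.2
  simp only [this]
  rfl

omit [T2Space X] [MeasurableSpace E] [BorelSpace E] in
/-- extension by zero of `ρ ψ` -/
theorem exists_extension {e : OpenPartialHomeomorph X E} (he : e ∈ atlas E X) {ψ : X → ℂ}
    (hψ : SmoothX E ψ) (hs : tsupport ψ ⊆ e.source) :
    ContDiff ℝ ∞ (e.target.indicator fun y => rhoE hh e y * ψ (e.symm y)) ∧
      HasCompactSupport (e.target.indicator fun y => rhoE hh e y * ψ (e.symm y)) := by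
  obtain ⟨hK, hKt, hK0⟩ := isCompact_image_tsupport hs
  have h0 : ∀ y, y ∉ e '' tsupport ψ →
      (e.target.indicator fun y => rhoE hh e y * ψ (e.symm y)) y = 0 := by
    intro y hy
    by_cases hyt : y ∈ e.target
    · rw [indicator_of_mem hyt, hK0 y hyt hy, mul_zero]
    · exact indicator_of_notMem hyt _
  refine ⟨?_, HasCompactSupport.intro hK h0⟩
  apply contDiff_of_support e.open_target hK hKt _ h0
  have h1 : ContDiffOn ℝ ∞ (rhoE hh e) e.target :=
    contDiffOn_gram_det (hh.localKahler he) (Module.finBasis ℂ E)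
  exact (h1.mul (hψ e he)).congr fun y hy => indicator_of_mem hy _

omit [T2Space X] in
theorem chartInt_integrable {e : OpenPartialHomeomorph X E} (he : e ∈ atlas E X) {ψ : X → ℂ}
    (hψ : SmoothX E ψ) (hs : tsupport ψ ⊆ e.source) :
    IntegrableOn (fun y => rhoE hh e y * ψ (e.symm y)) e.target μ := by
  obtain ⟨h1, h2⟩ := exists_extension hh he hψ hs
  rw [← integrable_indicator_iff e.open_target.measurableSet]
  exact h1.continuous.integrable_of_hasCompactSupport h2

omit [T2Space X] in
theorem chartInt_eq_zero {e : OpenPartialHomeomorph X E} (he : e ∈ atlas E X) {ψ : X → ℂ}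
    (hψ : SmoothX E ψ) (hs : tsupport ψ ⊆ e.source) (hnn : ∀ x, 0 ≤ (ψ x).re) :
    0 ≤ (chartInt hh μ e ψ).re ∧
      ((chartInt hh μ e ψ).re = 0 → ∀ x ∈ e.source, (ψ x).re = 0) := by
  obtain ⟨h1, h2⟩ := exists_extension hh he hψ hs
  set g := e.target.indicator fun y => rhoE hh e y * ψ (e.symm y) with hg
  have hgre : ∀ y ∈ e.target, (g y).re = (rhoE hh e y).re * (ψ (e.symm y)).re := by
    intro y hy
    rw [hg, indicator_of_mem hy]
    have h3 := gram_det_ofReal (hh.localKahler he) (Module.finBasis ℂ E) hy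
    change ((rhoE hh e y).re : ℂ) = rhoE hh e y at h3
    rw [← h3, Complex.re_ofReal_mul, Complex.ofReal_re]
  have hρ : ∀ y ∈ e.target, 0 < (rhoE hh e y).re := by
    intro y hy
    have h3 := gram_det_pos (hh.localKahler he) (Module.finBasis ℂ E) hy
    exact (Complex.lt_def.1 h3).1
  have hgnn : ∀ y, 0 ≤ (g y).re := by
    intro y
    by_cases hy : y ∈ e.target
    · rw [hgre y hy]; exact mul_nonneg (hρ y hy).le (hnn _)
    · rw [hg, indicator_of_notMem hy]; simp
  have hint : Integrable g μ := h1.continuous.integrable_of_hasCompactSupport h2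
  have heq : (chartInt hh μ e ψ).re = ∫ y, (g y).re ∂μ := by
    unfold chartInt
    rw [← integral_indicator e.open_target.measurableSet]
    have := integral_re hint
    simpa using this.symm
  refine ⟨?_, ?_⟩
  · rw [heq]; exact integral_nonneg hgnn
  · intro hzero x hx
    by_contra hne
    have hxt := e.map_source hx
    have hgx : (g (e x)).re ≠ 0 := by
      rw [hgre _ hxt, e.left_inv hx]
      exact mul_ne_zero (hρ _ hxt).ne' hne
    have hc : Continuous fun y => (g y).re := Complex.continuous_re.comp h1.continuous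
    have hcs : HasCompactSupport fun y => (g y).re := h2.comp_left (g := Complex.re) rfl
    have hpos := hc.integral_pos_of_hasCompactSupport_nonneg_nonzero (μ := μ) hcs hgnn hgx
    rw [← heq, hzero] at hpos
    exact lt_irrefl _ hpos

end integral

end Pool.Agent.Lib.MP_733696_ag
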