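import Pool.Agent.Lib.MP_733696_ag.LocalKahler

/-!
# Local Kähler geometry: curvature and the Bochner type identity
-/

open scoped ContDiff Topology ComplexConjugate
open Module

namespace Pool.Agent.Lib.MP_733696_ag

variable {E : Type*} [NormedAddCommGroup E] [NormedSpace ℂ E]
variable {W : Type*} [NormedAddCommGroup W] [NormedSpace ℂ W]

section riesz

variable [FiniteDimensional ℂ E]

/-- Riesz representation for a positive definite sesquilinear form given as a function -/
theorem exists_riesz (g : E → E → ℂ) (hadd : ∀ u v w, g (u + v) w = g u w + g v w)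
    (hsmul : ∀ (c : ℂ) (v w : E), g (c • v) w = c * g v w)
    (hconj : ∀ v w, g w v = conj (g v w))
    (hpos : ∀ v, v ≠ 0 → 0 < (g v v).re)
    (ℓ : E → ℂ) (hℓadd : ∀ v w, ℓ (v + w) = ℓ v + ℓ w)
    (hℓsmul : ∀ (c : ℂ) (v : E), ℓ (c • v) = conj c * ℓ v) :
    ∃ γ, ∀ w, g γ w = ℓ w := by
  classical
  let b := Module.finBasis ℂ E
  have hadd' : ∀ u v w, g w (u + v) = g w u + g w v := by
    intro u v w
    rw [hconj (u + v) w, hadd, map_add, ← hconj, ← hconj]
  have hsmul' : ∀ (c : ℂ) (v w : E), g v (c • w) = conj c * g v w := by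
    intro c v w
    rw [hconj (c • w) v, hsmul, map_mul, ← hconj]
  let T : E →ₗ[ℂ] (Fin (finrank ℂ E) → ℂ) :=
    { toFun := fun v j => g v (b j)
      map_add' := fun u v => by funext j; exact hadd u v (b j)
      map_smul' := fun c v => by funext j; simpa using hsmul c v (b j) }
  have key : ∀ (γ : E) (w : E), g γ w = ∑ j, conj (b.repr w j) * g γ (b j) := by
    intro γ w
    conv_lhs => rw [← b.sum_repr w]
    have : ∀ s : Finset (Fin (finrank ℂ E)), g γ (∑ j ∈ s, b.repr w j • b j)
        = ∑ j ∈ s, conj (b.repr w j) * g γ (b j) := by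
      intro s
      induction s using Finset.induction_on with
      | empty =>
        simp only [Finset.sum_empty]
        have := hsmul' 0 γ 0
        simpa using this
      | insert a s ha ih =>
        rw [Finset.sum_insert ha, Finset.sum_insert ha, hadd', ih, hsmul']
    exact this _
  have key2 : ∀ w : E, ℓ w = ∑ j, conj (b.repr w j) * ℓ (b j) := by
    intro w
    conv_lhs => rw [← b.sum_repr w]
    have : ∀ s : Finset (Fin (finrank ℂ E)), ℓ (∑ j ∈ s, b.repr w j • b j)
        = ∑ j ∈ s, conj (b.repr w j) * ℓ (b j) := by
      intro s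
      induction s using Finset.induction_on with
      | empty =>
        simp only [Finset.sum_empty]
        have := hℓsmul 0 0
        simpa using this
      | insert a s ha ih =>
        rw [Finset.sum_insert ha, Finset.sum_insert ha, hℓadd, ih, hℓsmul]
    exact this _
  have hinj : Function.Injective T := by
    rw [← LinearMap.ker_eq_bot, LinearMap.ker_eq_bot']
    intro v hv
    by_contra hne
    have h1 := hpos v hne
    rw [key v v] at h1
    have h2 : ∀ j, g v (b j) = 0 := fun j => congrFun hv j
    simp [h2] at h1
  have hsurj : Function.Surjective T :=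
    (LinearMap.injective_iff_surjective_of_finrank_eq_finrank (by simp)).1 hinj
  obtain ⟨γ, hγ⟩ := hsurj (fun j => ℓ (b j))
  refine ⟨γ, fun w => ?_⟩
  rw [key γ w, key2 w]
  refine Finset.sum_congr rfl fun j _ => ?_
  have : g γ (b j) = ℓ (b j) := congrFun hγ j
  rw [this]

end riesz

namespace LocalKahler

variable {U : Set E} {G : E → E →L[ℝ] E →L[ℝ] ℂ} (hG : LocalKahler U G)
include hG

theorem christoffel_spec [FiniteDimensional ℂ E] {y : E} (hy : y ∈ U) (u v w : E) :
    G y (christoffel (fun y v w => G y v w) y u v) w = dz G y u v w := by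
  have hex : ∃ γ, ∀ w, G y γ w = dz (fun y' => G y' v w) y u := by
    apply exists_riesz (fun v w => G y v w)
    · intro u v w; rw [map_add]; rfl
    · exact fun c v w => hG.smul_left y hy c v w
    · exact fun v w => hG.conj_symm y hy v w
    · exact fun v hv => hG.pos y hy v hv
    · intro w w'
      rw [dz_eval₂ (hG.diff hy), dz_eval₂ (hG.diff hy), dz_eval₂ (hG.diff hy), map_add]
    · intro c w
      rw [dz_eval₂ (hG.diff hy), dz_eval₂ (hG.diff hy), hG.dz_smul_right hy]
  have h := Classical.epsilon_spec hex w
  rw [dz_eval₂ (hG.diff hy)] at h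
  exact h

theorem eq_christoffel [FiniteDimensional ℂ E] {y : E} (hy : y ∈ U) {u v γ : E}
    (h : ∀ w, G y γ w = dz G y u v w) : γ = christoffel (fun y v w => G y v w) y u v := by
  apply hG.eq_of_forall_left hy
  intro z
  rw [h z, hG.christoffel_spec hy]

theorem christoffel_symm [FiniteDimensional ℂ E] {y : E} (hy : y ∈ U) (u v : E) :
    christoffel (fun y v w => G y v w) y u v = christoffel (fun y v w => G y v w) y v u := by
  apply hG.eq_christoffel hy
  intro w
  rw [hG.christoffel_spec hy, hG.kahler y hy]

theorem christoffel_add_left [FiniteDimensional ℂ E] {y : E} (hy : y ∈ U) (u u' v : E) :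
    christoffel (fun y v w => G y v w) y (u + u') v
      = christoffel (fun y v w => G y v w) y u v + christoffel (fun y v w => G y v w) y u' v := by
  symm
  apply hG.eq_christoffel hy
  intro w
  rw [map_add, add_apply, hG.christoffel_spec hy, hG.christoffel_spec hy, dz_add_dir]
  rfl

theorem christoffel_smul_left [FiniteDimensional ℂ E] {y : E} (hy : y ∈ U) (c : ℂ) (u v : E) :
    christoffel (fun y v w => G y v w) y (c • u) v
      = c • christoffel (fun y v w => G y v w) y u v := by
  symm
  apply hG.eq_christoffel hy
  intro w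
  rw [hG.smul_left y hy, hG.christoffel_spec hy, dz_smul_dir]
  rfl

theorem christoffel_add_right [FiniteDimensional ℂ E] {y : E} (hy : y ∈ U) (u v v' : E) :
    christoffel (fun y v w => G y v w) y u (v + v')
      = christoffel (fun y v w => G y v w) y u v + christoffel (fun y v w => G y v w) y u v' := by
  rw [hG.christoffel_symm hy, hG.christoffel_add_left hy, hG.christoffel_symm hy v,
    hG.christoffel_symm hy v']

theorem christoffel_smul_right [FiniteDimensional ℂ E] {y : E} (hy : y ∈ U) (c : ℂ) (u v : E) :
    christoffel (fun y v w => G y v w) y u (c • v)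
      = c • christoffel (fun y v w => G y v w) y u v := by
  rw [hG.christoffel_symm hy, hG.christoffel_smul_left hy, hG.christoffel_symm hy v]

/-- the second derivative term, as an iterated derivative of the form-valued function -/
theorem second_eq {y : E} (hy : y ∈ U) (a b c d : E) :
    dzbar (fun y' => dz (fun y'' => G y'' c d) y' a) y b
      = dzbar (fun y' => dz G y' a) y b c d := by
  have hnU := hG.isOpen.mem_nhds hy
  have hdGa : DifferentiableAt ℝ (fun y => dz G y a) y :=
    ((contDiffOn_dz hG.isOpen hG.smooth a).contDiffAt hnU).differentiableAt (by simp)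
  rw [← dzbar_eval₂ hdGa]
  apply dzbar_congr
  filter_upwards [hnU] with z hz
  exact dz_eval₂ (hG.diff hz) a c d

theorem curvature_eq {y : E} (hy : y ∈ U) (a b c d : E) :
    curvatureTensor (fun y v w => G y v w) y a b c d
      = - dzbar (fun y' => dz G y' a) y b c d
        + G y (christoffel (fun y v w => G y v w) y a c)
          (christoffel (fun y v w => G y v w) y b d) := by
  rw [curvatureTensor, hG.second_eq hy]

/-- symmetry of the second derivative in the holomorphic indices -/
theorem second_symm_left {y : E} (hy : y ∈ U) (a b c d : E) :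
    dzbar (fun y' => dz G y' a) y b c d = dzbar (fun y' => dz G y' c) y b a d := by
  rw [← hG.second_eq hy, ← hG.second_eq hy]
  apply dzbar_congr
  filter_upwards [hG.isOpen.mem_nhds hy] with z hz
  rw [dz_eval₂ (hG.diff hz), dz_eval₂ (hG.diff hz), hG.kahler z hz]

theorem second_conj {y : E} (hy : y ∈ U) (a b c d : E) :
    conj (dzbar (fun y' => dz G y' a) y b c d) = dzbar (fun y' => dz G y' b) y a d c := by
  have hnU := hG.isOpen.mem_nhds hy
  rw [← hG.second_eq hy, ← hG.second_eq hy]
  have hcd : ContDiffAt ℝ ∞ (fun y => G y c d) y :=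
    (((hG.smooth.clm_apply contDiffOn_const).clm_apply contDiffOn_const).contDiffAt hnU)
  have hcd' : ContDiffOn ℝ ∞ (fun y => G y c d) U :=
    (hG.smooth.clm_apply contDiffOn_const).clm_apply contDiffOn_const
  have hd : DifferentiableAt ℝ (fun y' => dz (fun y'' => G y'' c d) y' a) y :=
    ((contDiffOn_dz hG.isOpen hcd' a).contDiffAt hnU).differentiableAt (by simp)
  rw [← dz_conj hd]
  have h1 : dz (fun y' => conj (dz (fun y'' => G y'' c d) y' a)) y b
      = dz (fun y' => dzbar (fun y'' => G y'' d c) y' a) y b := by
    apply dz_congr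
    filter_upwards [hnU] with z hz
    rw [dz_eval₂ (hG.diff hz), dzbar_eval₂ (hG.diff hz), hG.dzbar_eq_conj hz]
  rw [h1]
  have hdc : ContDiffOn ℝ ∞ (fun y => G y d c) U :=
    (hG.smooth.clm_apply contDiffOn_const).clm_apply contDiffOn_const
  exact dz_dzbar_comm ((hdc.contDiffAt hnU).of_le ENat.LEInfty.out) b a

theorem curvature_symm_left [FiniteDimensional ℂ E] {y : E} (hy : y ∈ U) (a b c d : E) :
    curvatureTensor (fun y v w => G y v w) y a b c d
      = curvatureTensor (fun y v w => G y v w) y c b a d := by
  rw [hG.curvature_eq hy, hG.curvature_eq hy, hG.second_symm_left hy, hG.christoffel_symm hy a c]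

theorem curvature_conj [FiniteDimensional ℂ E] {y : E} (hy : y ∈ U) (a b c d : E) :
    conj (curvatureTensor (fun y v w => G y v w) y a b c d)
      = curvatureTensor (fun y v w => G y v w) y b a d c := by
  rw [hG.curvature_eq hy, hG.curvature_eq hy, map_add, map_neg, hG.second_conj hy,
    ← hG.conj_symm y hy]

theorem curvature_symm_right [FiniteDimensional ℂ E] {y : E} (hy : y ∈ U) (a b c d : E) :
    curvatureTensor (fun y v w => G y v w) y a b c d
      = curvatureTensor (fun y v w => G y v w) y a d c b := by
  rw [← hG.curvature_conj hy b a d c, hG.curvature_symm_left hy, hG.curvature_conj hy]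

theorem curvature_add_one [FiniteDimensional ℂ E] {y : E} (hy : y ∈ U) (a a' b c d : E) :
    curvatureTensor (fun y v w => G y v w) y (a + a') b c d
      = curvatureTensor (fun y v w => G y v w) y a b c d
        + curvatureTensor (fun y v w => G y v w) y a' b c d := by
  rw [hG.curvature_symm_left hy, hG.curvature_symm_left hy a, hG.curvature_symm_left hy a',
    hG.curvature_eq hy, hG.curvature_eq hy, hG.curvature_eq hy, hG.christoffel_add_right hy,
    map_add, map_add]
  simp only [add_apply]
  ring

theorem curvature_smul_one [FiniteDimensional ℂ E] {y : E} (hy : y ∈ U) (t : ℂ) (a b c d : E) :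
    curvatureTensor (fun y v w => G y v w) y (t • a) b c d
      = t * curvatureTensor (fun y v w => G y v w) y a b c d := by
  rw [hG.curvature_eq hy, hG.curvature_eq hy, hG.christoffel_smul_left hy, hG.smul_left y hy]
  have h : dzbar (fun y' => dz G y' (t • a)) y b c d
      = t * dzbar (fun y' => dz G y' a) y b c d := by
    have hnU := hG.isOpen.mem_nhds hy
    have hdGa : ∀ a : E, DifferentiableAt ℝ (fun y => dz G y a) y := fun a =>
      ((contDiffOn_dz hG.isOpen hG.smooth a).contDiffAt hnU).differentiableAt (by simp)
    rw [← dzbar_eval₂ (hdGa (t • a)), ← dzbar_eval₂ (hdGa a)]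
    have h1 : dzbar (fun y' => dz G y' (t • a) c d) y b
        = dzbar (fun y' => t * dz G y' a c d) y b := by
      apply dzbar_congr
      filter_upwards with z
      rw [dz_smul_dir]
      rfl
    rw [h1, dzbar_mul (differentiableAt_const t)
      (((hdGa a).clm_apply (differentiableAt_const c)).clm_apply (differentiableAt_const d)),
      dzbar_of_hasFDerivAt (hasFDerivAt_const t y)]
    simp
  rw [h]
  ring

theorem curvature_add_two [FiniteDimensional ℂ E] {y : E} (hy : y ∈ U) (a b b' c d : E) :
    curvatureTensor (fun y v w => G y v w) y a (b + b') c d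
      = curvatureTensor (fun y v w => G y v w) y a b c d
        + curvatureTensor (fun y v w => G y v w) y a b' c d := by
  rw [← hG.curvature_conj hy (b + b') a d c, hG.curvature_add_one hy, map_add,
    hG.curvature_conj hy, hG.curvature_conj hy]

theorem curvature_smul_two [FiniteDimensional ℂ E] {y : E} (hy : y ∈ U) (t : ℂ) (a b c d : E) :
    curvatureTensor (fun y v w => G y v w) y a (t • b) c d
      = conj t * curvatureTensor (fun y v w => G y v w) y a b c d := by
  rw [← hG.curvature_conj hy (t • b) a d c, hG.curvature_smul_one hy, map_mul,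
    hG.curvature_conj hy]

theorem curvature_add_three [FiniteDimensional ℂ E] {y : E} (hy : y ∈ U) (a b c c' d : E) :
    curvatureTensor (fun y v w => G y v w) y a b (c + c') d
      = curvatureTensor (fun y v w => G y v w) y a b c d
        + curvatureTensor (fun y v w => G y v w) y a b c' d := by
  rw [hG.curvature_symm_left hy, hG.curvature_add_one hy, hG.curvature_symm_left hy c,
    hG.curvature_symm_left hy c']

theorem curvature_smul_three [FiniteDimensional ℂ E] {y : E} (hy : y ∈ U) (t : ℂ)
    (a b c d : E) :
    curvatureTensor (fun y v w => G y v w) y a b (t • c) d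
      = t * curvatureTensor (fun y v w => G y v w) y a b c d := by
  rw [hG.curvature_symm_left hy, hG.curvature_smul_one hy, hG.curvature_symm_left hy c]

theorem curvature_add_four [FiniteDimensional ℂ E] {y : E} (hy : y ∈ U) (a b c d d' : E) :
    curvatureTensor (fun y v w => G y v w) y a b c (d + d')
      = curvatureTensor (fun y v w => G y v w) y a b c d
        + curvatureTensor (fun y v w => G y v w) y a b c d' := by
  rw [hG.curvature_symm_right hy, hG.curvature_add_two hy, hG.curvature_symm_right hy a d,
    hG.curvature_symm_right hy a d']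

theorem curvature_smul_four [FiniteDimensional ℂ E] {y : E} (hy : y ∈ U) (t : ℂ)
    (a b c d : E) :
    curvatureTensor (fun y v w => G y v w) y a b c (t • d)
      = conj t * curvatureTensor (fun y v w => G y v w) y a b c d := by
  rw [hG.curvature_symm_right hy, hG.curvature_smul_two hy, hG.curvature_symm_right hy a d]

/-- If the holomorphic sectional curvature is semi-positive at `y` and vanishes on `x`,
then `R(w, w̄, x, x̄) ≥ 0` for all `w`. -/
theorem curvature_second_variation [FiniteDimensional ℂ E] {y : E} (hy : y ∈ U)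
    (hnn : ∀ v, 0 ≤ (curvatureTensor (fun y v w => G y v w) y v v v v).re) {x : E}
    (hx : (curvatureTensor (fun y v w => G y v w) y x x x x).re = 0) (w : E) :
    0 ≤ (curvatureTensor (fun y v w => G y v w) y w w x x).re := by
  set R := curvatureTensor (fun y v w => G y v w) y with hR
  have key : ∀ t : ℝ, 0 ≤ 16 * t ^ 2 * (R w w x x).re + 4 * t ^ 4 * (R w w w w).re := by
    intro t
    have expand : ∀ s : ℂ, R (x + s • w) (x + s • w) (x + s • w) (x + s • w)
        = R x x x x + s * (2 * R w x x x) + conj s * (2 * R x w x x)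
          + s * conj s * (4 * R w w x x) + s * s * R w x w x + conj s * conj s * R x w x w
          + s * s * conj s * (2 * R w w w x) + s * conj s * conj s * (2 * R w w x w)
          + s * s * conj s * conj s * R w w w w := by
      intro s
      simp only [hR, hG.curvature_add_one hy, hG.curvature_add_two hy, hG.curvature_add_three hy,
        hG.curvature_add_four hy, hG.curvature_smul_one hy, hG.curvature_smul_two hy,
        hG.curvature_smul_three hy, hG.curvature_smul_four hy]
      rw [hG.curvature_symm_left hy x x w x, hG.curvature_symm_right hy x x x w,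
        hG.curvature_symm_right hy w x x w, hG.curvature_symm_left hy x w w x,
        hG.curvature_symm_left hy x x w w, hG.curvature_symm_right hy w x x w,
        hG.curvature_symm_right hy w x w w, hG.curvature_symm_left hy x w w w]
      ring
    have h1 := hnn (x + (t : ℂ) • w)
    have h2 := hnn (x + (-t : ℂ) • w)
    have h3 := hnn (x + (t * Complex.I : ℂ) • w)
    have h4 := hnn (x + (-t * Complex.I : ℂ) • w)
    have hsum : R (x + (t : ℂ) • w) (x + (t : ℂ) • w) (x + (t : ℂ) • w) (x + (t : ℂ) • w)
        + R (x + (-t : ℂ) • w) (x + (-t : ℂ) • w) (x + (-t : ℂ) • w) (x + (-t : ℂ) • w)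
        + R (x + (t * Complex.I : ℂ) • w) (x + (t * Complex.I : ℂ) • w)
            (x + (t * Complex.I : ℂ) • w) (x + (t * Complex.I : ℂ) • w)
        + R (x + (-t * Complex.I : ℂ) • w) (x + (-t * Complex.I : ℂ) • w)
            (x + (-t * Complex.I : ℂ) • w) (x + (-t * Complex.I : ℂ) • w)
        = 4 * R x x x x + 16 * (t : ℂ) ^ 2 * R w w x x + 4 * (t : ℂ) ^ 4 * R w w w w := by
      rw [expand, expand, expand, expand]
      simp only [map_neg, map_mul, Complex.conj_ofReal, Complex.conj_I]
      ring_nf
      simp only [Complex.I_sq, Complex.I_pow_four]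
      ring_nf
    have hre := congrArg Complex.re hsum
    have h5 : ((16 : ℂ) * (t : ℂ) ^ 2 * R w w x x).re = 16 * t ^ 2 * (R w w x x).re := by
      rw [show (16 : ℂ) * (t : ℂ) ^ 2 * R w w x x = ((16 * t ^ 2 : ℝ) : ℂ) * R w w x x by
        push_cast; ring, Complex.re_ofReal_mul]
    have h6 : ((4 : ℂ) * (t : ℂ) ^ 4 * R w w w w).re = 4 * t ^ 4 * (R w w w w).re := by
      rw [show (4 : ℂ) * (t : ℂ) ^ 4 * R w w w w = ((4 * t ^ 4 : ℝ) : ℂ) * R w w w w by
        push_cast; ring, Complex.re_ofReal_mul]
    have h7 : ((4 : ℂ) * R x x x x).re = 0 := by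
      rw [show (4 : ℂ) * R x x x x = ((4 : ℝ) : ℂ) * R x x x x by push_cast; ring,
        Complex.re_ofReal_mul, hx, mul_zero]
    simp only [Complex.add_re] at hre
    rw [h5, h6, h7] at hre
    linarith
  by_contra hneg
  push Not at hneg
  -- choose `t` small
  set A := (R w w x x).re
  set B := (R w w w w).re
  have hB : 0 ≤ B := hnn w
  have hB' : 0 < B + 1 := by linarith
  -- t^2 = -A / (B+1)
  have hpos : 0 < -A / (B + 1) := div_pos (by linarith) hB'
  have hk := key (Real.sqrt (-A / (B + 1)))
  have hs : Real.sqrt (-A / (B + 1)) ^ 2 = -A / (B + 1) := Real.sq_sqrt hpos.le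
  have hs4 : Real.sqrt (-A / (B + 1)) ^ 4 = (-A / (B + 1)) ^ 2 := by
    calc Real.sqrt (-A / (B + 1)) ^ 4 = (Real.sqrt (-A / (B + 1)) ^ 2) ^ 2 := by ring
      _ = _ := by rw [hs]
  rw [hs, hs4] at hk
  set q := -A / (B + 1) with hq
  have hA : A = - q * (B + 1) := by
    rw [hq]; field_simp
  rw [hA] at hk
  nlinarith [mul_pos hpos hpos, mul_nonneg (mul_pos hpos hpos).le hB]

end LocalKahler

end Pool.Agent.Lib.MP_733696_ag
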