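import Pool.Agent.Lib.MP_733696_ag.Product

/-!
# Local Kähler geometry: the Bochner type identity
-/

open scoped ContDiff Topology ComplexConjugate

namespace Pool.Agent.Lib.MP_733696_ag

variable {E : Type*} [NormedAddCommGroup E] [NormedSpace ℂ E]
variable {W : Type*} [NormedAddCommGroup W] [NormedSpace ℂ W]

/-- `G` is (the local expression of) a smooth Kähler metric on the open set `U` -/
structure LocalKahler (U : Set E) (G : E → E →L[ℝ] E →L[ℝ] ℂ) : Prop where
  isOpen : IsOpen U
  smooth : ContDiffOn ℝ ∞ G U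
  smul_left : ∀ y ∈ U, ∀ (c : ℂ) (v w : E), G y (c • v) w = c * G y v w
  conj_symm : ∀ y ∈ U, ∀ v w : E, G y w v = conj (G y v w)
  pos : ∀ y ∈ U, ∀ v : E, v ≠ 0 → 0 < (G y v v).re
  kahler : ∀ y ∈ U, ∀ u v w : E, dz G y u v w = dz G y v u w

/-- `η` is (the local expression of) a closed holomorphic `1`-form on `U` -/
structure LocalForm (U : Set E) (η : E → E →L[ℝ] ℂ) : Prop where
  smooth : ContDiffOn ℝ ∞ η U
  smul : ∀ y ∈ U, ∀ (c : ℂ) (v : E), η y (c • v) = c * η y v
  holo : ∀ y ∈ U, ∀ u v : E, dzbar η y u v = 0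
  closed : ∀ y ∈ U, ∀ u v : E, dz η y u v = dz η y v u

theorem contDiffOn_dz {f : E → W} {U : Set E} (hU : IsOpen U) (hf : ContDiffOn ℝ ∞ f U) (a : E) :
    ContDiffOn ℝ ∞ (fun y => dz f y a) U := by
  have h : ContDiffOn ℝ ∞ (fderiv ℝ f) U := hf.fderiv_of_isOpen hU (by simp)
  have h1 : ∀ v : E, ContDiffOn ℝ ∞ (fun y => fderiv ℝ f y v) U := fun v =>
    h.clm_apply contDiffOn_const
  exact ((h1 a).sub ((h1 (Complex.I • a)).const_smul Complex.I)).const_smul _

theorem contDiffOn_dzbar {f : E → W} {U : Set E} (hU : IsOpen U) (hf : ContDiffOn ℝ ∞ f U)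
    (a : E) : ContDiffOn ℝ ∞ (fun y => dzbar f y a) U := by
  have h : ContDiffOn ℝ ∞ (fderiv ℝ f) U := hf.fderiv_of_isOpen hU (by simp)
  have h1 : ∀ v : E, ContDiffOn ℝ ∞ (fun y => fderiv ℝ f y v) U := fun v =>
    h.clm_apply contDiffOn_const
  exact ((h1 a).add ((h1 (Complex.I • a)).const_smul Complex.I)).const_smul _

theorem contDiffOn_dz_moving {f : E → W} {U : Set E} (hU : IsOpen U) (hf : ContDiffOn ℝ ∞ f U)
    {a : E → E} (ha : ContDiffOn ℝ ∞ a U) :
    ContDiffOn ℝ ∞ (fun y => dz f y (a y)) U := by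
  have h : ContDiffOn ℝ ∞ (fderiv ℝ f) U := hf.fderiv_of_isOpen hU (by simp)
  exact ((h.clm_apply ha).sub ((h.clm_apply (ha.const_smul Complex.I)).const_smul
    Complex.I)).const_smul _

theorem contDiffOn_dzbar_moving {f : E → W} {U : Set E} (hU : IsOpen U) (hf : ContDiffOn ℝ ∞ f U)
    {a : E → E} (ha : ContDiffOn ℝ ∞ a U) :
    ContDiffOn ℝ ∞ (fun y => dzbar f y (a y)) U := by
  have h : ContDiffOn ℝ ∞ (fderiv ℝ f) U := hf.fderiv_of_isOpen hU (by simp)
  exact ((h.clm_apply ha).add ((h.clm_apply (ha.const_smul Complex.I)).const_smul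
    Complex.I)).const_smul _

namespace LocalKahler

variable {U : Set E} {G : E → E →L[ℝ] E →L[ℝ] ℂ} (hG : LocalKahler U G)
include hG

theorem smul_right {y : E} (hy : y ∈ U) (c : ℂ) (v w : E) :
    G y v (c • w) = conj c * G y v w := by
  rw [hG.conj_symm y hy (c • w) v, hG.smul_left y hy, map_mul, ← hG.conj_symm y hy w v]

theorem diff {y : E} (hy : y ∈ U) : DifferentiableAt ℝ G y :=
  (hG.smooth.contDiffAt (hG.isOpen.mem_nhds hy)).differentiableAt (by simp)

theorem im_self {y : E} (hy : y ∈ U) (v : E) : (G y v v).im = 0 := by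
  have h := hG.conj_symm y hy v v
  have := congrArg Complex.im h
  simp at this
  linarith

theorem nonneg {y : E} (hy : y ∈ U) (v : E) : 0 ≤ (G y v v).re := by
  by_cases hv : v = 0
  · simp [hv]
  · exact (hG.pos y hy v hv).le

theorem eq_of_forall_right {y : E} (hy : y ∈ U) {v w : E} (h : ∀ z, G y z v = G y z w) :
    v = w := by
  by_contra hne
  have h1 := hG.pos y hy (v - w) (sub_ne_zero.mpr hne)
  have h2 : G y (v - w) (v - w) = 0 := by
    rw [map_sub (G y (v - w)) v w, h (v - w), sub_self]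
  rw [h2] at h1
  simp at h1

theorem eq_of_forall_left {y : E} (hy : y ∈ U) {v w : E} (h : ∀ z, G y v z = G y w z) :
    v = w := by
  apply hG.eq_of_forall_right hy
  intro z
  rw [hG.conj_symm y hy v z, hG.conj_symm y hy w z, h z]

/-- `(∂_a G)` is linear in the first slot -/
theorem dz_smul_left {y : E} (hy : y ∈ U) (a : E) (c : ℂ) (v w : E) :
    dz G y a (c • v) w = c * dz G y a v w := by
  rw [← dz_eval₂ (hG.diff hy), ← dz_eval₂ (hG.diff hy)]
  have h : (fun y => G y (c • v) w) =ᶠ[𝓝 y] (fun y => c * G y v w) := by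
    filter_upwards [hG.isOpen.mem_nhds hy] with z hz
    exact hG.smul_left z hz c v w
  rw [dz_congr h, dz_mul (differentiableAt_const c)]
  · rw [dz_of_hasFDerivAt (hasFDerivAt_const c y)]; simp
  · exact ((hG.diff hy).clm_apply (differentiableAt_const v)).clm_apply (differentiableAt_const w)

theorem dzbar_eq_conj {y : E} (hy : y ∈ U) (b v w : E) :
    dzbar G y b v w = conj (dz G y b w v) := by
  rw [← dz_eval₂ (hG.diff hy), ← dzbar_eval₂ (hG.diff hy)]
  have hd : DifferentiableAt ℝ (fun y => G y w v) y :=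
    ((hG.diff hy).clm_apply (differentiableAt_const w)).clm_apply (differentiableAt_const v)
  rw [← dzbar_conj hd]
  apply dzbar_congr
  filter_upwards [hG.isOpen.mem_nhds hy] with z hz
  exact hG.conj_symm z hz w v

theorem dz_smul_right {y : E} (hy : y ∈ U) (a : E) (c : ℂ) (v w : E) :
    dz G y a v (c • w) = conj c * dz G y a v w := by
  rw [← dz_eval₂ (hG.diff hy), ← dz_eval₂ (hG.diff hy)]
  have h : (fun y => G y v (c • w)) =ᶠ[𝓝 y] (fun y => conj c * G y v w) := by
    filter_upwards [hG.isOpen.mem_nhds hy] with z hz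
    exact hG.smul_right hz c v w
  rw [dz_congr h, dz_mul (differentiableAt_const _)]
  · rw [dz_of_hasFDerivAt (hasFDerivAt_const (conj c) y)]; simp
  · exact ((hG.diff hy).clm_apply (differentiableAt_const v)).clm_apply (differentiableAt_const w)

end LocalKahler

section dual

variable {U : Set E} {G : E → E →L[ℝ] E →L[ℝ] ℂ} (hG : LocalKahler U G)
variable {η : E → E →L[ℝ] ℂ} (hη : LocalForm U η)
variable {ξ : E → E} (hξ : ContDiffOn ℝ ∞ ξ U) (hd : ∀ y ∈ U, ∀ v, G y v (ξ y) = η y v)

include hG hη hξ hd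

theorem bochner_two {y : E} (hy : y ∈ U) (b v : E) :
    dzbar G y b v (ξ y) + G y v (dz ξ y b) = 0 := by
  have hdξ : DifferentiableAt ℝ ξ y :=
    (hξ.contDiffAt (hG.isOpen.mem_nhds hy)).differentiableAt (by simp)
  have hdη : DifferentiableAt ℝ η y :=
    (hη.smooth.contDiffAt (hG.isOpen.mem_nhds hy)).differentiableAt (by simp)
  have h := dzbar_pairing (hG.diff hy) (differentiableAt_const v) hdξ
    (fun c v w => hG.smul_left y hy c v w) (fun c v w => hG.smul_right hy c v w) b
  have h2 : dzbar (fun y => G y v (ξ y)) y b = dzbar (fun y => η y v) y b := by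
    apply dzbar_congr
    filter_upwards [hG.isOpen.mem_nhds hy] with z hz
    exact hd z hz v
  rw [h2, dzbar_eval₁ hdη, hη.holo y hy] at h
  rw [dzbar_of_hasFDerivAt (hasFDerivAt_const v y)] at h
  simp at h
  exact h.symm

theorem bochner_three {y : E} (hy : y ∈ U) (a v : E) :
    dz η y a v = dz G y a v (ξ y) + G y v (dzbar ξ y a) := by
  have hdξ : DifferentiableAt ℝ ξ y :=
    (hξ.contDiffAt (hG.isOpen.mem_nhds hy)).differentiableAt (by simp)
  have hdη : DifferentiableAt ℝ η y :=
    (hη.smooth.contDiffAt (hG.isOpen.mem_nhds hy)).differentiableAt (by simp)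
  have h := dz_pairing (hG.diff hy) (differentiableAt_const v) hdξ
    (fun c v w => hG.smul_left y hy c v w) (fun c v w => hG.smul_right hy c v w) a
  have h2 : dz (fun y => G y v (ξ y)) y a = dz (fun y => η y v) y a := by
    apply dz_congr
    filter_upwards [hG.isOpen.mem_nhds hy] with z hz
    exact hd z hz v
  rw [h2, dz_eval₁ hdη] at h
  rw [dz_of_hasFDerivAt (hasFDerivAt_const v y)] at h
  simp at h
  exact h

theorem bochner_symm {y : E} (hy : y ∈ U) (a v : E) :
    G y v (dzbar ξ y a) = G y a (dzbar ξ y v) := by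
  have h1 := bochner_three hG hη hξ hd hy a v
  have h2 := bochner_three hG hη hξ hd hy v a
  rw [hη.closed y hy a v, h2, hG.kahler y hy v a] at h1
  exact (add_left_cancel h1).symm

theorem bochner_dzbar_u {y : E} (hy : y ∈ U) (b : E) :
    dzbar (fun y => η y (ξ y)) y b = G y (dzbar ξ y b) (ξ y) := by
  have hdξ : DifferentiableAt ℝ ξ y :=
    (hξ.contDiffAt (hG.isOpen.mem_nhds hy)).differentiableAt (by simp)
  have hdη : DifferentiableAt ℝ η y :=
    (hη.smooth.contDiffAt (hG.isOpen.mem_nhds hy)).differentiableAt (by simp)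
  rw [dzbar_form_apply hdη hdξ (fun c v => hη.smul y hy c v), hη.holo y hy, zero_add, hd y hy]

omit hη hξ in
theorem u_real {y : E} (hy : y ∈ U) : conj (η y (ξ y)) = η y (ξ y) := by
  rw [← hd y hy, ← hG.conj_symm y hy]

theorem bochner_dz_u {y : E} (hy : y ∈ U) (a : E) :
    dz (fun y => η y (ξ y)) y a = G y a (dzbar ξ y (ξ y)) := by
  have hdξ : DifferentiableAt ℝ ξ y :=
    (hξ.contDiffAt (hG.isOpen.mem_nhds hy)).differentiableAt (by simp)
  have hdη : DifferentiableAt ℝ η y :=
    (hη.smooth.contDiffAt (hG.isOpen.mem_nhds hy)).differentiableAt (by simp)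
  have hdu : DifferentiableAt ℝ (fun y => η y (ξ y)) y := hdη.clm_apply hdξ
  have h1 : dz (fun y => η y (ξ y)) y a = dz (fun y => conj (η y (ξ y))) y a := by
    apply dz_congr
    filter_upwards [hG.isOpen.mem_nhds hy] with z hz
    exact (u_real hG hd hz).symm
  rw [h1, dz_conj hdu, bochner_dzbar_u hG hη hξ hd hy, ← hG.conj_symm y hy,
    bochner_symm hG hη hξ hd hy]

/-- the mixed second derivative of `|η|²` -/
theorem bochner_second {y : E} (hy : y ∈ U) (a b : E) :
    dz (fun y => dzbar (fun y => η y (ξ y)) y b) y a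
      = G y (dzbar ξ y b) (dzbar ξ y a)
        - dzbar (fun y' => dz G y' a) y b (ξ y) (ξ y) + G y (dz ξ y a) (dz ξ y b) := by
  have hnU := hG.isOpen.mem_nhds hy
  have hdξ : DifferentiableAt ℝ ξ y := (hξ.contDiffAt hnU).differentiableAt (by simp)
  have hdη : DifferentiableAt ℝ η y := (hη.smooth.contDiffAt hnU).differentiableAt (by simp)
  have hdξb : DifferentiableAt ℝ (fun y => dzbar ξ y b) y :=
    ((contDiffOn_dzbar hG.isOpen hξ b).contDiffAt hnU).differentiableAt (by simp)
  have hdξa : DifferentiableAt ℝ (fun y => dz ξ y a) y :=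
    ((contDiffOn_dz hG.isOpen hξ a).contDiffAt hnU).differentiableAt (by simp)
  have hdGa : DifferentiableAt ℝ (fun y => dz G y a) y :=
    ((contDiffOn_dz hG.isOpen hG.smooth a).contDiffAt hnU).differentiableAt (by simp)
  -- first step
  have h1 : dz (fun y => dzbar (fun y => η y (ξ y)) y b) y a
      = dz η y a (dzbar ξ y b) + η y (dz (fun y => dzbar ξ y b) y a) := by
    rw [← dz_form_apply hdη hdξb (fun c v => hη.smul y hy c v)]
    apply dz_congr
    filter_upwards [hnU] with z hz
    rw [bochner_dzbar_u hG hη hξ hd hz, hd z hz]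
  -- second step
  have h2 : dz (fun y => dzbar ξ y b) y a = dzbar (fun y => dz ξ y a) y b :=
    dz_dzbar_comm ((hξ.contDiffAt hnU).of_le ENat.LEInfty.out) a b
  -- third step
  have h3 : (fun z => G z (dz ξ z a) (ξ y)) =ᶠ[𝓝 y] (fun z => - dz G z a (ξ z) (ξ y)) := by
    filter_upwards [hnU] with z hz
    have h := bochner_two hG hη hξ hd hz a (ξ y)
    rw [hG.dzbar_eq_conj hz, hG.conj_symm z hz (dz ξ z a) (ξ y), ← map_add] at h
    have h' := congrArg conj h
    simp only [Complex.conj_conj, map_zero] at h'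
    linear_combination h'
  have h4 := dzbar_congr h3 b
  have hneg : dzbar (fun z => - dz G z a (ξ z) (ξ y)) y b
      = - dzbar (fun z => dz G z a (ξ z) (ξ y)) y b := by
    simp only [dzbar, fderiv_fun_neg, neg_apply]
    simp only [smul_neg, ← neg_add]
  rw [hneg, dzbar_pairing (hG.diff hy) hdξa (differentiableAt_const _)
    (fun c v w => hG.smul_left y hy c v w) (fun c v w => hG.smul_right hy c v w) b,
    dzbar_pairing hdGa hdξ (differentiableAt_const _)
    (fun c v w => hG.dz_smul_left hy a c v w) (fun c v w => hG.dz_smul_right hy a c v w) b,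
    dz_of_hasFDerivAt (hasFDerivAt_const (ξ y) y)] at h4
  simp only [zero_apply, smul_zero, sub_zero, map_zero, add_zero] at h4
  have h5 := bochner_two hG hη hξ hd hy b (dz ξ y a)
  have h6 := bochner_three hG hη hξ hd hy a (dzbar ξ y b)
  rw [h1, h2, h6, ← hd y hy]
  linear_combination h4 - h5

end dual

end Pool.Agent.Lib.MP_733696_ag
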