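import Pool.Agent.Lib.MP_733696_ag.LocalBochner

/-!
# The Bochner type identity for the dual vector field of a closed holomorphic one-form
-/

open scoped ContDiff Topology ComplexConjugate
open Module

namespace Pool.Agent.Lib.MP_733696_ag

variable {E : Type*} [NormedAddCommGroup E] [NormedSpace ℂ E] [FiniteDimensional ℂ E]

section dual

variable {U : Set E} {G : E → E →L[ℝ] E →L[ℝ] ℂ} (hG : LocalKahler U G)
variable {η : E → E →L[ℝ] ℂ} (hη : LocalForm U η)
variable {ξ : E → E} (hξ : ContDiffOn ℝ ∞ ξ U) (hd : ∀ y ∈ U, ∀ v, G y v (ξ y) = η y v)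

include hG hη hξ hd

theorem christoffel_dual {y : E} (hy : y ∈ U) (b : E) :
    christoffel (fun y v w => G y v w) y b (ξ y) = - dz ξ y b := by
  symm
  apply hG.eq_christoffel hy
  intro w
  have h := bochner_two hG hη hξ hd hy b w
  rw [hG.dzbar_eq_conj hy, hG.conj_symm y hy (dz ξ y b) w, ← map_add] at h
  have h' := congrArg conj h
  simp only [Complex.conj_conj, map_zero] at h'
  rw [map_neg, neg_apply]
  linear_combination -h'

/-- the mixed second derivative of `|η|²` in terms of the curvature -/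
theorem bochner_second_curv {y : E} (hy : y ∈ U) (a b : E) :
    dz (fun y => dzbar (fun y => η y (ξ y)) y b) y a
      = G y (dzbar ξ y b) (dzbar ξ y a)
        + curvatureTensor (fun y v w => G y v w) y a b (ξ y) (ξ y) := by
  rw [bochner_second hG hη hξ hd hy, hG.curvature_eq hy, christoffel_dual hG hη hξ hd hy,
    christoffel_dual hG hη hξ hd hy]
  simp only [map_neg, neg_apply]
  ring

theorem contDiffOn_u : ContDiffOn ℝ ∞ (fun y => η y (ξ y)) U := hη.smooth.clm_apply hξ

theorem contDiffOn_h : ContDiffOn ℝ ∞ (fun y => dzbar (fun y => η y (ξ y)) y (ξ y)) U :=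
  contDiffOn_dzbar_moving hG.isOpen (contDiffOn_u hG hη hξ hd) hξ

/-- **The Bochner type identity**:
`∂_ξ (∂̄_ξ |η|²) = 2 |∂̄_ξ ξ|² + R(ξ, ξ̄, ξ, ξ̄)`. -/
theorem bochner_F {y : E} (hy : y ∈ U) :
    dz (fun y => dzbar (fun y => η y (ξ y)) y (ξ y)) y (ξ y)
      = 2 * G y (dzbar ξ y (ξ y)) (dzbar ξ y (ξ y))
        + curvatureTensor (fun y v w => G y v w) y (ξ y) (ξ y) (ξ y) (ξ y) := by
  have hnU := hG.isOpen.mem_nhds hy
  have hdξ : DifferentiableAt ℝ ξ y := (hξ.contDiffAt hnU).differentiableAt (by simp)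
  have hu : ContDiffAt ℝ 2 (fun y => η y (ξ y)) y :=
    ((contDiffOn_u hG hη hξ hd).contDiffAt hnU).of_le ENat.LEInfty.out
  rw [dz_dzbar_moving hu hdξ, bochner_second_curv hG hη hξ hd hy]
  have hdu : DifferentiableAt ℝ (fun y => η y (ξ y)) y := hu.differentiableAt (by norm_num)
  have h1 : dzbar (fun y => η y (ξ y)) y (dzbar ξ y (ξ y))
      = G y (dzbar ξ y (ξ y)) (dzbar ξ y (ξ y)) := by
    have h2 : dzbar (fun y => η y (ξ y)) y (dzbar ξ y (ξ y))
        = dzbar (fun y => conj (η y (ξ y))) y (dzbar ξ y (ξ y)) := by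
      apply dzbar_congr
      filter_upwards [hnU] with z hz
      exact (u_real hG hd hz).symm
    rw [h2, dzbar_conj hdu, bochner_dz_u hG hη hξ hd hy, ← hG.conj_symm y hy]
  rw [h1]
  ring

theorem F_re_nonneg {y : E} (hy : y ∈ U)
    (hnn : ∀ v, 0 ≤ (curvatureTensor (fun y v w => G y v w) y v v v v).re) :
    0 ≤ (dz (fun y => dzbar (fun y => η y (ξ y)) y (ξ y)) y (ξ y)).re := by
  rw [bochner_F hG hη hξ hd hy, Complex.add_re]
  have h1 : (2 * G y (dzbar ξ y (ξ y)) (dzbar ξ y (ξ y))).re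
      = 2 * (G y (dzbar ξ y (ξ y)) (dzbar ξ y (ξ y))).re := by
    simp
  rw [h1]
  have := hG.nonneg hy (dzbar ξ y (ξ y))
  have := hnn (ξ y)
  linarith

/-- If `∂_ξ (∂̄_ξ |η|²)` vanishes identically then `η` is parallel: `∂̄ ξ = 0`. -/
theorem dzbar_dual_eq_zero
    (hnn : ∀ y ∈ U, ∀ v, 0 ≤ (curvatureTensor (fun y v w => G y v w) y v v v v).re)
    (hF : ∀ y ∈ U, (dz (fun y => dzbar (fun y => η y (ξ y)) y (ξ y)) y (ξ y)).re = 0)
    {y : E} (hy : y ∈ U) (a : E) : dzbar ξ y a = 0 := by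
  have hzero : ∀ z ∈ U, dzbar ξ z (ξ z) = 0 ∧
      (curvatureTensor (fun y v w => G y v w) z (ξ z) (ξ z) (ξ z) (ξ z)).re = 0 := by
    intro z hz
    have h := hF z hz
    rw [bochner_F hG hη hξ hd hz, Complex.add_re] at h
    have h1 : (2 * G z (dzbar ξ z (ξ z)) (dzbar ξ z (ξ z))).re
        = 2 * (G z (dzbar ξ z (ξ z)) (dzbar ξ z (ξ z))).re := by
      simp
    rw [h1] at h
    have h2 := hG.nonneg hz (dzbar ξ z (ξ z))
    have h3 := hnn z hz (ξ z)
    refine ⟨?_, by linarith⟩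
    by_contra hne
    have := hG.pos z hz _ hne
    linarith
  have hdz : ∀ z ∈ U, ∀ a, dzbar (fun y => η y (ξ y)) z a = 0 := by
    intro z hz a
    rw [bochner_dzbar_u hG hη hξ hd hz]
    have h1 := bochner_dz_u hG hη hξ hd hz a
    rw [(hzero z hz).1, map_zero] at h1
    have h2 := bochner_symm hG hη hξ hd hz a (ξ z)
    rw [(hzero z hz).1, map_zero] at h2
    rw [hG.conj_symm z hz (ξ z) (dzbar ξ z a), h2, map_zero]
  have h := bochner_second_curv hG hη hξ hd hy a a
  have h0 : dz (fun y => dzbar (fun y => η y (ξ y)) y a) y a = 0 := by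
    have : dz (fun y => dzbar (fun y => η y (ξ y)) y a) y a = dz (fun _ : E => (0:ℂ)) y a := by
      apply dz_congr
      filter_upwards [hG.isOpen.mem_nhds hy] with z hz
      exact hdz z hz a
    rw [this, dz_of_hasFDerivAt (hasFDerivAt_const (0:ℂ) y)]
    simp
  rw [h0] at h
  have hre := congrArg Complex.re h
  rw [Complex.add_re, Complex.zero_re] at hre
  have h2 := hG.nonneg hy (dzbar ξ y a)
  have h3 := hG.curvature_second_variation hy (hnn y hy) (hzero y hy).2 a
  by_contra hne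
  have := hG.pos y hy _ hne
  linarith

/-- the covariant derivative of `η` vanishes -/
theorem form_parallel
    (hnn : ∀ y ∈ U, ∀ v, 0 ≤ (curvatureTensor (fun y v w => G y v w) y v v v v).re)
    (hF : ∀ y ∈ U, (dz (fun y => dzbar (fun y => η y (ξ y)) y (ξ y)) y (ξ y)).re = 0)
    {y : E} (hy : y ∈ U) (a v : E) :
    dz η y a v = η y (christoffel (fun y v w => G y v w) y a v) := by
  rw [bochner_three hG hη hξ hd hy, dzbar_dual_eq_zero hG hη hξ hd hnn hF hy a, map_zero,
    add_zero, ← hd y hy, hG.christoffel_spec hy]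

end dual

end Pool.Agent.Lib.MP_733696_ag
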