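import Pool.Agent.Lib.MP_733696_ag.LocalBochner

/-!
# Pull-back of a Kähler metric under a holomorphic immersion, and the Gauss equation
-/

open scoped ContDiff Topology ComplexConjugate
open Module

namespace Pool.Agent.Lib.MP_733696_ag

variable {E : Type*} [NormedAddCommGroup E] [NormedSpace ℂ E]
variable {E₁ : Type*} [NormedAddCommGroup E₁] [NormedSpace ℂ E₁]
variable {W : Type*} [NormedAddCommGroup W] [NormedSpace ℂ W]

/-- `∂̄` of a holomorphic derivative taken in a moving direction, along a holomorphic map -/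
theorem dzbar_dz_moving {f : E → W} {F : E₁ → E} {F' : E₁ →L[ℂ] E} {a : E₁ → E} {y : E₁}
    (hF : HasFDerivAt F F' y) (hf : ContDiffAt ℝ 2 f (F y))
    (ha : DifferentiableAt ℝ a y) (v : E₁) :
    dzbar (fun y => dz f (F y) (a y)) y v
      = dzbar (fun z => dz f z (a y)) (F y) (F' v) + dz f (F y) (dzbar a y v) := by
  have hd : DifferentiableAt ℝ (fderiv ℝ f) (F y) :=
    (hf.fderiv_right (m := 1) (by norm_num)).differentiableAt (by norm_num)
  have hd1 : HasFDerivAt (fun y => fderiv ℝ f (F y))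
      ((fderiv ℝ (fderiv ℝ f) (F y)).comp (F'.restrictScalars ℝ)) y :=
    hd.hasFDerivAt.comp y (hF.restrictScalars ℝ)
  have haI : HasFDerivAt (fun y => Complex.I • a y) (Complex.I • fderiv ℝ a y) y :=
    ha.hasFDerivAt.const_smul Complex.I
  have h1 : HasFDerivAt (fun y => dz f (F y) (a y)) _ y :=
    ((hd1.clm_apply ha.hasFDerivAt).sub
      ((hd1.clm_apply haI).const_smul Complex.I)).const_smul (2:ℂ)⁻¹
  have h2 : HasFDerivAt (fun z => dz f z (a y)) _ (F y) :=
    ((hd.hasFDerivAt.clm_apply (hasFDerivAt_const (a y) (F y))).sub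
      ((hd.hasFDerivAt.clm_apply (hasFDerivAt_const (Complex.I • a y) (F y))).const_smul
        Complex.I)).const_smul (2:ℂ)⁻¹
  have key : dz f (F y) (dzbar a y v) = (2:ℂ)⁻¹ • (hp (fderiv ℝ f (F y)) (fderiv ℝ a y v)
      + Complex.I • hp (fderiv ℝ f (F y)) (fderiv ℝ a y (Complex.I • v))) := by
    rw [dz_eq_hp f, dzbar, hp_smul, hp_add, hp_smul]
  rw [dzbar_of_hasFDerivAt h1, dzbar_of_hasFDerivAt h2, key]
  simp only [hp, smul_apply, sub_apply, add_apply, ContinuousLinearMap.flip_apply,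
    ContinuousLinearMap.comp_apply, ContinuousLinearMap.comp_zero, zero_apply,
    ContinuousLinearMap.coe_restrictScalars', map_smul]
  module

theorem dz_zero_dir (f : E → W) (y : E) : dz f y 0 = 0 := by simp [dz]

theorem contDiffOn_dz_comp_moving {f : E → W} {U : Set E} (hU : IsOpen U)
    (hf : ContDiffOn ℝ ∞ f U) {V : Set E₁} {F : E₁ → E} (hF : ContDiffOn ℝ ∞ F V)
    (hmaps : ∀ y ∈ V, F y ∈ U) {a : E₁ → E} (ha : ContDiffOn ℝ ∞ a V) :
    ContDiffOn ℝ ∞ (fun y => dz f (F y) (a y)) V := by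
  have h : ContDiffOn ℝ ∞ (fderiv ℝ f) U := hf.fderiv_of_isOpen hU (by simp)
  have h' : ContDiffOn ℝ ∞ (fun y => fderiv ℝ f (F y)) V := h.comp hF hmaps
  exact ((h'.clm_apply ha).sub ((h'.clm_apply (ha.const_smul Complex.I)).const_smul
    Complex.I)).const_smul _

/-- data of a local holomorphic immersion compatible with two families of forms -/
structure LocalPull (V : Set E₁) (U : Set E) (F : E₁ → E) (G₁ : E₁ → E₁ →L[ℝ] E₁ →L[ℝ] ℂ)
    (G : E → E →L[ℝ] E →L[ℝ] ℂ) : Prop where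
  isOpen : IsOpen V
  maps : ∀ y ∈ V, F y ∈ U
  holo : ContDiffOn ℂ ∞ F V
  inj : ∀ y ∈ V, Function.Injective (fderiv ℂ F y)
  rel : ∀ y ∈ V, ∀ v w, G₁ y v w = G (F y) (fderiv ℂ F y v) (fderiv ℂ F y w)

namespace LocalPull

variable {V : Set E₁} {U : Set E} {F : E₁ → E} {G₁ : E₁ → E₁ →L[ℝ] E₁ →L[ℝ] ℂ}
    {G : E → E →L[ℝ] E →L[ℝ] ℂ} (hP : LocalPull V U F G₁ G) (hG : LocalKahler U G)

include hP

theorem hasFDerivAt {y : E₁} (hy : y ∈ V) : HasFDerivAt F (fderiv ℂ F y) y :=
  ((hP.holo.contDiffAt (hP.isOpen.mem_nhds hy)).differentiableAt (by simp)).hasFDerivAt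

theorem contDiffOn_fderiv : ContDiffOn ℂ ∞ (fderiv ℂ F) V :=
  hP.holo.fderiv_of_isOpen hP.isOpen (by simp)

theorem hasFDerivAt_second {y : E₁} (hy : y ∈ V) (v : E₁) :
    HasFDerivAt (fun y => fderiv ℂ F y v) ((fderiv ℂ (fderiv ℂ F) y).flip v) y := by
  have h : HasFDerivAt (fderiv ℂ F) (fderiv ℂ (fderiv ℂ F) y) y :=
    ((hP.contDiffOn_fderiv.contDiffAt (hP.isOpen.mem_nhds hy)).differentiableAt
      (by simp)).hasFDerivAt
  have := h.clm_apply (hasFDerivAt_const v y)
  convert! this using 1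
  ext w; simp

theorem second_symm {y : E₁} (hy : y ∈ V) (u v : E₁) :
    fderiv ℂ (fderiv ℂ F) y u v = fderiv ℂ (fderiv ℂ F) y v u := by
  have hs : IsSymmSndFDerivAt ℂ F y :=
    (hP.holo.contDiffAt (hP.isOpen.mem_nhds hy)).isSymmSndFDerivAt (by
      simp only [minSmoothness_of_isRCLikeNormedField]
      exact ENat.LEInfty.out)
  exact hs.eq u v

theorem smooth_F : ContDiffOn ℝ ∞ F V := hP.holo.restrict_scalars ℝ

theorem smooth_dF (v : E₁) : ContDiffOn ℝ ∞ (fun y => fderiv ℂ F y v) V :=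
  (hP.contDiffOn_fderiv.clm_apply contDiffOn_const).restrict_scalars ℝ

include hG

theorem smooth_comp : ContDiffOn ℝ ∞ (fun y => G (F y)) V :=
  hG.smooth.comp hP.smooth_F hP.maps

theorem smooth_G₁ [FiniteDimensional ℂ E₁] : ContDiffOn ℝ ∞ G₁ V := by
  rw [contDiffOn_clm_apply]
  intro v
  rw [contDiffOn_clm_apply]
  intro w
  refine ContDiffOn.congr (f := fun y => G (F y) (fderiv ℂ F y v) (fderiv ℂ F y w)) ?_ ?_
  · exact ((hP.smooth_comp hG).clm_apply (hP.smooth_dF v)).clm_apply (hP.smooth_dF w)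
  · intro y hy
    exact hP.rel y hy v w

/-- first derivative of the pulled back metric -/
theorem dz_G₁ [FiniteDimensional ℂ E₁] {y : E₁} (hy : y ∈ V) (u v w : E₁) :
    dz G₁ y u v w = dz G (F y) (fderiv ℂ F y u) (fderiv ℂ F y v) (fderiv ℂ F y w)
      + G (F y) (fderiv ℂ (fderiv ℂ F) y u v) (fderiv ℂ F y w) := by
  have hnV := hP.isOpen.mem_nhds hy
  have hd1 : DifferentiableAt ℝ G₁ y :=
    ((hP.smooth_G₁ hG).contDiffAt hnV).differentiableAt (by simp)
  have hdG : DifferentiableAt ℝ (fun y => G (F y)) y :=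
    ((hP.smooth_comp hG).contDiffAt hnV).differentiableAt (by simp)
  have hdv : ∀ v, DifferentiableAt ℝ (fun y => fderiv ℂ F y v) y := fun v =>
    ((hP.smooth_dF v).contDiffAt hnV).differentiableAt (by simp)
  have hU := hP.maps y hy
  rw [← dz_eval₂ hd1]
  have h1 : dz (fun y => G₁ y v w) y u
      = dz (fun y => G (F y) (fderiv ℂ F y v) (fderiv ℂ F y w)) y u := by
    apply dz_congr
    filter_upwards [hnV] with z hz
    exact hP.rel z hz v w
  rw [h1, dz_pairing hdG (hdv v) (hdv w) (fun c v w => hG.smul_left _ hU c v w)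
    (fun c v w => hG.smul_right hU c v w), dz_of_holo (hP.hasFDerivAt_second hy v),
    dzbar_of_holo (hP.hasFDerivAt_second hy w), dz_comp (hP.hasFDerivAt hy) (hG.diff hU)]
  simp

/-- the pulled back metric is Kähler -/
theorem localKahler [FiniteDimensional ℂ E₁] : LocalKahler V G₁ where
  isOpen := hP.isOpen
  smooth := hP.smooth_G₁ hG
  smul_left := by
    intro y hy c v w
    rw [hP.rel y hy, hP.rel y hy, map_smul, hG.smul_left _ (hP.maps y hy)]
  conj_symm := by
    intro y hy v w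
    rw [hP.rel y hy, hP.rel y hy, hG.conj_symm _ (hP.maps y hy)]
  pos := by
    intro y hy v hv
    rw [hP.rel y hy]
    apply hG.pos _ (hP.maps y hy)
    intro h0
    exact hv (hP.inj y hy (by rw [h0, map_zero]))
  kahler := by
    intro y hy u v w
    rw [hP.dz_G₁ hG hy, hP.dz_G₁ hG hy, hG.kahler _ (hP.maps y hy), hP.second_symm hy]

/-- second derivative of the pulled back metric, on one vector -/
theorem second_G₁ [FiniteDimensional ℂ E] [FiniteDimensional ℂ E₁] {y : E₁} (hy : y ∈ V)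
    (v : E₁) :
    dzbar (fun y' => dz G₁ y' v) y v v v
      = dzbar (fun z => dz G z (fderiv ℂ F y v)) (F y) (fderiv ℂ F y v) (fderiv ℂ F y v)
          (fderiv ℂ F y v)
        + G (F y) (christoffel (fun y v w => G y v w) (F y) (fderiv ℂ F y v) (fderiv ℂ F y v)
            + fderiv ℂ (fderiv ℂ F) y v v)
          (christoffel (fun y v w => G y v w) (F y) (fderiv ℂ F y v) (fderiv ℂ F y v)
            + fderiv ℂ (fderiv ℂ F) y v v)
        - G (F y) (christoffel (fun y v w => G y v w) (F y) (fderiv ℂ F y v) (fderiv ℂ F y v))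
          (christoffel (fun y v w => G y v w) (F y) (fderiv ℂ F y v) (fderiv ℂ F y v)) := by
  have hnV := hP.isOpen.mem_nhds hy
  have hU := hP.maps y hy
  have hnU := hG.isOpen.mem_nhds hU
  have hK := hP.localKahler hG
  have hdG1 : DifferentiableAt ℝ (fun y => dz G₁ y v) y :=
    ((contDiffOn_dz hP.isOpen (hP.smooth_G₁ hG) v).contDiffAt hnV).differentiableAt (by simp)
  have hdG : DifferentiableAt ℝ (fun y => G (F y)) y :=
    ((hP.smooth_comp hG).contDiffAt hnV).differentiableAt (by simp)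
  have hdv : ∀ v, DifferentiableAt ℝ (fun y => fderiv ℂ F y v) y := fun v =>
    ((hP.smooth_dF v).contDiffAt hnV).differentiableAt (by simp)
  -- the second derivative `B(y) = F''(y)(v,v)` is holomorphic
  have hB : HasFDerivAt (fun y => fderiv ℂ (fderiv ℂ F) y v v)
      (fderiv ℂ (fun y => fderiv ℂ (fderiv ℂ F) y v v) y) y := by
    have h1 : ContDiffOn ℂ ∞ (fderiv ℂ (fderiv ℂ F)) V :=
      hP.contDiffOn_fderiv.fderiv_of_isOpen hP.isOpen (by simp)
    exact ((((h1.clm_apply contDiffOn_const).clm_apply contDiffOn_const).contDiffAt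
      hnV).differentiableAt (by simp)).hasFDerivAt
  -- the form valued function `P(y) = ∂_{A(y)} G (F y)`
  have hPsm : ContDiffAt ℝ ∞ (fun y => dz G (F y) (fderiv ℂ F y v)) y := by
    have h2 : ContDiffOn ℝ ∞ (fun y => dz G (F y) (fderiv ℂ F y v)) V :=
      contDiffOn_dz_comp_moving (W := E →L[ℝ] E →L[ℝ] ℂ) (f := G) hG.isOpen hG.smooth
        hP.smooth_F hP.maps (hP.smooth_dF v)
    exact h2.contDiffAt hnV
  have hdP : DifferentiableAt ℝ (fun y => dz G (F y) (fderiv ℂ F y v)) y :=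
    hPsm.differentiableAt (by simp)
  rw [← dzbar_eval₂ hdG1]
  have h1 : dzbar (fun y' => dz G₁ y' v v v) y v
      = dzbar (fun y' => dz G (F y') (fderiv ℂ F y' v) (fderiv ℂ F y' v) (fderiv ℂ F y' v)
        + G (F y') (fderiv ℂ (fderiv ℂ F) y' v v) (fderiv ℂ F y' v)) y v := by
    apply dzbar_congr
    filter_upwards [hnV] with z hz
    exact hP.dz_G₁ hG hz v v v
  have hd2 : DifferentiableAt ℝ (fun y' => dz G (F y') (fderiv ℂ F y' v) (fderiv ℂ F y' v)
      (fderiv ℂ F y' v)) y := (hdP.clm_apply (hdv v)).clm_apply (hdv v)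
  have hBd : DifferentiableAt ℝ (fun y => fderiv ℂ (fderiv ℂ F) y v v) y :=
    (hB.restrictScalars ℝ).differentiableAt
  have hd3 : DifferentiableAt ℝ (fun y' => G (F y') (fderiv ℂ (fderiv ℂ F) y' v v)
      (fderiv ℂ F y' v)) y := (hdG.clm_apply hBd).clm_apply (hdv v)
  have hadd : ∀ {f g : E₁ → ℂ}, DifferentiableAt ℝ f y → DifferentiableAt ℝ g y →
      dzbar (fun y => f y + g y) y v = dzbar f y v + dzbar g y v := by
    intro f g hf hg
    have h : HasFDerivAt (fun y => f y + g y) _ y := hf.hasFDerivAt.add hg.hasFDerivAt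
    rw [dzbar_of_hasFDerivAt h, dzbar, dzbar]
    simp only [add_apply, smul_eq_mul]
    ring
  rw [h1, hadd hd2 hd3,
    dzbar_pairing hdP (hdv v) (hdv v) (fun c v' w => hG.dz_smul_left hU _ c v' w)
      (fun c v' w => hG.dz_smul_right hU _ c v' w),
    dzbar_pairing hdG hBd (hdv v) (fun c v' w => hG.smul_left _ hU c v' w)
      (fun c v' w => hG.smul_right hU c v' w),
    dzbar_of_holo (hP.hasFDerivAt_second hy v), dz_of_holo (hP.hasFDerivAt_second hy v),
    dzbar_of_holo hB, dzbar_comp (hP.hasFDerivAt hy) (hG.diff hU),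
    dzbar_dz_moving (hP.hasFDerivAt hy)
      ((hG.smooth.contDiffAt hnU).of_le ENat.LEInfty.out) (hdv v),
    dzbar_of_holo (hP.hasFDerivAt_second hy v)]
  rw [hG.dzbar_eq_conj hU]
  set A := fderiv ℂ F y v
  set B := fderiv ℂ (fderiv ℂ F) y v v
  set Γ := christoffel (fun y v w => G y v w) (F y) A A
  have hΓ : dz G (F y) A A B = G (F y) Γ B := (hG.christoffel_spec hU A A B).symm
  have hflip : (fderiv ℂ (fderiv ℂ F) y).flip v v = B := rfl
  rw [hflip, hΓ, ← hG.conj_symm _ hU Γ B]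
  have hz : dz G (F y) (0 : E) = 0 := dz_zero_dir G (F y)
  simp only [map_zero, zero_apply, add_zero, map_add, add_apply, hz]
  ring

/-- **Gauss equation** (for one vector): if `Γ(F'v, F'v) + F''(v,v)` is tangent, then the
curvature of the pulled back metric on `v` is the ambient curvature on `F'v`. -/
theorem curvature_pull [FiniteDimensional ℂ E] [FiniteDimensional ℂ E₁] {y : E₁} (hy : y ∈ V)
    (v : E₁)
    (ht : ∃ t : E₁, christoffel (fun y v w => G y v w) (F y) (fderiv ℂ F y v) (fderiv ℂ F y v)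
      + fderiv ℂ (fderiv ℂ F) y v v = fderiv ℂ F y t) :
    curvatureTensor (fun y v w => G₁ y v w) y v v v v
      = curvatureTensor (fun y v w => G y v w) (F y) (fderiv ℂ F y v) (fderiv ℂ F y v)
          (fderiv ℂ F y v) (fderiv ℂ F y v) := by
  have hU := hP.maps y hy
  have hK := hP.localKahler hG
  obtain ⟨t, ht⟩ := ht
  have hΓ1 : t = christoffel (fun y v w => G₁ y v w) y v v := by
    apply hK.eq_christoffel hy
    intro w
    rw [hP.rel y hy, ← ht, hP.dz_G₁ hG hy, map_add, add_apply, hG.christoffel_spec hU]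
  rw [hK.curvature_eq hy, hG.curvature_eq hU, hP.second_G₁ hG hy, ← hΓ1, hP.rel y hy t t, ← ht]
  ring

end LocalPull

end Pool.Agent.Lib.MP_733696_ag
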