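import Pool.Agent.Lib.MP_733696_ag.Defs
import Pool.Agent.Lib.MP_733696_ag.LocalPullback

/-!
# From manifolds to charts
-/

open scoped Manifold ContDiff Topology ComplexConjugate
open Module Set

namespace Pool.Agent.Lib.MP_733696_ag

variable {E : Type*} [NormedAddCommGroup E] [NormedSpace ℂ E]
variable {X : Type*} [TopologicalSpace X] [ChartedSpace E X]
variable {F : Type*} [NormedAddCommGroup F] [NormedSpace ℂ F]
variable {Z : Type*} [TopologicalSpace Z] [ChartedSpace F Z]

/-- the algebraic part of the definition of a Hermitian metric -/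
structure IsHermitian
    (h : ∀ x : X, TangentSpace 𝓘(ℂ, E) x → TangentSpace 𝓘(ℂ, E) x → ℂ) : Prop where
  add_left : ∀ (x : X) (u v w : TangentSpace 𝓘(ℂ, E) x), h x (u + v) w = h x u w + h x v w
  smul_left : ∀ (x : X) (c : ℂ) (v w : TangentSpace 𝓘(ℂ, E) x), h x (c • v) w = c * h x v w
  conj_symm : ∀ (x : X) (v w : TangentSpace 𝓘(ℂ, E) x), h x w v = conj (h x v w)
  pos : ∀ (x : X) (v : TangentSpace 𝓘(ℂ, E) x), v ≠ 0 → 0 < (h x v v).re

theorem IsKahlerMetric.isHermitian
    {h : ∀ x : X, TangentSpace 𝓘(ℂ, E) x → TangentSpace 𝓘(ℂ, E) x → ℂ} (hh : IsKahlerMetric h) :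
    IsHermitian h := ⟨hh.add_left, hh.smul_left, hh.conj_symm, hh.pos⟩

namespace IsHermitian

variable {h : ∀ x : X, TangentSpace 𝓘(ℂ, E) x → TangentSpace 𝓘(ℂ, E) x → ℂ}
  (hh : IsHermitian h)
include hh

theorem add_right (x : X) (u v w : TangentSpace 𝓘(ℂ, E) x) :
    h x w (u + v) = h x w u + h x w v := by
  rw [hh.conj_symm x (u + v) w, hh.add_left, map_add, ← hh.conj_symm, ← hh.conj_symm]

theorem smul_right (x : X) (c : ℂ) (v w : TangentSpace 𝓘(ℂ, E) x) :
    h x v (c • w) = conj c * h x v w := by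
  rw [hh.conj_symm x (c • w) v, hh.smul_left, map_mul, ← hh.conj_symm]

theorem local_add_left (e : OpenPartialHomeomorph X E) (y u v w : E) :
    localForm h e y (u + v) w = localForm h e y u w + localForm h e y v w := by
  have h1 : mfderiv 𝓘(ℂ, E) 𝓘(ℂ, E) e.symm y (u + v : E)
      = mfderiv 𝓘(ℂ, E) 𝓘(ℂ, E) e.symm y u + mfderiv 𝓘(ℂ, E) 𝓘(ℂ, E) e.symm y v :=
    (mfderiv 𝓘(ℂ, E) 𝓘(ℂ, E) e.symm y).map_add u v
  unfold localForm
  rw [h1]
  exact hh.add_left _ _ _ _

theorem local_smul_left (e : OpenPartialHomeomorph X E) (y : E) (c : ℂ) (v w : E) :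
    localForm h e y (c • v) w = c * localForm h e y v w := by
  have h1 : mfderiv 𝓘(ℂ, E) 𝓘(ℂ, E) e.symm y (c • v : E)
      = c • mfderiv 𝓘(ℂ, E) 𝓘(ℂ, E) e.symm y v :=
    (mfderiv 𝓘(ℂ, E) 𝓘(ℂ, E) e.symm y).map_smul c v
  unfold localForm
  rw [h1]
  exact hh.smul_left _ _ _ _

theorem local_conj (e : OpenPartialHomeomorph X E) (y v w : E) :
    localForm h e y w v = conj (localForm h e y v w) := hh.conj_symm _ _ _

theorem local_add_right (e : OpenPartialHomeomorph X E) (y u v w : E) :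
    localForm h e y w (u + v) = localForm h e y w u + localForm h e y w v := by
  rw [hh.local_conj e y (u + v) w, hh.local_add_left, map_add, ← hh.local_conj, ← hh.local_conj]

theorem local_smul_right (e : OpenPartialHomeomorph X E) (y : E) (c : ℂ) (v w : E) :
    localForm h e y v (c • w) = conj c * localForm h e y v w := by
  rw [hh.local_conj e y (c • w) v, hh.local_smul_left, map_mul, ← hh.local_conj]

variable [FiniteDimensional ℂ E]

/-- the local form as a continuous real bilinear map -/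
noncomputable def clm (e : OpenPartialHomeomorph X E) (y : E) : E →L[ℝ] E →L[ℝ] ℂ :=
  (LinearMap.mk₂ ℝ (fun v w => localForm h e y v w)
    (fun u v w => hh.local_add_left e y u v w)
    (fun c v w => by
      have := hh.local_smul_left e y (c : ℂ) v w
      simpa using this)
    (fun u v w => hh.local_add_right e y v w u)
    (fun c v w => by
      have := hh.local_smul_right e y (c : ℂ) v w
      simpa using this)).toContinuousBilinearMap

theorem clm_apply (e : OpenPartialHomeomorph X E) (y v w : E) :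
    hh.clm e y v w = localForm h e y v w := rfl

theorem clm_eq (e : OpenPartialHomeomorph X E) :
    (fun y v w => hh.clm e y v w) = localForm h e := rfl

end IsHermitian

theorem mfderiv_symm_injective [IsManifold 𝓘(ℂ, E) ω X] {e : OpenPartialHomeomorph X E}
    (he : e ∈ atlas E X) {y : E} (hy : y ∈ e.target) :
    Function.Injective (mfderiv 𝓘(ℂ, E) 𝓘(ℂ, E) e.symm y) := by
  have : IsManifold 𝓘(ℂ, E) 1 X := IsManifold.of_le (n := ω) le_top
  have h1 : MDifferentiableAt 𝓘(ℂ, E) 𝓘(ℂ, E) e.symm y := mdifferentiableAt_atlas_symm he hy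
  have h2 : MDifferentiableAt 𝓘(ℂ, E) 𝓘(ℂ, E) e (e.symm y) :=
    mdifferentiableAt_atlas he (e.map_target hy)
  have h3 := mfderiv_comp y h2 h1
  have h4 : (e ∘ e.symm) =ᶠ[𝓝 y] id := by
    filter_upwards [e.open_target.mem_nhds hy] with z hz using e.right_inv hz
  have h5 : mfderiv 𝓘(ℂ, E) 𝓘(ℂ, E) (e ∘ e.symm) y = mfderiv 𝓘(ℂ, E) 𝓘(ℂ, E) (id : E → E) y :=
    h4.mfderiv_eq
  rw [mfderiv_id] at h5
  rw [h5] at h3
  intro u v huv
  have h6 : ∀ u : E, mfderiv 𝓘(ℂ, E) 𝓘(ℂ, E) e (e.symm y) (mfderiv 𝓘(ℂ, E) 𝓘(ℂ, E) e.symm y u)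
      = u := by
    intro u
    have := congrArg (fun L => L u) h3
    exact this.symm
  have h7 := h6 u
  rw [huv] at h7
  exact h7.symm.trans (h6 v)

theorem IsKahlerMetric.localKahler [FiniteDimensional ℂ E] [IsManifold 𝓘(ℂ, E) ω X]
    {h : ∀ x : X, TangentSpace 𝓘(ℂ, E) x → TangentSpace 𝓘(ℂ, E) x → ℂ} (hh : IsKahlerMetric h)
    {e : OpenPartialHomeomorph X E} (he : e ∈ atlas E X) :
    LocalKahler e.target (hh.isHermitian.clm e) := by
  have hsm : ContDiffOn ℝ ∞ (hh.isHermitian.clm e) e.target := by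
    rw [contDiffOn_clm_apply]
    intro v
    rw [contDiffOn_clm_apply]
    intro w
    exact hh.smooth e he v w
  refine ⟨e.open_target, hsm, ?_, ?_, ?_, ?_⟩
  · intro y _ c v w
    exact hh.isHermitian.local_smul_left e y c v w
  · intro y _ v w
    exact hh.isHermitian.local_conj e y v w
  · intro y hy v hv
    apply hh.pos
    intro h0
    apply hv
    apply mfderiv_symm_injective he hy
    rw [h0]
    exact ((mfderiv 𝓘(ℂ, E) 𝓘(ℂ, E) e.symm y).map_zero).symm
  · intro y hy u v w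
    have hd : DifferentiableAt ℝ (hh.isHermitian.clm e) y :=
      (hsm.contDiffAt (e.open_target.mem_nhds hy)).differentiableAt (by simp)
    rw [← dz_eval₂ hd, ← dz_eval₂ hd]
    exact hh.closed e he y hy u v w

section charts

variable [IsManifold 𝓘(ℂ, E) ω X] [IsManifold 𝓘(ℂ, F) ω Z]
variable {f : Z → X} (hf : ContMDiff 𝓘(ℂ, F) 𝓘(ℂ, E) ω f)
variable {e : OpenPartialHomeomorph Z F} (he : e ∈ atlas F Z)
variable {c : OpenPartialHomeomorph X E} (hc : c ∈ atlas E X)

/-- the domain of the coordinate expression of `f` -/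
def chartDom (f : Z → X) (e : OpenPartialHomeomorph Z F) (c : OpenPartialHomeomorph X E) :
    Set F := e.target ∩ (fun y => f (e.symm y)) ⁻¹' c.source

/-- the coordinate expression of `f` -/
def chartMap (f : Z → X) (e : OpenPartialHomeomorph Z F) (c : OpenPartialHomeomorph X E) :
    F → E := fun y => c (f (e.symm y))

include hf in
omit [IsManifold 𝓘(ℂ, E) ω X] [IsManifold 𝓘(ℂ, F) ω Z] in
theorem isOpen_chartDom : IsOpen (chartDom f e c) := by
  have h1 : ContinuousOn (fun y => f (e.symm y)) e.target :=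
    hf.continuous.comp_continuousOn e.continuousOn_symm
  exact h1.isOpen_inter_preimage e.open_target c.open_source

include hf he hc

theorem contDiffOn_chartMap : ContDiffOn ℂ ω (chartMap f e c) (chartDom f e c) := by
  rw [← contMDiffOn_iff_contDiffOn]
  have h1 : ContMDiffOn 𝓘(ℂ, E) 𝓘(ℂ, E) ω c c.source :=
    contMDiffOn_of_mem_maximalAtlas (IsManifold.subset_maximalAtlas hc)
  have h2 : ContMDiffOn 𝓘(ℂ, F) 𝓘(ℂ, F) ω e.symm e.target :=
    contMDiffOn_symm_of_mem_maximalAtlas (IsManifold.subset_maximalAtlas he)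
  have h3 : ContMDiffOn 𝓘(ℂ, F) 𝓘(ℂ, E) ω (f ∘ e.symm) (chartDom f e c) :=
    (hf.comp_contMDiffOn h2).mono inter_subset_left
  exact h1.comp h3 (fun y hy => hy.2)

theorem mfderiv_chain {y : F} (hy : y ∈ chartDom f e c) (v : F) :
    (mfderiv 𝓘(ℂ, F) 𝓘(ℂ, E) f (e.symm y) (mfderiv 𝓘(ℂ, F) 𝓘(ℂ, F) e.symm y v) : E)
      = (mfderiv 𝓘(ℂ, E) 𝓘(ℂ, E) c.symm (chartMap f e c y) (fderiv ℂ (chartMap f e c) y v) : E) := by
  have : IsManifold 𝓘(ℂ, E) 1 X := IsManifold.of_le (n := ω) le_top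
  have : IsManifold 𝓘(ℂ, F) 1 Z := IsManifold.of_le (n := ω) le_top
  have hV := (isOpen_chartDom hf (e := e) (c := c)).mem_nhds hy
  have h1 : MDifferentiableAt 𝓘(ℂ, F) 𝓘(ℂ, F) e.symm y := mdifferentiableAt_atlas_symm he hy.1
  have h2 : MDifferentiableAt 𝓘(ℂ, F) 𝓘(ℂ, E) f (e.symm y) :=
    (hf.contMDiffAt).mdifferentiableAt (by simp)
  have h3 := mfderiv_comp y h2 h1
  have h4 : MDifferentiableAt 𝓘(ℂ, E) 𝓘(ℂ, E) c.symm (chartMap f e c y) :=
    mdifferentiableAt_atlas_symm hc (c.map_source hy.2)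
  have h5 : MDifferentiableAt 𝓘(ℂ, F) 𝓘(ℂ, E) (chartMap f e c) y := by
    rw [mdifferentiableAt_iff_differentiableAt]
    exact ((contDiffOn_chartMap hf he hc).contDiffAt hV).differentiableAt (by simp)
  have h6 := mfderiv_comp y h4 h5
  have h7 : (f ∘ e.symm) =ᶠ[𝓝 y] (c.symm ∘ chartMap f e c) := by
    filter_upwards [hV] with z hz
    simp only [Function.comp, chartMap]
    exact (c.left_inv hz.2).symm
  have h8 : mfderiv 𝓘(ℂ, F) 𝓘(ℂ, E) (f ∘ e.symm) y
      = (mfderiv 𝓘(ℂ, F) 𝓘(ℂ, E) (c.symm ∘ chartMap f e c) y : _) := h7.mfderiv_eq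
  rw [h3, h6, mfderiv_eq_fderiv] at h8
  exact congrArg (fun L => L v) h8

theorem localForm_pull (h : ∀ x : X, TangentSpace 𝓘(ℂ, E) x → TangentSpace 𝓘(ℂ, E) x → ℂ)
    {y : F} (hy : y ∈ chartDom f e c) (v w : F) :
    localForm (pullForm f h) e y v w
      = localForm h c (chartMap f e c y) (fderiv ℂ (chartMap f e c) y v)
          (fderiv ℂ (chartMap f e c) y w) := by
  have hx : c.symm (chartMap f e c y) = f (e.symm y) := c.left_inv hy.2
  have hv := mfderiv_chain hf he hc hy v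
  have hw := mfderiv_chain hf he hc hy w
  have key : ∀ (x x' : X) (hxx : x = x') (a b a' b' : E), a = a' → b = b' →
      h x (a : E) (b : E) = h x' (a' : E) (b' : E) := by
    intro x x' hxx a b a' b' ha hb
    subst hxx ha hb
    rfl
  exact key _ _ hx.symm _ _ _ _ hv hw

end charts

theorem IsHermitian.pull {h : ∀ x : X, TangentSpace 𝓘(ℂ, E) x → TangentSpace 𝓘(ℂ, E) x → ℂ}
    (hh : IsHermitian h) {f : Z → X} (hf : IsHolImmersion (E := E) (F := F) f) :
    IsHermitian (pullForm (F := F) f h) where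
  add_left := by
    intro x u v w
    unfold pullForm
    rw [map_add]
    exact hh.add_left _ _ _ _
  smul_left := by
    intro x c v w
    unfold pullForm
    rw [map_smul]
    exact hh.smul_left _ _ _ _
  conj_symm := by
    intro x v w
    exact hh.conj_symm _ _ _
  pos := by
    intro x v hv
    apply hh.pos
    intro h0
    apply hv
    apply hf.inj x
    rw [h0, map_zero]

section pull

variable [IsManifold 𝓘(ℂ, E) ω X] [IsManifold 𝓘(ℂ, F) ω Z]
variable [FiniteDimensional ℂ E] [FiniteDimensional ℂ F]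
variable {h : ∀ x : X, TangentSpace 𝓘(ℂ, E) x → TangentSpace 𝓘(ℂ, E) x → ℂ}
  (hh : IsKahlerMetric h)
variable {f : Z → X} (hf : IsHolImmersion (E := E) (F := F) f)
variable {e : OpenPartialHomeomorph Z F} (he : e ∈ atlas F Z)
variable {c : OpenPartialHomeomorph X E} (hc : c ∈ atlas E X)

include hh hf

include he hc in
theorem localPull : LocalPull (chartDom f e c) c.target (chartMap f e c)
    ((hh.isHermitian.pull hf).clm e) (hh.isHermitian.clm c) where
  isOpen := isOpen_chartDom hf.holo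
  maps := fun y hy => c.map_source hy.2
  holo := (contDiffOn_chartMap hf.holo he hc).of_le le_top
  inj := by
    intro y hy u v huv
    have hu := mfderiv_chain hf.holo he hc hy u
    have hv := mfderiv_chain hf.holo he hc hy v
    rw [huv, ← hv] at hu
    exact mfderiv_symm_injective he hy.1 (hf.inj _ hu)
  rel := fun y hy v w => localForm_pull hf.holo he hc h hy v w

/-- the pull back of a Kähler metric under a holomorphic immersion is Kähler -/
theorem IsKahlerMetric.pull : IsKahlerMetric (pullForm (F := F) f h) := by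
  have hH := hh.isHermitian.pull hf
  refine ⟨hH.add_left, hH.smul_left, hH.conj_symm, hH.pos, ?_, ?_⟩
  · intro e he v w y hy
    apply ContDiffAt.contDiffWithinAt
    have hP := localPull hh hf he (chart_mem_atlas E (f (e.symm y)))
    have hyV : y ∈ chartDom f e (chartAt E (f (e.symm y))) :=
      ⟨hy, mem_chart_source E (f (e.symm y))⟩
    have hK := hP.localKahler (hh.localKahler (chart_mem_atlas E (f (e.symm y))))
    have h1 := (hK.smooth.clm_apply (g := fun _ => v) contDiffOn_const).clm_apply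
      (g := fun _ => w) contDiffOn_const
    exact h1.contDiffAt (hK.isOpen.mem_nhds hyV)
  · intro e he y hy u v w
    have hP := localPull hh hf he (chart_mem_atlas E (f (e.symm y)))
    have hyV : y ∈ chartDom f e (chartAt E (f (e.symm y))) :=
      ⟨hy, mem_chart_source E (f (e.symm y))⟩
    have hK := hP.localKahler (hh.localKahler (chart_mem_atlas E (f (e.symm y))))
    have h1 := hK.kahler y hyV u v w
    rw [← dz_eval₂ (hK.diff hyV), ← dz_eval₂ (hK.diff hyV)] at h1
    exact h1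

end pull

section hsc

variable [IsManifold 𝓘(ℂ, E) ω X]

omit [IsManifold 𝓘(ℂ, E) ω X] in
theorem isHolImmersion_id : IsHolImmersion (E := E) (F := E) (id : X → X) where
  holo := contMDiff_id
  inj := by
    intro z u v huv
    rw [mfderiv_id] at huv
    exact huv

omit [IsManifold 𝓘(ℂ, E) ω X] in
theorem pullForm_id (h : ∀ x : X, TangentSpace 𝓘(ℂ, E) x → TangentSpace 𝓘(ℂ, E) x → ℂ) :
    pullForm (F := E) (id : X → X) h = h := by
  funext x v w
  simp only [pullForm, mfderiv_id]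
  rfl

theorem mfderiv_chart_comp_symm {c : OpenPartialHomeomorph X E} (hc : c ∈ atlas E X) {x : X}
    (hx : x ∈ c.source) (u : E) :
    (mfderiv 𝓘(ℂ, E) 𝓘(ℂ, E) c x (mfderiv 𝓘(ℂ, E) 𝓘(ℂ, E) c.symm (c x) u : E) : E) = u := by
  have : IsManifold 𝓘(ℂ, E) 1 X := IsManifold.of_le (n := ω) le_top
  have hy : c x ∈ c.target := c.map_source hx
  have h1 : MDifferentiableAt 𝓘(ℂ, E) 𝓘(ℂ, E) c.symm (c x) := mdifferentiableAt_atlas_symm hc hy
  have h2 : MDifferentiableAt 𝓘(ℂ, E) 𝓘(ℂ, E) c (c.symm (c x)) :=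
    mdifferentiableAt_atlas hc (c.map_target hy)
  have h3 := mfderiv_comp (c x) h2 h1
  have h4 : (c ∘ c.symm) =ᶠ[𝓝 (c x)] id := by
    filter_upwards [c.open_target.mem_nhds hy] with z hz using c.right_inv hz
  have h5 : mfderiv 𝓘(ℂ, E) 𝓘(ℂ, E) (c ∘ c.symm) (c x)
      = mfderiv 𝓘(ℂ, E) 𝓘(ℂ, E) (id : E → E) (c x) := h4.mfderiv_eq
  rw [mfderiv_id] at h5
  rw [h5] at h3
  have h6 : (mfderiv 𝓘(ℂ, E) 𝓘(ℂ, E) c (c.symm (c x))
      (mfderiv 𝓘(ℂ, E) 𝓘(ℂ, E) c.symm (c x) u : E) : E) = u :=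
    (congrArg (fun L => L u) h3).symm
  have h7 : ∀ x', x' = x → (mfderiv 𝓘(ℂ, E) 𝓘(ℂ, E) c x' : E →L[ℂ] E)
      = (mfderiv 𝓘(ℂ, E) 𝓘(ℂ, E) c x : E →L[ℂ] E) := by
    rintro _ rfl; rfl
  have h8 := h7 _ (c.left_inv hx)
  have h9 : (mfderiv 𝓘(ℂ, E) 𝓘(ℂ, E) c (c.symm (c x)) : E →L[ℂ] E)
      (mfderiv 𝓘(ℂ, E) 𝓘(ℂ, E) c.symm (c x) u : E) = u := h6
  rw [h8] at h9
  exact h9

variable [FiniteDimensional ℂ E]
variable {h : ∀ x : X, TangentSpace 𝓘(ℂ, E) x → TangentSpace 𝓘(ℂ, E) x → ℂ}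

/-- semi-positivity of the holomorphic sectional curvature in all charts -/
theorem SemiPositiveHSC.in_chart (hh : IsKahlerMetric h) (hs : SemiPositiveHSC h)
    {e : OpenPartialHomeomorph X E} (he : e ∈ atlas E X) {y : E} (hy : y ∈ e.target) (v : E) :
    0 ≤ (curvatureTensor (localForm h e) y v v v v).re := by
  by_cases hv : v = 0
  · have hK := hh.localKahler he
    have h1 := hK.curvature_smul_one hy 0 0 v v v
    rw [zero_smul, zero_mul] at h1
    subst hv
    have h2 : curvatureTensor (localForm h e) y (0:E) 0 0 0 = 0 := h1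
    rw [h2]
    simp
  set x := e.symm y with hx
  set c := chartAt E x with hcdef
  have hc : c ∈ atlas E X := chart_mem_atlas E x
  have hP := localPull hh (isHolImmersion_id (E := E) (X := X)) he hc
  have hyV : y ∈ chartDom (id : X → X) e c := ⟨hy, mem_chart_source E x⟩
  have hK := hh.localKahler hc
  have hsurj : Function.Surjective (fderiv ℂ (chartMap (id : X → X) e c) y) :=
    LinearMap.injective_iff_surjective.1 (hP.inj y hyV)
  have hcurv := hP.curvature_pull hK hyV v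
    (by obtain ⟨t, ht⟩ := hsurj (christoffel (fun y v w => hh.isHermitian.clm c y v w)
          (chartMap (id : X → X) e c y) (fderiv ℂ (chartMap (id : X → X) e c) y v)
          (fderiv ℂ (chartMap (id : X → X) e c) y v)
          + fderiv ℂ (fderiv ℂ (chartMap (id : X → X) e c)) y v v)
        exact ⟨t, ht.symm⟩)
  have hl : (fun y v w => (hh.isHermitian.pull (isHolImmersion_id (E := E) (X := X))).clm e y v w)
      = localForm h e := by
    have : localForm (pullForm (F := E) (id : X → X) h) e = localForm h e := by rw [pullForm_id]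
    exact this
  rw [hl] at hcurv
  rw [hcurv]
  -- the vector at `x`
  have hchain := mfderiv_chain (f := (id : X → X)) contMDiff_id he hc hyV v
  rw [mfderiv_id] at hchain
  set w : E := mfderiv 𝓘(ℂ, E) 𝓘(ℂ, E) e.symm y v with hw
  have hw0 : w ≠ 0 := by
    intro h0
    apply hv
    apply mfderiv_symm_injective he hy
    rw [← hw, h0]
    exact ((mfderiv 𝓘(ℂ, E) 𝓘(ℂ, E) e.symm y).map_zero).symm
  have hcx : chartMap (id : X → X) e c y = c x := rfl
  have hwc : (mfderiv 𝓘(ℂ, E) 𝓘(ℂ, E) c x w : E) = fderiv ℂ (chartMap (id : X → X) e c) y v := by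
    have h1 : w = (mfderiv 𝓘(ℂ, E) 𝓘(ℂ, E) c.symm (c x)
        (fderiv ℂ (chartMap (id : X → X) e c) y v) : E) := hchain
    rw [h1]
    exact mfderiv_chart_comp_symm hc (mem_chart_source E x) _
  have h2 := hs x w hw0
  have h3 : holSecCurv h x w = (curvatureTensor (localForm h c) (c x)
      (mfderiv 𝓘(ℂ, E) 𝓘(ℂ, E) c x w : E) (mfderiv 𝓘(ℂ, E) 𝓘(ℂ, E) c x w : E)
      (mfderiv 𝓘(ℂ, E) 𝓘(ℂ, E) c x w : E) (mfderiv 𝓘(ℂ, E) 𝓘(ℂ, E) c x w : E)).re
      / (h x w w).re ^ 2 := rfl
  rw [h3, hwc] at h2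
  have hpos : 0 < (h x w w).re ^ 2 := pow_pos (hh.pos x w hw0) 2
  by_contra hneg
  exact absurd (div_neg_of_neg_of_pos (lt_of_not_ge hneg) hpos) (not_lt.2 h2)

end hsc

end Pool.Agent.Lib.MP_733696_ag
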