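import Pool.Agent.Lib.MP_733696_ag.Bochner

/-!
# Closed holomorphic one-forms are parallel when the holomorphic sectional curvature is
semi-positive
-/

open scoped Manifold ContDiff Topology ComplexConjugate
open Module Set MeasureTheory

namespace Pool.Agent.Lib.MP_733696_ag

variable {E : Type*} [NormedAddCommGroup E] [NormedSpace ℂ E]
variable {X : Type*} [TopologicalSpace X] [ChartedSpace E X]
variable [IsManifold 𝓘(ℂ, E) ω X] [FiniteDimensional ℂ E]
variable {h : ∀ x : X, TangentSpace 𝓘(ℂ, E) x → TangentSpace 𝓘(ℂ, E) x → ℂ}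
  (hh : IsKahlerMetric h)
variable {η : ∀ x : X, TangentSpace 𝓘(ℂ, E) x →L[ℂ] ℂ} (hη : IsClosedHolForm η)

omit [FiniteDimensional ℂ E] in
theorem etaLoc_change {e c : OpenPartialHomeomorph X E} (he : e ∈ atlas E X)
    (hc : c ∈ atlas E X) {y : E} (hy : y ∈ chartDom (id : X → X) e c) (w : E) :
    etaLoc η e y w = etaLoc η c (chartMap (id : X → X) e c y)
      (fderiv ℂ (chartMap (id : X → X) e c) y w) := by
  have hchain := mfderiv_chain (f := (id : X → X)) contMDiff_id he hc hy w
  rw [mfderiv_id] at hchain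
  have h3 : (mfderiv 𝓘(ℂ, E) 𝓘(ℂ, E) e.symm y w : E) = (mfderiv 𝓘(ℂ, E) 𝓘(ℂ, E) c.symm
      (chartMap (id : X → X) e c y) (fderiv ℂ (chartMap (id : X → X) e c) y w) : E) := hchain
  have h4 : c.symm (chartMap (id : X → X) e c y) = e.symm y := c.left_inv hy.2
  have key : ∀ (x x' : X), x = x' → ∀ a b : E, a = b → (η x a : ℂ) = η x' b := by
    rintro x _ rfl a _ rfl; rfl
  exact key _ _ h4.symm _ _ h3

/-- the function `|η|²` -/
noncomputable def uX (h : ∀ x : X, TangentSpace 𝓘(ℂ, E) x → TangentSpace 𝓘(ℂ, E) x → ℂ)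
    (η : ∀ x : X, TangentSpace 𝓘(ℂ, E) x →L[ℂ] ℂ) (x : X) : ℂ :=
  etaLoc η (chartAt E x) (chartAt E x x) (xiLoc h η (chartAt E x) (chartAt E x x))

include hh hη

theorem uX_chart {e : OpenPartialHomeomorph X E} (he : e ∈ atlas E X) {y : E}
    (hy : y ∈ e.target) : uX h η (e.symm y) = etaLoc η e y (xiLoc h η e y) := by
  have hc : chartAt E (e.symm y) ∈ atlas E X := chart_mem_atlas E (e.symm y)
  have hyV : y ∈ chartDom (id : X → X) e (chartAt E (e.symm y)) :=
    ⟨hy, mem_chart_source E (e.symm y)⟩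
  rw [etaLoc_change he hc hyV, xiLoc_change hh hη he hc hyV]
  rfl

theorem smoothX_uX : SmoothX E (uX h η) := by
  intro e he
  have h1 := contDiffOn_u (hh.localKahler he) (hη.localForm he) (contDiffOn_xiLoc hh hη he)
    (xiLoc_spec hh hη he)
  exact h1.congr fun y hy => uX_chart hh hη he hy

theorem F_chart {e : OpenPartialHomeomorph X E} (he : e ∈ atlas E X) {y : E}
    (hy : y ∈ e.target) :
    Dxi h η (Dxibar h η (uX h η)) (e.symm y)
      = dz (fun y => dzbar (fun y => etaLoc η e y (xiLoc h η e y)) y (xiLoc h η e y)) y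
          (xiLoc h η e y) := by
  rw [Dxi_chart hh hη (smoothX_Dxibar hh hη (smoothX_uX hh hη)) he hy]
  apply dz_congr
  filter_upwards [e.open_target.mem_nhds hy] with z hz
  rw [Dxibar_chart hh hη (smoothX_uX hh hη) he hz]
  apply dzbar_congr
  filter_upwards [e.open_target.mem_nhds hz] with w hw
  exact uX_chart hh hη he hw

variable [T2Space X] [CompactSpace X] (hs : SemiPositiveHSC h)
include hs

theorem local_F_zero {e : OpenPartialHomeomorph X E} (he : e ∈ atlas E X) {y : E}
    (hy : y ∈ e.target) :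
    (dz (fun y => dzbar (fun y => etaLoc η e y (xiLoc h η e y)) y (xiLoc h η e y)) y
          (xiLoc h η e y)).re = 0 := by
  rw [← F_chart hh hη he hy]
  apply Dxi_re_eq_zero hh hη (smoothX_Dxibar hh hη (smoothX_uX hh hη))
  intro x
  have hx : (chartAt E x).symm (chartAt E x x) = x :=
    (chartAt E x).left_inv (mem_chart_source E x)
  rw [← hx, F_chart hh hη (chart_mem_atlas E x) (mem_chart_target E x)]
  exact F_re_nonneg (hh.localKahler (chart_mem_atlas E x)) (hη.localForm (chart_mem_atlas E x))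
    (contDiffOn_xiLoc hh hη (chart_mem_atlas E x)) (xiLoc_spec hh hη (chart_mem_atlas E x))
    (mem_chart_target E x) (fun v => SemiPositiveHSC.in_chart hh hs (chart_mem_atlas E x)
      (mem_chart_target E x) v)

/-- the dual vector field is holomorphically parallel: `∂̄ ξ = 0` -/
theorem dzbar_xiLoc {e : OpenPartialHomeomorph X E} (he : e ∈ atlas E X) {y : E}
    (hy : y ∈ e.target) (a : E) : dzbar (xiLoc h η e) y a = 0 :=
  dzbar_dual_eq_zero (hh.localKahler he) (hη.localForm he)
    (contDiffOn_xiLoc hh hη he) (xiLoc_spec hh hη he)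
    (fun _ hz v => SemiPositiveHSC.in_chart hh hs he hz v)
    (fun _ hz => local_F_zero hh hη hs he hz) hy a

/-- **A closed holomorphic one-form on a compact Kähler manifold with semi-positive holomorphic
sectional curvature is parallel.** -/
theorem etaLoc_parallel {e : OpenPartialHomeomorph X E} (he : e ∈ atlas E X) {y : E}
    (hy : y ∈ e.target) (a v : E) :
    dz (etaLoc η e) y a v = etaLoc η e y (christoffel (localForm h e) y a v) :=
  form_parallel (hh.localKahler he) (hη.localForm he)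
    (contDiffOn_xiLoc hh hη he) (xiLoc_spec hh hη he)
    (fun _ hz v => SemiPositiveHSC.in_chart hh hs he hz v)
    (fun _ hz => local_F_zero hh hη hs he hz) hy a v

theorem fderiv_u_zero {e : OpenPartialHomeomorph X E} (he : e ∈ atlas E X) {y : E}
    (hy : y ∈ e.target) : fderiv ℝ (fun y => etaLoc η e y (xiLoc h η e y)) y = 0 := by
  ext a
  rw [fderiv_eq_dz_add_dzbar, bochner_dz_u (hh.localKahler he) (hη.localForm he)
    (contDiffOn_xiLoc hh hη he) (xiLoc_spec hh hη he) hy,
    bochner_dzbar_u (hh.localKahler he) (hη.localForm he)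
    (contDiffOn_xiLoc hh hη he) (xiLoc_spec hh hη he) hy, dzbar_xiLoc hh hη hs he hy,
    dzbar_xiLoc hh hη hs he hy]
  simp

/-- if `η` vanishes at a point it vanishes nearby -/
theorem etaLoc_zero_nhds {e : OpenPartialHomeomorph X E} (he : e ∈ atlas E X) {y₀ : E}
    (hy₀ : y₀ ∈ e.target) (h0 : ∀ v, etaLoc η e y₀ v = 0) :
    ∀ᶠ y in 𝓝 y₀, ∀ v, etaLoc η e y v = 0 := by
  obtain ⟨r, hr, hball⟩ := Metric.isOpen_iff.1 e.open_target y₀ hy₀
  have hsm := contDiffOn_u (hh.localKahler he) (hη.localForm he) (contDiffOn_xiLoc hh hη he)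
    (xiLoc_spec hh hη he)
  filter_upwards [Metric.ball_mem_nhds y₀ hr] with y hy
  have h1 : etaLoc η e y (xiLoc h η e y) = etaLoc η e y₀ (xiLoc h η e y₀) := by
    apply Metric.isOpen_ball.is_const_of_fderiv_eq_zero (𝕜 := ℝ)
      (f := fun y => etaLoc η e y (xiLoc h η e y)) (convex_ball y₀ r).isPreconnected
      ((hsm.differentiableOn (by simp)).mono hball) _ hy (Metric.mem_ball_self hr)
    intro z hz
    exact fderiv_u_zero hh hη hs he (hball hz)
  rw [h0] at h1
  have h2 : xiLoc h η e y = 0 := by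
    by_contra hne
    have h3 := (hh.localKahler he).pos y (hball hy) _ hne
    rw [xiLoc_spec hh hη he y (hball hy), h1] at h3
    simp at h3
  intro v
  rw [← xiLoc_spec hh hη he y (hball hy), h2, map_zero]

end Pool.Agent.Lib.MP_733696_ag
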