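import Pool.Agent.Lib.MP_733696_ag.Wirtinger

/-!
# Product rules for Wirtinger derivatives
-/

open scoped ContDiff Topology ComplexConjugate

namespace Pool.Agent.Lib.MP_733696_ag

variable {E : Type*} [NormedAddCommGroup E] [NormedSpace ℂ E]
variable {B : Type*} [NormedAddCommGroup B] [NormedSpace ℂ B]

/-- evaluation of a family of real bilinear forms on fixed vectors -/
theorem dz_eval₂ {G : B → E →L[ℝ] E →L[ℝ] ℂ} {y : B} (hG : DifferentiableAt ℝ G y) (u : B)
    (v w : E) :
    dz (fun y => G y v w) y u = dz G y u v w := by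
  have h : HasFDerivAt (fun y => G y v w) (((fderiv ℝ G y).flip v).flip w) y := by
    have h1 : HasFDerivAt (fun y => G y v) ((fderiv ℝ G y).flip v) y := by
      have := hG.hasFDerivAt.clm_apply (hasFDerivAt_const v y)
      convert! this using 1
      ext w; simp
    have := h1.clm_apply (hasFDerivAt_const w y)
    convert! this using 1
    ext w; simp
  rw [dz_of_hasFDerivAt h, dz]
  simp only [smul_apply, sub_apply, ContinuousLinearMap.flip_apply]

theorem dzbar_eval₂ {G : B → E →L[ℝ] E →L[ℝ] ℂ} {y : B} (hG : DifferentiableAt ℝ G y)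
    (u : B) (v w : E) : dzbar (fun y => G y v w) y u = dzbar G y u v w := by
  have h : HasFDerivAt (fun y => G y v w) (((fderiv ℝ G y).flip v).flip w) y := by
    have h1 : HasFDerivAt (fun y => G y v) ((fderiv ℝ G y).flip v) y := by
      have := hG.hasFDerivAt.clm_apply (hasFDerivAt_const v y)
      convert! this using 1
      ext w; simp
    have := h1.clm_apply (hasFDerivAt_const w y)
    convert! this using 1
    ext w; simp
  rw [dzbar_of_hasFDerivAt h, dzbar]
  simp only [smul_apply, add_apply, ContinuousLinearMap.flip_apply]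

/-- evaluation of a family of real linear forms on a fixed vector -/
theorem dz_eval₁ {η : B → E →L[ℝ] ℂ} {y : B} (hη : DifferentiableAt ℝ η y) (u : B) (v : E) :
    dz (fun y => η y v) y u = dz η y u v := by
  have h1 : HasFDerivAt (fun y => η y v) ((fderiv ℝ η y).flip v) y := by
    have := hη.hasFDerivAt.clm_apply (hasFDerivAt_const v y)
    convert! this using 1
    ext w; simp
  rw [dz_of_hasFDerivAt h1, dz]
  simp only [smul_apply, sub_apply, ContinuousLinearMap.flip_apply]

theorem dzbar_eval₁ {η : B → E →L[ℝ] ℂ} {y : B} (hη : DifferentiableAt ℝ η y) (u : B) (v : E) :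
    dzbar (fun y => η y v) y u = dzbar η y u v := by
  have h1 : HasFDerivAt (fun y => η y v) ((fderiv ℝ η y).flip v) y := by
    have := hη.hasFDerivAt.clm_apply (hasFDerivAt_const v y)
    convert! this using 1
    ext w; simp
  rw [dzbar_of_hasFDerivAt h1, dzbar]
  simp only [smul_apply, add_apply, ContinuousLinearMap.flip_apply]

/-- product rule for the evaluation of a `(1,0)`-form on a vector field -/
theorem dz_form_apply {η : B → E →L[ℝ] ℂ} {a : B → E} {y : B} (hη : DifferentiableAt ℝ η y)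
    (ha : DifferentiableAt ℝ a y) (hlin : ∀ (c : ℂ) (v : E), η y (c • v) = c * η y v) (u : B) :
    dz (fun y => η y (a y)) y u = dz η y u (a y) + η y (dz a y u) := by
  have h := hη.hasFDerivAt.clm_apply ha.hasFDerivAt
  rw [dz_of_hasFDerivAt h]
  simp only [dz]
  rw [hlin]
  simp only [smul_apply, sub_apply, add_apply, ContinuousLinearMap.flip_apply,
    ContinuousLinearMap.comp_apply, map_sub, hlin, smul_eq_mul]
  ring

theorem dzbar_form_apply {η : B → E →L[ℝ] ℂ} {a : B → E} {y : B} (hη : DifferentiableAt ℝ η y)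
    (ha : DifferentiableAt ℝ a y) (hlin : ∀ (c : ℂ) (v : E), η y (c • v) = c * η y v) (u : B) :
    dzbar (fun y => η y (a y)) y u = dzbar η y u (a y) + η y (dzbar a y u) := by
  have h := hη.hasFDerivAt.clm_apply ha.hasFDerivAt
  rw [dzbar_of_hasFDerivAt h]
  simp only [dzbar]
  rw [hlin]
  simp only [smul_apply, add_apply, ContinuousLinearMap.flip_apply,
    ContinuousLinearMap.comp_apply, map_add, hlin, smul_eq_mul]
  ring

/-- product rule for a sesquilinear pairing of two vector fields -/
theorem dz_pairing {G : B → E →L[ℝ] E →L[ℝ] ℂ} {a b : B → E} {y : B}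
    (hG : DifferentiableAt ℝ G y) (ha : DifferentiableAt ℝ a y) (hb : DifferentiableAt ℝ b y)
    (hl : ∀ (c : ℂ) (v w : E), G y (c • v) w = c * G y v w)
    (hr : ∀ (c : ℂ) (v w : E), G y v (c • w) = conj c * G y v w) (u : B) :
    dz (fun y => G y (a y) (b y)) y u
      = dz G y u (a y) (b y) + G y (dz a y u) (b y) + G y (a y) (dzbar b y u) := by
  have h := (hG.hasFDerivAt.clm_apply ha.hasFDerivAt).clm_apply hb.hasFDerivAt
  rw [dz_of_hasFDerivAt h]
  simp only [dz, dzbar]
  rw [hl, hr]
  simp only [smul_apply, sub_apply, add_apply, ContinuousLinearMap.flip_apply,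
    ContinuousLinearMap.comp_apply, map_sub, map_add, hl, hr, smul_eq_mul, Complex.conj_I,
    map_inv₀, map_ofNat]
  ring

theorem dzbar_pairing {G : B → E →L[ℝ] E →L[ℝ] ℂ} {a b : B → E} {y : B}
    (hG : DifferentiableAt ℝ G y) (ha : DifferentiableAt ℝ a y) (hb : DifferentiableAt ℝ b y)
    (hl : ∀ (c : ℂ) (v w : E), G y (c • v) w = c * G y v w)
    (hr : ∀ (c : ℂ) (v w : E), G y v (c • w) = conj c * G y v w) (u : B) :
    dzbar (fun y => G y (a y) (b y)) y u
      = dzbar G y u (a y) (b y) + G y (dzbar a y u) (b y) + G y (a y) (dz b y u) := by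
  have h := (hG.hasFDerivAt.clm_apply ha.hasFDerivAt).clm_apply hb.hasFDerivAt
  rw [dzbar_of_hasFDerivAt h]
  simp only [dz, dzbar]
  rw [hl, hr]
  simp only [smul_apply, sub_apply, add_apply, ContinuousLinearMap.flip_apply,
    ContinuousLinearMap.comp_apply, map_sub, map_add, hl, hr, smul_eq_mul, Complex.conj_I,
    map_inv₀, map_ofNat]
  ring

/-- product rule for scalar functions -/
theorem dz_mul {f g : E → ℂ} {y : E} (hf : DifferentiableAt ℝ f y) (hg : DifferentiableAt ℝ g y)
    (u : E) : dz (fun y => f y * g y) y u = dz f y u * g y + f y * dz g y u := by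
  have h : HasFDerivAt (fun y => f y * g y) _ y := hf.hasFDerivAt.mul hg.hasFDerivAt
  rw [dz_of_hasFDerivAt h]
  simp only [dz, add_apply, smul_apply, smul_eq_mul]
  ring

theorem dzbar_mul {f g : E → ℂ} {y : E} (hf : DifferentiableAt ℝ f y)
    (hg : DifferentiableAt ℝ g y) (u : E) :
    dzbar (fun y => f y * g y) y u = dzbar f y u * g y + f y * dzbar g y u := by
  have h : HasFDerivAt (fun y => f y * g y) _ y := hf.hasFDerivAt.mul hg.hasFDerivAt
  rw [dzbar_of_hasFDerivAt h]
  simp only [dzbar, add_apply, smul_apply, smul_eq_mul]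
  ring

theorem dz_sum {ι : Type*} {W : Type*} [NormedAddCommGroup W] [NormedSpace ℂ W] {s : Finset ι}
    {f : ι → E → W} {y : E} (hf : ∀ i ∈ s, DifferentiableAt ℝ (f i) y) (u : E) :
    dz (fun y => ∑ i ∈ s, f i y) y u = ∑ i ∈ s, dz (f i) y u := by
  have h : HasFDerivAt (fun y => ∑ i ∈ s, f i y) (∑ i ∈ s, fderiv ℝ (f i) y) y :=
    HasFDerivAt.fun_sum fun i hi => (hf i hi).hasFDerivAt
  rw [dz_of_hasFDerivAt h]
  simp only [dz, FunLike.coe_sum, Finset.sum_apply]
  rw [Finset.smul_sum (r := Complex.I), ← Finset.sum_sub_distrib, Finset.smul_sum]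

/-- derivative in a moving direction of a conjugate linear derivative:
`∂_a (∂̄_{b} f) = (∂_a ∂̄_{b₀} f) + ∂̄_{∂̄_a b} f`. -/
theorem dz_dzbar_moving {f : E → ℂ} {b : E → E} {y : E} (hf : ContDiffAt ℝ 2 f y)
    (hb : DifferentiableAt ℝ b y) (u : E) :
    dz (fun y => dzbar f y (b y)) y u
      = dz (fun y' => dzbar f y' (b y)) y u + dzbar f y (dzbar b y u) := by
  have hd : DifferentiableAt ℝ (fderiv ℝ f) y :=
    (hf.fderiv_right (m := 1) (by norm_num)).differentiableAt (by norm_num)
  have hbI : HasFDerivAt (fun y => Complex.I • b y) (Complex.I • fderiv ℝ b y) y :=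
    hb.hasFDerivAt.const_smul Complex.I
  have h1 : HasFDerivAt (fun y => dzbar f y (b y)) _ y :=
    ((hd.hasFDerivAt.clm_apply hb.hasFDerivAt).add
      ((hd.hasFDerivAt.clm_apply hbI).const_smul Complex.I)).const_smul (2:ℂ)⁻¹
  have h2 : HasFDerivAt (fun y' => dzbar f y' (b y)) _ y :=
    ((hd.hasFDerivAt.clm_apply (hasFDerivAt_const (b y) y)).add
      ((hd.hasFDerivAt.clm_apply (hasFDerivAt_const (Complex.I • b y) y)).const_smul
        Complex.I)).const_smul (2:ℂ)⁻¹
  have key : dzbar f y (dzbar b y u) = (2:ℂ)⁻¹ • (ap (fderiv ℝ f y) (fderiv ℝ b y u)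
      - Complex.I • ap (fderiv ℝ f y) (fderiv ℝ b y (Complex.I • u))) := by
    rw [dzbar_eq_ap f, dzbar, ap_smul, ap_add, ap_smul]
    simp only [map_inv₀, map_ofNat, Complex.conj_I, smul_eq_mul]
    ring
  rw [dz_of_hasFDerivAt h1, dz_of_hasFDerivAt h2, key]
  simp only [ap, smul_apply, add_apply, ContinuousLinearMap.flip_apply,
    ContinuousLinearMap.comp_apply, smul_eq_mul, 
    ContinuousLinearMap.comp_zero, zero_apply]
  ring

end Pool.Agent.Lib.MP_733696_ag
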