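import Pool.Agent.Lib.MP_733696_ag.Parallel
import Pool.Agent.Lib.MP_733696_ag.Curves

/-!
# Holomorphic maps to complex tori
-/

open scoped Manifold ContDiff Topology ComplexConjugate
open Module Set Filter

namespace Pool.Agent.Lib.MP_733696_ag

variable {V : Type*} [NormedAddCommGroup V] [NormedSpace ℂ V]
variable {Λ : AddSubgroup V} [DiscreteTopology Λ]

omit [NormedSpace ℂ V] in
/-- two continuous maps to `V` which agree modulo the discrete subgroup `Λ` differ by a locally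
constant map -/
theorem eventually_const_of_quot {T : Type*} [TopologicalSpace T] {f g : T → V} {t : T}
    (hf : ContinuousAt f t) (hg : ContinuousAt g t)
    (h : ∀ᶠ s in 𝓝 t, (f s : V ⧸ Λ) = (g s : V ⧸ Λ)) :
    ∀ᶠ s in 𝓝 t, f s - g s = f t - g t := by
  have hmem : ∀ s, (f s : V ⧸ Λ) = (g s : V ⧸ Λ) → f s - g s ∈ Λ := by
    intro s hs
    have h1 := QuotientAddGroup.eq.1 hs
    have h2 := Λ.neg_mem h1
    convert! h2 using 1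
    abel
  have ht := hmem t h.self_of_nhds
  obtain ⟨U, hU, hUΛ⟩ := isOpen_induced_iff.1 (isOpen_discrete ({⟨f t - g t, ht⟩} : Set Λ))
  have htU : f t - g t ∈ U := by
    have : (⟨f t - g t, ht⟩ : Λ) ∈ (Subtype.val ⁻¹' U : Set Λ) := by rw [hUΛ]; rfl
    exact this
  have hc : ContinuousAt (fun s => f s - g s) t := hf.sub hg
  filter_upwards [h, hc.eventually (hU.mem_nhds htU)] with s hs hsU
  have h1 : (⟨f s - g s, hmem s hs⟩ : Λ) ∈ (Subtype.val ⁻¹' U : Set Λ) := hsU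
  rw [hUΛ] at h1
  exact congrArg Subtype.val h1

variable {E : Type*} [NormedAddCommGroup E] [NormedSpace ℂ E]
variable {X : Type*} [TopologicalSpace X] [ChartedSpace E X]

/-- the differential of a holomorphic map to a torus -/
noncomputable def dTorus {α : X → V ⧸ Λ} (hα : IsHolomorphicToTorus (E := E) Λ α) (x : X) :
    E →L[ℂ] V := mfderiv 𝓘(ℂ, E) 𝓘(ℂ, V) (Classical.choose (hα x)) x

theorem mfderiv_eq_of_add_const {f g : X → V} {x : X} {v₀ : V}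
    (hg : MDifferentiableAt 𝓘(ℂ, E) 𝓘(ℂ, V) g x) (h : ∀ᶠ s in 𝓝 x, f s = g s + v₀) (v : E) :
    (mfderiv 𝓘(ℂ, E) 𝓘(ℂ, V) f x v : V) = (mfderiv 𝓘(ℂ, E) 𝓘(ℂ, V) g x v : V) := by
  let τ : V → V := fun v => v + v₀
  have h1 : f =ᶠ[𝓝 x] (τ ∘ g) := h
  have h2 : HasFDerivAt τ (ContinuousLinearMap.id ℂ V) (g x) := (hasFDerivAt_id (g x)).add_const v₀
  have h3 : HasMFDerivAt 𝓘(ℂ, V) 𝓘(ℂ, V) τ (g x) (ContinuousLinearMap.id ℂ V) :=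
    h2.hasMFDerivAt
  have h4 := h3.comp x hg.hasMFDerivAt
  have h5 := (h4.congr_of_eventuallyEq h1).mfderiv
  exact congrArg (fun L => L v) h5

theorem dTorus_eq [IsManifold 𝓘(ℂ, E) ω X] {α : X → V ⧸ Λ}
    (hα : IsHolomorphicToTorus (E := E) Λ α)
    {x₀ : X} {f : X → V} (hf : ContMDiffAt 𝓘(ℂ, E) 𝓘(ℂ, V) ω f x₀)
    (hfα : ∀ᶠ x in 𝓝 x₀, α x = (f x : V ⧸ Λ)) :
    ∀ᶠ x in 𝓝 x₀, ∀ v : E, (mfderiv 𝓘(ℂ, E) 𝓘(ℂ, V) f x v : V) = dTorus hα x v := by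
  have h1 : ∀ᶠ x in 𝓝 x₀, ContMDiffAt 𝓘(ℂ, E) 𝓘(ℂ, V) 1 f x :=
    (contMDiffAt_iff_contMDiffAt_nhds (by simp)).1
      (hf.of_le le_top : ContMDiffAt 𝓘(ℂ, E) 𝓘(ℂ, V) 1 f x₀)
  filter_upwards [h1, hfα.eventually_nhds] with x hx1 hx2 v
  obtain ⟨hg, hgα⟩ := Classical.choose_spec (hα x)
  set g := Classical.choose (hα x) with hgdef
  have hgd : MDifferentiableAt 𝓘(ℂ, E) 𝓘(ℂ, V) g x := hg.mdifferentiableAt (by simp)
  have h2 : ∀ᶠ s in 𝓝 x, (f s : V ⧸ Λ) = (g s : V ⧸ Λ) := by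
    filter_upwards [hx2, hgα] with s hs1 hs2
    rw [← hs1, ← hs2]
  have h3 := eventually_const_of_quot hx1.continuousAt hg.continuousAt h2
  have h4 : ∀ᶠ s in 𝓝 x, f s = g s + (f x - g x) := by
    filter_upwards [h3] with s hs
    rw [← hs]; abel
  exact mfderiv_eq_of_add_const hgd h4 v

/-- the pull back of a constant one-form on the torus -/
noncomputable def etaT {α : X → V ⧸ Λ} (hα : IsHolomorphicToTorus (E := E) Λ α)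
    (ℓ : V →L[ℂ] ℂ) (x : X) : TangentSpace 𝓘(ℂ, E) x →L[ℂ] ℂ :=
  (ℓ.comp (dTorus hα x) : E →L[ℂ] ℂ)

theorem isClosedHolForm_etaT [IsManifold 𝓘(ℂ, E) ω X] {α : X → V ⧸ Λ}
    (hα : IsHolomorphicToTorus (E := E) Λ α) (ℓ : V →L[ℂ] ℂ) :
    IsClosedHolForm (E := E) (etaT hα ℓ) := by
  intro x₀
  obtain ⟨f, hf, hfα⟩ := hα x₀
  have hℓ : ContMDiff 𝓘(ℂ, V) 𝓘(ℂ, ℂ) ω ℓ := ℓ.contDiff.contMDiff
  refine ⟨ℓ ∘ f, hℓ.contMDiffAt.comp x₀ hf, ?_⟩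
  have h1 : ∀ᶠ x in 𝓝 x₀, ContMDiffAt 𝓘(ℂ, E) 𝓘(ℂ, V) 1 f x :=
    (contMDiffAt_iff_contMDiffAt_nhds (by simp)).1
      (hf.of_le le_top : ContMDiffAt 𝓘(ℂ, E) 𝓘(ℂ, V) 1 f x₀)
  filter_upwards [h1, dTorus_eq hα hf hfα] with x hx1 hx2 v
  have h2 : MDifferentiableAt 𝓘(ℂ, E) 𝓘(ℂ, V) f x := hx1.mdifferentiableAt (by simp)
  have h3 : HasMFDerivAt 𝓘(ℂ, V) 𝓘(ℂ, ℂ) ℓ (f x) ℓ := ℓ.hasFDerivAt.hasMFDerivAt
  have h4 := (h3.comp x h2.hasMFDerivAt).mfderiv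
  have h5 : (mfderiv 𝓘(ℂ, E) 𝓘(ℂ, ℂ) (ℓ ∘ f) x v : ℂ) = ℓ (mfderiv 𝓘(ℂ, E) 𝓘(ℂ, V) f x v : V) :=
    congrArg (fun L => L v) h4
  rw [h5, hx2]
  rfl

end Pool.Agent.Lib.MP_733696_ag
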