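import Pool.Agent.Lib.MP_733696_ag.Defs

/-!
# Wirtinger derivatives on a complex normed space

`dz f y u` is the `(1,0)`-part `∂_u f (y)` and `dzbar f y u` the `(0,1)`-part of the real
Fréchet derivative of `f`, evaluated on the vector `u`.
-/

open scoped ContDiff Topology ComplexConjugate

namespace Pool.Agent.Lib.MP_733696_ag

variable {E : Type*} [NormedAddCommGroup E] [NormedSpace ℂ E]
variable {W : Type*} [NormedAddCommGroup W] [NormedSpace ℂ W]

/-- complex linear part of a real linear map -/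
noncomputable def hp (L : E →L[ℝ] W) (u : E) : W :=
  (2 : ℂ)⁻¹ • (L u - Complex.I • L (Complex.I • u))

/-- conjugate linear part of a real linear map -/
noncomputable def ap (L : E →L[ℝ] W) (u : E) : W :=
  (2 : ℂ)⁻¹ • (L u + Complex.I • L (Complex.I • u))

theorem dz_eq_hp (f : E → W) (y u : E) : dz f y u = hp (fderiv ℝ f y) u := rfl
theorem dzbar_eq_ap (f : E → W) (y u : E) : dzbar f y u = ap (fderiv ℝ f y) u := rfl

theorem hp_add_ap (L : E →L[ℝ] W) (u : E) : L u = hp L u + ap L u := by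
  simp only [hp, ap]
  rw [← smul_add]
  have : L u - Complex.I • L (Complex.I • u) + (L u + Complex.I • L (Complex.I • u))
      = (2 : ℂ) • L u := by
    rw [two_smul]; abel
  rw [this, smul_smul]; norm_num

theorem complex_smul_decomp (c : ℂ) (u : E) : c • u = c.re • u + c.im • (Complex.I • u) := by
  conv_lhs => rw [← Complex.re_add_im c]
  rw [add_smul, mul_smul]
  rfl

theorem hp_add (L : E →L[ℝ] W) (u v : E) : hp L (u + v) = hp L u + hp L v := by
  simp only [hp, smul_add, map_add, smul_sub]; abel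

theorem ap_add (L : E →L[ℝ] W) (u v : E) : ap L (u + v) = ap L u + ap L v := by
  simp only [ap, smul_add, map_add]; abel

theorem hp_smul_real (L : E →L[ℝ] W) (c : ℝ) (u : E) : hp L (c • u) = c • hp L u := by
  simp only [hp]
  rw [smul_comm Complex.I c u, map_smul, map_smul]
  simp only [smul_sub]
  rw [smul_comm Complex.I c, smul_comm (2 : ℂ)⁻¹ c, smul_comm (2 : ℂ)⁻¹ c]

theorem ap_smul_real (L : E →L[ℝ] W) (c : ℝ) (u : E) : ap L (c • u) = c • ap L u := by
  simp only [ap]
  rw [smul_comm Complex.I c u, map_smul, map_smul]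
  simp only [smul_add]
  rw [smul_comm Complex.I c, smul_comm (2 : ℂ)⁻¹ c, smul_comm (2 : ℂ)⁻¹ c]

theorem hp_I_smul (L : E →L[ℝ] W) (u : E) : hp L (Complex.I • u) = Complex.I • hp L u := by
  have h : L (Complex.I • Complex.I • u) = - L u := by
    rw [smul_smul, Complex.I_mul_I, neg_one_smul, map_neg]
  simp only [hp, h]
  match_scalars
  · linear_combination (2:ℂ)⁻¹ * Complex.I_mul_I
  · ring

theorem ap_I_smul (L : E →L[ℝ] W) (u : E) : ap L (Complex.I • u) = -(Complex.I • ap L u) := by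
  have h : L (Complex.I • Complex.I • u) = - L u := by
    rw [smul_smul, Complex.I_mul_I, neg_one_smul, map_neg]
  simp only [ap, h]
  match_scalars
  · linear_combination (2:ℂ)⁻¹ * Complex.I_mul_I
  · ring

theorem hp_smul (L : E →L[ℝ] W) (c : ℂ) (u : E) : hp L (c • u) = c • hp L u := by
  rw [complex_smul_decomp c u, hp_add, hp_smul_real, hp_smul_real, hp_I_smul,
    ← complex_smul_decomp c (hp L u)]

theorem ap_smul (L : E →L[ℝ] W) (c : ℂ) (u : E) : ap L (c • u) = (conj c) • ap L u := by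
  rw [complex_smul_decomp c u, ap_add, ap_smul_real, ap_smul_real, ap_I_smul,
    complex_smul_decomp (conj c) (ap L u)]
  simp

theorem dz_add_dir (f : E → W) (y u v : E) : dz f y (u + v) = dz f y u + dz f y v := hp_add _ _ _
theorem dzbar_add_dir (f : E → W) (y u v : E) : dzbar f y (u + v) = dzbar f y u + dzbar f y v :=
  ap_add _ _ _
theorem dz_smul_dir (f : E → W) (y : E) (c : ℂ) (u : E) : dz f y (c • u) = c • dz f y u :=
  hp_smul _ _ _
theorem dzbar_smul_dir (f : E → W) (y : E) (c : ℂ) (u : E) :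
    dzbar f y (c • u) = (conj c) • dzbar f y u := ap_smul _ _ _

theorem fderiv_eq_dz_add_dzbar (f : E → W) (y u : E) :
    fderiv ℝ f y u = dz f y u + dzbar f y u := hp_add_ap _ _

theorem dz_congr {f g : E → W} {y : E} (h : f =ᶠ[𝓝 y] g) (u : E) : dz f y u = dz g y u := by
  simp only [dz, h.fderiv_eq]

theorem dzbar_congr {f g : E → W} {y : E} (h : f =ᶠ[𝓝 y] g) (u : E) :
    dzbar f y u = dzbar g y u := by
  simp only [dzbar, h.fderiv_eq]

theorem dz_of_hasFDerivAt {f : E → W} {y : E} {f' : E →L[ℝ] W} (h : HasFDerivAt f f' y) (u : E) :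
    dz f y u = (2 : ℂ)⁻¹ • (f' u - Complex.I • f' (Complex.I • u)) := by
  simp only [dz, h.fderiv]

theorem dzbar_of_hasFDerivAt {f : E → W} {y : E} {f' : E →L[ℝ] W} (h : HasFDerivAt f f' y)
    (u : E) : dzbar f y u = (2 : ℂ)⁻¹ • (f' u + Complex.I • f' (Complex.I • u)) := by
  simp only [dzbar, h.fderiv]

/-- conjugation exchanges `∂` and `∂̄` -/
theorem dz_conj {f : E → ℂ} {y : E} (h : DifferentiableAt ℝ f y) (u : E) :
    dz (fun y => conj (f y)) y u = conj (dzbar f y u) := by
  have h2 : HasFDerivAt (fun y => conj (f y))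
      ((Complex.conjCLE : ℂ →L[ℝ] ℂ).comp (fderiv ℝ f y)) y :=
    (Complex.conjCLE : ℂ →L[ℝ] ℂ).hasFDerivAt.comp y h.hasFDerivAt
  rw [dz_of_hasFDerivAt h2, dzbar]
  simp only [ContinuousLinearMap.comp_apply, smul_eq_mul, map_mul, map_add, map_inv₀, map_ofNat,
    Complex.conj_I, ContinuousLinearEquiv.coe_coe, Complex.conjCLE_apply]
  ring

theorem dzbar_conj {f : E → ℂ} {y : E} (h : DifferentiableAt ℝ f y) (u : E) :
    dzbar (fun y => conj (f y)) y u = conj (dz f y u) := by
  have h2 : HasFDerivAt (fun y => conj (f y))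
      ((Complex.conjCLE : ℂ →L[ℝ] ℂ).comp (fderiv ℝ f y)) y :=
    (Complex.conjCLE : ℂ →L[ℝ] ℂ).hasFDerivAt.comp y h.hasFDerivAt
  rw [dzbar_of_hasFDerivAt h2, dz]
  simp only [ContinuousLinearMap.comp_apply, smul_eq_mul, map_mul, map_sub, map_inv₀, map_ofNat,
    Complex.conj_I, ContinuousLinearEquiv.coe_coe, Complex.conjCLE_apply]
  ring

/-- chain rule for `∂` with a holomorphic inner function -/
theorem dz_comp {E₁ : Type*} [NormedAddCommGroup E₁] [NormedSpace ℂ E₁] {F : E₁ → E}
    {F' : E₁ →L[ℂ] E} {f : E → W} {y : E₁} (hF : HasFDerivAt F F' y)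
    (hf : DifferentiableAt ℝ f (F y)) (u : E₁) :
    dz (fun y => f (F y)) y u = dz f (F y) (F' u) := by
  have h2 : HasFDerivAt (fun y => f (F y)) ((fderiv ℝ f (F y)).comp (F'.restrictScalars ℝ)) y :=
    hf.hasFDerivAt.comp y (hF.restrictScalars ℝ)
  rw [dz_of_hasFDerivAt h2, dz]
  simp

theorem dzbar_comp {E₁ : Type*} [NormedAddCommGroup E₁] [NormedSpace ℂ E₁] {F : E₁ → E}
    {F' : E₁ →L[ℂ] E} {f : E → W} {y : E₁} (hF : HasFDerivAt F F' y)
    (hf : DifferentiableAt ℝ f (F y)) (u : E₁) :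
    dzbar (fun y => f (F y)) y u = dzbar f (F y) (F' u) := by
  have h2 : HasFDerivAt (fun y => f (F y)) ((fderiv ℝ f (F y)).comp (F'.restrictScalars ℝ)) y :=
    hf.hasFDerivAt.comp y (hF.restrictScalars ℝ)
  rw [dzbar_of_hasFDerivAt h2, dzbar]
  simp

/-- a holomorphic function has `∂̄ f = 0` -/
theorem dzbar_of_holo {f : E → W} {f' : E →L[ℂ] W} {y : E} (hf : HasFDerivAt f f' y) (u : E) :
    dzbar f y u = 0 := by
  rw [dzbar_of_hasFDerivAt (hf.restrictScalars ℝ)]
  simp [smul_smul]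

/-- a holomorphic function has `∂ f = f'` -/
theorem dz_of_holo {f : E → W} {f' : E →L[ℂ] W} {y : E} (hf : HasFDerivAt f f' y) (u : E) :
    dz f y u = f' u := by
  rw [dz_of_hasFDerivAt (hf.restrictScalars ℝ)]
  simp only [ContinuousLinearMap.coe_restrictScalars', map_smul, smul_smul, Complex.I_mul_I,
    neg_smul, one_smul, sub_neg_eq_add]
  rw [← two_smul ℂ (f' u), smul_smul]
  norm_num

/-- `∂` and `∂̄` commute on twice continuously differentiable functions -/
theorem dz_dzbar_comm {f : E → W} {y : E} (hf : ContDiffAt ℝ 2 f y) (a b : E) :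
    dz (fun y => dzbar f y b) y a = dzbar (fun y => dz f y a) y b := by
  have hd : DifferentiableAt ℝ (fderiv ℝ f) y :=
    (hf.fderiv_right (m := 1) (by norm_num)).differentiableAt (by norm_num)
  have hs : IsSymmSndFDerivAt ℝ f y := hf.isSymmSndFDerivAt (by simp)
  have hv : ∀ v : E, HasFDerivAt (fun y => fderiv ℝ f y v)
      ((fderiv ℝ (fderiv ℝ f) y).flip v) y := fun v => by
    have := hd.hasFDerivAt.clm_apply (hasFDerivAt_const v y)
    convert! this using 1
    ext w
    simp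
  have h1 : HasFDerivAt (fun y => dzbar f y b)
      ((2 : ℂ)⁻¹ • ((fderiv ℝ (fderiv ℝ f) y).flip b
        + Complex.I • (fderiv ℝ (fderiv ℝ f) y).flip (Complex.I • b))) y :=
    ((hv b).add ((hv (Complex.I • b)).const_smul Complex.I)).const_smul _
  have h2 : HasFDerivAt (fun y => dz f y a)
      ((2 : ℂ)⁻¹ • ((fderiv ℝ (fderiv ℝ f) y).flip a
        - Complex.I • (fderiv ℝ (fderiv ℝ f) y).flip (Complex.I • a))) y :=
    ((hv a).sub ((hv (Complex.I • a)).const_smul Complex.I)).const_smul _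
  rw [dz_of_hasFDerivAt h1, dzbar_of_hasFDerivAt h2]
  simp only [smul_apply, add_apply, sub_apply, ContinuousLinearMap.flip_apply]
  rw [hs.eq b a, hs.eq b (Complex.I • a), hs.eq (Complex.I • b) a,
    hs.eq (Complex.I • b) (Complex.I • a)]
  module

end Pool.Agent.Lib.MP_733696_ag
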